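import Pool.Agent.Work.MP_38bec5_lc.P.TRel

set_option autoImplicit false

/-!
# Path (size S-M): distances from an end separate the twin classes.

PROOF.  By strong induction on `k`: if `k` is the least number with `T k u y` and also the least number
with `T k u w`, then `Twin y w`.
`k = 0`: `Twin u y`, `Twin u w`.
`k = 1`: `∃ z, Twin u z ∧ S z y`, so `S u y` (`S_twin`), similarly `S u w`, and `IsEnd u`.
`k ≥ 2`: take `z` with `T (k-1) u z`, `S z y` and `z₂` with `T (k-1) u z₂`, `S z₂ w`.  The least number for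
`z` (and for `z₂`) is `k-1`: a smaller `j` would give `T (j+1) u y` with `j + 1 < k`.  By induction
`Twin z z₂`, so `S z w`.  Also `T (k-1) u z` gives `z₀` with `T (k-2) u z₀`, `S z₀ z`, hence `S z z₀`.
`AtMostTwo` at `z` with `z₀, y, w`: `Twin z₀ y` would give `T (k-2) u y`, a contradiction; `Twin z₀ w`
likewise; so `Twin y w`.
The theorem: `Reach u y` gives a least `k` for `y` (`Nat.find`), and by `hT` the same `k` is least for `w`.
-/

namespace PCA38

private theorem aux {V : Type} {G : SimpleGraph V} (h2 : AtMostTwo G) {u : V} (hu : IsEnd G u)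
    (k : ℕ) : ∀ {y w : V}, T G k u y → T G k u w → (∀ j, j < k → ¬ T G j u y) →
      (∀ j, j < k → ¬ T G j u w) → Twin G y w := by
  induction k with
  | zero =>
    intro y w hy hw _ _
    exact (Eq.symm hy).trans hw
  | succ k ih =>
    intro y w hy hw ny nw
    obtain ⟨z, hz, hzy⟩ := hy
    obtain ⟨z₂, hz₂, hzw⟩ := hw
    rcases k with _ | k
    · exact hu y w (S_twin hzy (Eq.symm hz) rfl) (S_twin hzw (Eq.symm hz₂) rfl)
    · have h1 : Twin G z z₂ := by
        refine ih hz hz₂ ?_ ?_
        · intro j hj hT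
          exact ny (j + 1) (by omega) ⟨z, hT, hzy⟩
        · intro j hj hT
          exact nw (j + 1) (by omega) ⟨z₂, hT, hzw⟩
      have h3 : S G z w := S_twin hzw (Eq.symm h1) rfl
      obtain ⟨z₀, hz₀, hzz⟩ := hz
      rcases h2 z z₀ y w (S_symm hzz) hzy h3 with h4 | h4 | h4
      · exact absurd (T_twin hz₀ rfl h4) (ny k (by omega))
      · exact absurd (T_twin hz₀ rfl h4) (nw k (by omega))
      · exact h4

theorem path_unique {V : Type} {G : SimpleGraph V} (h2 : AtMostTwo G) {u : V} (hu : IsEnd G u)
    {y w : V} (hy : Reach G u y) (hT : ∀ k, T G k u y ↔ T G k u w) : Twin G y w := by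
  classical
  have h1 : ∃ k, T G k u y := hy
  refine aux h2 hu (Nat.find h1) (Nat.find_spec h1) ((hT _).1 (Nat.find_spec h1)) ?_ ?_
  · exact fun j hj => Nat.find_min h1 hj
  · exact fun j hj h => Nat.find_min h1 hj ((hT j).2 h)

end PCA38
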