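import Pool.Agent.Work.MP_38bec5_lc.P.Inv
import Pool.Agent.Work.MP_38bec5_lc.P.Path

set_option autoImplicit false

/-!
# Anch (size S-M): the S-graph is a path (one anchor).

PROOF.  Let `Bis G H E`.  By `start` and `bis_diag` choose `u'` with `E u u u' u'`; `ext` gives `f` with
`E u z u' (f z)` for all `z` (and `E z u (f z) u'`).  CLAIM: `f` is an isomorphism.

(U) If `E u w u' a` and `E u w u' b` then `Twin H a b`.  Proof: `bis_tri'` applied to `E u w u' a` and the
element `b` gives `y` with `E u y u' b` and `E y w b a`.  By `bis_T` (for `E u y u' b` and `E u w u' b`)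
`T k u y ↔ T k u' b ↔ T k u w` for all `k`, so `Twin G y w` by `path_unique` (`Reach u y` by `hr`), so
`Twin H b a` by `bis_twin`.

Let `z ≠ w`.  `ext` for `E u z u' (f z)` gives `g` with `E u y u' (g y)` and `E y z (g y) (f z)` for all `y`.
So `E w z (g w) (f z)`: `z ∈ nb G w ↔ f z ∈ nb H (g w)` (`bis_nb`), and `nb H (g w) = nb H (f w)` by (U)
(`E u w u' (g w)`, `E u w u' (f w)`).  As `z ≠ w` and `f z ≠ f w`, this is
`G.Adj w z ↔ H.Adj (f w) (f z)`.
-/

namespace PCA38

theorem idf_of_end {V : Type} [Finite V] (G : SimpleGraph V) (h2 : AtMostTwo G)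
    (hr : ∀ x y, Reach G x y) (u : V) (hu : IsEnd G u) : Idf G := by
  intro W _ H E hE
  obtain ⟨f₀, h0⟩ := hE.start
  obtain ⟨u', hu'⟩ : ∃ u', u' = f₀ u := ⟨_, rfl⟩
  have huu : E u u u' u' := by
    rw [hu']
    exact h0 u
  obtain ⟨f, hf⟩ := hE.ext _ _ _ _ huu
  have hU : ∀ w a b, E u w u' a → E u w u' b → Twin H a b := by
    intro w a b ha hb
    obtain ⟨y, hy1, hy2⟩ := bis_tri' hE ha b
    have hT : ∀ k, T G k u y ↔ T G k u w := fun k =>
      (bis_T hE k hy1).trans (bis_T hE k hb).symm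
    have h3 := path_unique h2 hu (hr u y) hT
    exact Eq.symm ((bis_twin hE hy2).1 h3)
  refine ⟨⟨f, ?_⟩⟩
  intro w z
  by_cases hwz : w = z
  · rw [hwz]
    exact ⟨fun h => absurd h (H.irrefl), fun h => absurd h (G.irrefl)⟩
  obtain ⟨g, hg⟩ := hE.ext _ _ _ _ (hf z).1
  have h3 := bis_nb hE (hg w).2
  have h4 : nb H (g w) = nb H (f w) := hU w _ _ (hg w).1 (hf w).1
  rw [h4] at h3
  have h5 : f z ≠ f w := fun h => hwz (f.injective h).symm
  constructor
  · intro h
    rcases h3.2 (Or.inr h) with h6 | h6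
    · exact absurd h6.symm hwz
    · exact h6
  · intro h
    rcases h3.1 (Or.inr h) with h6 | h6
    · exact absurd h6 h5
    · exact h6

end PCA38
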