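import Pool.Agent.Work.MP_38bec5_lc.P.Inv
import Pool.Agent.Work.MP_38bec5_lc.P.Path

set_option autoImplicit false

/-!
# AnchB (size M): the S-graph consists of two paths on two cliques (two anchors).

PROOF.  Let `Bis G H E`; choose `u', w'` with `E u w u' w'` (`bis_surj'`) and `f` from `ext`:
`E u z u' (f z)`, `E z w (f z) w'` for all `z`.  CLAIM: `f` is an isomorphism.

Facts.  (i) Reachability is invariant: `E x y x' y' → (Reach G x y ↔ Reach H x' y')` (`bis_T`).  By `hR`:
`x, y` are in the same part iff `Reach G x y`.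
(ii) In `H`: if `Reach H a b` and `a ≠ b` then `H.Adj a b`: choose `x, y` with `E x y a b` (`bis_surj`);
`Reach G x y`, `x ≠ y`, so `x, y` are in the same part, `G.Adj x y`, so `H.Adj a b`.
(iii) `Reach G x y → Reach H (f x) (f y)` if `x, y ∈ A`: both `Reach G u x`, `Reach G u y`, so
`Reach H u' (f x)`, `Reach H u' (f y)`, and `Reach H` is an equivalence relation (`reach_equiv`).
If `x, y ∉ A` use `w, w'` and `E x w (f x) w'` (reachability is symmetric).
So for `x ≠ y` in the same part both `G.Adj x y` and `H.Adj (f x) (f y)` hold.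

(iv) Let `z ∈ A`, `y ∉ A`.  `ext` for `E z w (f z) w'` gives `g` with `E z t (f z) (g t)` and
`E t w (g t) w'` for all `t`.  So `E z y (f z) (g y)` and `E y w (g y) w'`; also `E y w (f y) w'`.
(U) `E y w a w'` and `E y w b w'` with `y ∉ A` imply `Twin H a b`: by `symm`, `E w y w' a`, `E w y w' b`;
`bis_tri'` for `E w y w' a` and `b` gives `t` with `E w t w' b`, `E t y b a`; `T k w t ↔ T k w' b ↔ T k w y`
for all `k`; `Reach G w y` (both not in `A`), so `Reach G w t`, and `path_unique` (end `w`) gives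
`Twin G t y`, hence `Twin H b a`.
So `nb H (g y) = nb H (f y)`, and `G.Adj z y ↔ y ∈ nb G z ↔ g y ∈ nb H (f z) ↔ f z ∈ nb H (g y) ↔
f z ∈ nb H (f y) ↔ H.Adj (f z) (f y)` (as `z ≠ y`, `f z ≠ f y`).
-/

namespace PCA38

private theorem nbc {V : Type} {G : SimpleGraph V} {x y : V} (h : y ∈ nb G x) : x ∈ nb G y := by
  rcases h with h | h
  · exact Or.inl h.symm
  · exact Or.inr h.symm

private theorem adj_nb {V : Type} {G : SimpleGraph V} {x y : V} (h : x ≠ y) :
    G.Adj x y ↔ y ∈ nb G x := by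
  constructor
  · exact fun ha => Or.inr ha
  · rintro (ha | ha)
    · exact absurd ha.symm h
    · exact ha

theorem idf_of_two_ends {V : Type} [Finite V] (G : SimpleGraph V) (h2 : AtMostTwo G)
    (A : Set V) (u w : V) (huA : u ∈ A) (hwA : w ∉ A)
    (hA : ∀ x y, x ∈ A → y ∈ A → x ≠ y → G.Adj x y)
    (hB : ∀ x y, x ∉ A → y ∉ A → x ≠ y → G.Adj x y)
    (hR : ∀ x y, Reach G x y ↔ (x ∈ A ↔ y ∈ A))
    (hu : IsEnd G u) (hw : IsEnd G w) : Idf G := by
  intro W _ H E hE
  obtain ⟨u', w', h0⟩ := bis_surj' hE u w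
  obtain ⟨f, hf⟩ := hE.ext _ _ _ _ h0
  have hreach : ∀ {x y : V} {x' y' : W}, E x y x' y' → (Reach G x y ↔ Reach H x' y') := by
    intro x y x' y' h
    exact exists_congr fun k => bis_T hE k h
  have same : ∀ x y, Reach G x y → x ≠ y → G.Adj x y := by
    intro x y hr hne
    have h := (hR x y).1 hr
    by_cases hx : x ∈ A
    · exact hA x y hx (h.1 hx) hne
    · exact hB x y hx (fun hy => hx (h.2 hy)) hne
  have hH : ∀ a b, Reach H a b → a ≠ b → H.Adj a b := by
    intro a b hr hne
    obtain ⟨x, y, hxy⟩ := bis_surj hE a b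
    have hne' : x ≠ y := fun he => hne ((hE.eq _ _ _ _ hxy).1 he)
    exact (hE.adj _ _ _ _ hxy).1 (same x y ((hreach hxy).2 hr) hne')
  have hrf : ∀ x y, Reach G x y → Reach H (f x) (f y) := by
    intro x y hr
    have h := (hR x y).1 hr
    by_cases hx : x ∈ A
    · have hy : y ∈ A := h.1 hx
      have e1 : Reach H u' (f x) := (hreach (hf x).1).1 ((hR u x).2 ⟨fun _ => hx, fun _ => huA⟩)
      have e2 : Reach H u' (f y) := (hreach (hf y).1).1 ((hR u y).2 ⟨fun _ => hy, fun _ => huA⟩)
      exact reach_equiv.trans (reach_equiv.symm e1) e2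
    · have hy : y ∉ A := fun hy => hx (h.2 hy)
      have e1 : Reach H (f x) w' :=
        (hreach (hf x).2).1 ((hR x w).2 ⟨fun h => absurd h hx, fun h => absurd h hwA⟩)
      have e2 : Reach H (f y) w' :=
        (hreach (hf y).2).1 ((hR y w).2 ⟨fun h => absurd h hy, fun h => absurd h hwA⟩)
      exact reach_equiv.trans e1 (reach_equiv.symm e2)
  have hU : ∀ y, y ∉ A → ∀ a b, E y w a w' → E y w b w' → Twin H a b := by
    intro y hy a b ha hb
    have ha' := hE.symm _ _ _ _ ha
    have hb' := hE.symm _ _ _ _ hb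
    obtain ⟨t, ht1, ht2⟩ := bis_tri' hE ha' b
    have hT : ∀ k, T G k w y ↔ T G k w t := fun k => (bis_T hE k hb').trans (bis_T hE k ht1).symm
    have hr : Reach G w y := (hR w y).2 ⟨fun h => absurd h hwA, fun h => absurd h hy⟩
    have htw : Twin G y t := path_unique h2 hw hr hT
    have h3 : Twin H b a := (bis_twin hE ht2).1 (Eq.symm htw)
    exact Eq.symm h3
  have cross : ∀ z y, z ∈ A → y ∉ A → (G.Adj z y ↔ H.Adj (f z) (f y)) := by
    intro z y hz hy
    have hne : z ≠ y := fun he => hy (he ▸ hz)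
    have hne' : f z ≠ f y := fun he => hne (f.injective he)
    obtain ⟨g, hg⟩ := hE.ext _ _ _ _ (hf z).2
    have htw : nb H (g y) = nb H (f y) := hU y hy (g y) (f y) (hg y).2 (hf y).2
    rw [adj_nb hne, bis_nb hE (hg y).1, adj_nb hne']
    constructor
    · intro h
      have h3 := nbc h
      rw [htw] at h3
      exact nbc h3
    · intro h
      have h3 := nbc h
      rw [← htw] at h3
      exact nbc h3
  refine ⟨⟨f, ?_⟩⟩
  intro x y
  show H.Adj (f x) (f y) ↔ G.Adj x y
  by_cases hxy : x = y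
  · rw [hxy]
    exact ⟨fun h => absurd h (H.irrefl), fun h => absurd h (G.irrefl)⟩
  · have hfxy : f x ≠ f y := fun he => hxy (f.injective he)
    by_cases hx : x ∈ A <;> by_cases hy : y ∈ A
    · have hr : Reach G x y := (hR x y).2 ⟨fun _ => hy, fun _ => hx⟩
      exact ⟨fun _ => same x y hr hxy, fun _ => hH _ _ (hrf x y hr) hfxy⟩
    · exact (cross x y hx hy).symm
    · rw [H.adj_comm, G.adj_comm]
      exact (cross y x hy hx).symm
    · have hr : Reach G x y := (hR x y).2 ⟨fun h => absurd h hx, fun h => absurd h hy⟩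
      exact ⟨fun _ => same x y hr hxy, fun _ => hH _ _ (hrf x y hr) hfxy⟩

end PCA38
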