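import Pool.Agent.Work.MP_38bec5_lc.P.TRel

set_option autoImplicit false

/-!
# CycA (size M): a connected 2-regular S-graph is a cycle.

PROOF.  (0) For every `x` and every `S`-neighbour `p` of `x` there is an `S`-neighbour `q` of `x` with
`¬ Twin p q` (`¬ IsEnd x` gives two non-twin neighbours `y, z`; one of them is not a twin of `p`), and
then (`AtMostTwo`) every `S`-neighbour of `x` is a twin of `p` or of `q`.
(1) Choose `x₀, x₁` with `S x₀ x₁` and define `w : ℕ → V` recursively with `w 0 = x₀`, `w 1 = x₁`,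
`S (w t) (w (t+1))` and `¬ Twin (w t) (w (t+2))` (recursion on pairs).  By (0) and `S_symm`:
(*) the `S`-neighbours of (a twin of) `w (t+1)` are exactly the twins of `w t` and of `w (t+2)`.
(2) `V` is finite, so there are `i < j` with `w i = w j`; let `m ≥ 1` be the least number such that
`Twin (w i) (w (i+m))` for some `i`.  `m ≠ 1` (`S` excludes twins), `m ≠ 2` by construction; so `m ≥ 3`.
(3) If `Twin (w i) (w (i+m))` then `Twin (w (i+1)) (w (i+m+1))`: `w (i+1)` is an `S`-neighbour of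
`w (i+m)` (`S_twin`), so by (*) it is a twin of `w (i+m-1)` or of `w (i+m+1)`; the first contradicts the
minimality of `m` (`m - 2 ≥ 1`).  If moreover `i ≥ 1` then `Twin (w (i-1)) (w (i+m-1))`:
`w (i+m-1)` is an `S`-neighbour of `w i`, so a twin of `w (i-1)` or of `w (i+1)`; the latter
contradicts minimality.  So `Twin (w t) (w (t+m))` for all `t : ℕ`.
(4) For all `a b : ℕ`: `Twin (w a) (w b) ↔ (a : ZMod m) = b`.  (← by (3); → reduce modulo `m` to
`0 ≤ a, b < m`, then minimality.)
(5) Every `x` is a twin of some `w t`: the set of such `x` is closed under `S` (if `Twin x (w t)` replace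
`t` by `t + m ≥ 1`; then `S x y` gives `Twin y (w (t-1))` or `Twin y (w (t+1))` by (*)), contains `w 0`
and `Reach (w 0) x` (induction on `k` in `T k (w 0) x`).
(6) Put `c x = (t : ZMod m)` for any `t` with `Twin x (w t)`.  By (4) it is well defined, surjective
(`ZMod m` is the set of casts of naturals, `m ≥ 3`), and `c x = c y ↔ Twin x y`.  `S x y` iff
`c y = c x ± 1` by (*) and `S (w t) (w (t+1))` (`S_twin`, `S_symm`).
-/

namespace PCA38

section
variable {V : Type} {G : SimpleGraph V}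

private theorem ts {x y : V} (h : Twin G x y) : Twin G y x := Eq.symm h

private theorem tt {x y z : V} (h : Twin G x y) (h' : Twin G y z) : Twin G x z := Eq.trans h h'

private theorem two_nb (h2 : AtMostTwo G) (h3 : ∀ x, ¬ IsEnd G x) {x p : V} (hp : S G x p) :
    ∃ q, S G x q ∧ ¬ Twin G p q ∧ ∀ z, S G x z → Twin G p z ∨ Twin G q z := by
  have h4 := h3 x
  unfold IsEnd at h4
  push Not at h4
  obtain ⟨y, z, hy, hz, hyz⟩ := h4
  obtain ⟨q, hq, hpq⟩ : ∃ q, S G x q ∧ ¬ Twin G p q := by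
    by_cases h5 : Twin G p y
    · exact ⟨z, hz, fun h6 => hyz (tt (ts h5) h6)⟩
    · exact ⟨y, hy, h5⟩
  refine ⟨q, hq, hpq, fun z hz => ?_⟩
  rcases h2 x p q z hp hq hz with h5 | h5 | h5
  · exact absurd h5 hpq
  · exact Or.inl h5
  · exact Or.inr h5

private theorem walk (h2 : AtMostTwo G) (h3 : ∀ x, ¬ IsEnd G x) {x₀ x₁ : V} (h : S G x₀ x₁) :
    ∃ w : ℕ → V, w 0 = x₀ ∧ (∀ t, S G (w t) (w (t + 1))) ∧ (∀ t, ¬ Twin G (w t) (w (t + 2))) ∧
      ∀ t z, S G (w (t + 1)) z → Twin G (w t) z ∨ Twin G (w (t + 2)) z := by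
  have h4 : ∀ p : {p : V × V // S G p.1 p.2}, ∃ q, S G p.1.2 q ∧ ¬ Twin G p.1.1 q ∧
      ∀ z, S G p.1.2 z → Twin G p.1.1 z ∨ Twin G q z := fun p => two_nb h2 h3 (S_symm p.2)
  choose F hF using h4
  let P : ℕ → {p : V × V // S G p.1 p.2} := fun n =>
    Nat.rec ⟨(x₀, x₁), h⟩ (fun _ p => ⟨(p.1.2, F p), (hF p).1⟩) n
  refine ⟨fun n => (P n).1.1, rfl, fun t => (P t).2, fun t => (hF (P t)).2.1,
    fun t z hz => (hF (P t)).2.2 z hz⟩

variable {w : ℕ → V} {m : ℕ}

private theorem step_up (hm : 3 ≤ m) (hS : ∀ t, S G (w t) (w (t + 1)))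
    (hW : ∀ t z, S G (w (t + 1)) z → Twin G (w t) z ∨ Twin G (w (t + 2)) z)
    (hmin : ∀ i, ¬ Twin G (w i) (w (i + (m - 2)))) {i : ℕ} (h : Twin G (w i) (w (i + m))) :
    Twin G (w (i + 1)) (w (i + 1 + m)) := by
  have h1 : S G (w (i + m - 1 + 1)) (w (i + 1)) := by
    rw [show i + m - 1 + 1 = i + m by omega]
    exact S_twin (hS i) h rfl
  rcases hW _ _ h1 with h2 | h2
  · exfalso
    apply hmin (i + 1)
    rw [show i + 1 + (m - 2) = i + m - 1 by omega]
    exact ts h2
  · rw [show i + m - 1 + 2 = i + 1 + m by omega] at h2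
    exact ts h2

private theorem step_down (hm : 3 ≤ m) (hS : ∀ t, S G (w t) (w (t + 1)))
    (hW : ∀ t z, S G (w (t + 1)) z → Twin G (w t) z ∨ Twin G (w (t + 2)) z)
    (hmin : ∀ i, ¬ Twin G (w i) (w (i + (m - 2)))) {i : ℕ}
    (h : Twin G (w (i + 1)) (w (i + 1 + m))) : Twin G (w i) (w (i + m)) := by
  have h1 : S G (w (i + 1)) (w (i + m)) := by
    refine S_twin (S_symm (hS (i + m))) ?_ rfl
    rw [show i + m + 1 = i + 1 + m by omega]
    exact ts h
  rcases hW _ _ h1 with h2 | h2
  · exact h2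
  · exfalso
    apply hmin (i + 2)
    rw [show i + 2 + (m - 2) = i + m by omega]
    exact h2

private theorem per_all (hm : 3 ≤ m) (hS : ∀ t, S G (w t) (w (t + 1)))
    (hW : ∀ t z, S G (w (t + 1)) z → Twin G (w t) z ∨ Twin G (w (t + 2)) z)
    (hmin : ∀ i, ¬ Twin G (w i) (w (i + (m - 2)))) {i : ℕ} (h : Twin G (w i) (w (i + m)))
    (t : ℕ) : Twin G (w t) (w (t + m)) := by
  have h0 : Twin G (w 0) (w (0 + m)) := by
    induction i with
    | zero => exact h
    | succ i ih => exact ih (step_down hm hS hW hmin h)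
  induction t with
  | zero => exact h0
  | succ t ih => exact step_up hm hS hW hmin ih

private theorem per_mul (hp : ∀ t, Twin G (w t) (w (t + m))) (t k : ℕ) :
    Twin G (w t) (w (t + m * k)) := by
  induction k with
  | zero => rw [mul_zero, add_zero]; rfl
  | succ k ih =>
    rw [Nat.mul_succ, ← add_assoc]
    exact tt ih (hp _)

private theorem per_mod (hp : ∀ t, Twin G (w t) (w (t + m))) (t : ℕ) :
    Twin G (w (t % m)) (w t) := by
  have h1 := per_mul hp (t % m) (t / m)
  rwa [Nat.mod_add_div] at h1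

private theorem twin_iff (hm : 3 ≤ m) (hp : ∀ t, Twin G (w t) (w (t + m)))
    (hmin : ∀ k, 1 ≤ k → k < m → ∀ i, ¬ Twin G (w i) (w (i + k))) (a b : ℕ) :
    Twin G (w a) (w b) ↔ (a : ZMod m) = b := by
  rw [ZMod.natCast_eq_natCast_iff]
  constructor
  · intro h
    have h1 : Twin G (w (a % m)) (w (b % m)) := tt (per_mod hp a) (tt h (ts (per_mod hp b)))
    have ha : a % m < m := Nat.mod_lt _ (by omega)
    have hb : b % m < m := Nat.mod_lt _ (by omega)
    show a % m = b % m
    rcases Nat.lt_trichotomy (a % m) (b % m) with h2 | h2 | h2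
    · exfalso
      apply hmin (b % m - a % m) (by omega) (by omega) (a % m)
      rw [show a % m + (b % m - a % m) = b % m by omega]
      exact h1
    · exact h2
    · exfalso
      apply hmin (a % m - b % m) (by omega) (by omega) (b % m)
      rw [show b % m + (a % m - b % m) = a % m by omega]
      exact ts h1
  · intro h
    have h2 : a % m = b % m := h
    have h3 := per_mod hp a
    rw [h2] at h3
    exact tt (ts h3) (per_mod hp b)

end

theorem cyc_label {V : Type} [Finite V] [Nonempty V] (G : SimpleGraph V) (h2 : AtMostTwo G)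
    (hr : ∀ x y, Reach G x y) (h3 : ∀ x, ¬ IsEnd G x) :
    ∃ (m : ℕ) (_ : 3 ≤ m) (c : V → ZMod m), Function.Surjective c ∧
      (∀ x y, c x = c y ↔ Twin G x y) ∧
      (∀ x y, S G x y ↔ (c y = c x + 1 ∨ c y = c x - 1)) := by
  classical
  obtain ⟨x₀⟩ := (inferInstance : Nonempty V)
  obtain ⟨x₁, hx⟩ : ∃ x₁, S G x₀ x₁ := by
    have h4 := h3 x₀
    unfold IsEnd at h4
    push Not at h4
    obtain ⟨y, -, hy, -⟩ := h4
    exact ⟨y, hy⟩
  obtain ⟨w, -, hS, hN, hW⟩ := walk h2 h3 hx
  have hex : ∃ m, 1 ≤ m ∧ ∃ i, Twin G (w i) (w (i + m)) := by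
    obtain ⟨a, b, hab, he⟩ := Finite.exists_ne_map_eq_of_infinite w
    rcases Nat.lt_or_gt_of_ne hab with h4 | h4
    · refine ⟨b - a, by omega, a, ?_⟩
      rw [show a + (b - a) = b by omega, he]
      rfl
    · refine ⟨a - b, by omega, b, ?_⟩
      rw [show b + (a - b) = a by omega, he]
      rfl
  obtain ⟨m, ⟨hm1, i, hi⟩, hmin0⟩ : ∃ m, (1 ≤ m ∧ ∃ i, Twin G (w i) (w (i + m))) ∧
      ∀ k < m, ¬ (1 ≤ k ∧ ∃ i, Twin G (w i) (w (i + k))) :=
    ⟨Nat.find hex, Nat.find_spec hex, fun k hk => Nat.find_min hex hk⟩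
  have hm : 3 ≤ m := by
    rcases (by omega : m = 1 ∨ m = 2 ∨ 3 ≤ m) with h4 | h4 | h4
    · rw [h4] at hi
      exact absurd hi (hS i).2.2.1
    · rw [h4] at hi
      exact absurd hi (hN i)
    · exact h4
  have hmin : ∀ k, 1 ≤ k → k < m → ∀ i, ¬ Twin G (w i) (w (i + k)) := fun k h4 h5 i h6 =>
    hmin0 k h5 ⟨h4, i, h6⟩
  have hp := per_all hm hS hW (hmin (m - 2) (by omega) (by omega)) hi
  have hiff := twin_iff hm hp hmin
  -- every vertex is a twin of some w t
  have hall : ∀ x, ∃ t, Twin G x (w t) := by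
    intro x
    obtain ⟨k, hk⟩ := hr (w 0) x
    induction k generalizing x with
    | zero => exact ⟨0, ts hk⟩
    | succ k ih =>
      obtain ⟨z, hz, hzx⟩ := hk
      obtain ⟨t, ht⟩ := ih z hz
      have h4 : S G (w (t + m - 1 + 1)) x := by
        rw [show t + m - 1 + 1 = t + m by omega]
        exact S_twin hzx (tt ht (hp t)) rfl
      rcases hW _ _ h4 with h5 | h5
      · exact ⟨_, ts h5⟩
      · exact ⟨_, ts h5⟩
  choose t ht using hall
  have hne : NeZero m := ⟨by omega⟩
  have hcs : ∀ x y, (t x : ZMod m) = (t y : ZMod m) ↔ Twin G x y := by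
    intro x y
    rw [← hiff]
    exact ⟨fun h => tt (ht x) (tt h (ts (ht y))), fun h => tt (ts (ht x)) (tt h (ht y))⟩
  refine ⟨m, hm, fun x => (t x : ZMod m), ?_, hcs, ?_⟩
  · intro j
    refine ⟨w j.val, ?_⟩
    have h4 := (hiff _ _).1 (ht (w j.val))
    show ((t (w j.val) : ℕ) : ZMod m) = j
    rw [← h4, ZMod.natCast_zmod_val]
  · have hfwd : ∀ x y, (t y : ZMod m) = (t x : ZMod m) + 1 → S G x y := by
      intro x y h4
      have h5 : Twin G (w (t x + 1)) (w (t y)) := by
        rw [hiff, h4, Nat.cast_succ]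
      exact S_twin (hS (t x)) (ts (ht x)) (tt h5 (ts (ht y)))
    intro x y
    constructor
    · intro h4
      have h5 : S G (w (t x + m - 1 + 1)) y := by
        rw [show t x + m - 1 + 1 = t x + m by omega]
        exact S_twin h4 (tt (ht x) (hp _)) rfl
      have h7 : ((t x + m - 1 : ℕ) : ZMod m) + 1 = (t x : ZMod m) := by
        have h8 : ((t x + m - 1 + 1 : ℕ) : ZMod m) = ((t x + m : ℕ) : ZMod m) := by
          rw [show t x + m - 1 + 1 = t x + m by omega]
        rw [Nat.cast_succ, Nat.cast_add, ZMod.natCast_self, add_zero] at h8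
        exact h8
      rcases hW _ _ h5 with h6 | h6
      · right
        have h8 := (hiff _ _).1 (tt h6 (ht y))
        show (t y : ZMod m) = (t x : ZMod m) - 1
        rw [← h8, ← h7]
        ring
      · left
        have h8 := (hiff _ _).1 (tt h6 (ht y))
        show (t y : ZMod m) = (t x : ZMod m) + 1
        rw [← h8, ← h7, Nat.cast_add]
        push_cast
        ring
    · rintro (h4 | h4)
      · exact hfwd x y h4
      · refine S_symm (hfwd y x ?_)
        have h5 : (t y : ZMod m) = (t x : ZMod m) - 1 := h4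
        rw [h5]
        ring

end PCA38
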