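import Pool.Agent.Work.MP_38bec5_lc.P.TRel

set_option autoImplicit false

/-!
# CycB (size S-M): walks in a labelled cycle; an arithmetic lemma.

* `cyc_T`: induction on `k`.  `k = 0`: `Twin x y ↔ c y = c x`.  Step: `T (k+1) x y ↔ ∃ z, T k x z ∧ S z y`;
  with `c z = c x + k - 2 j` and `c y = c z + 1` (same `j`) or `c y = c z - 1` (`j + 1`).  Conversely, given
  `j ≤ k + 1` with `c y = c x + (k+1) - 2 j`: if `j ≤ k` take `z` with label `c x + k - 2 j`, otherwise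
  `j = k + 1` and `z` with label `c x + k - 2 k` (surjectivity of `c`).
* `cyc_arith`: let `P k δ` be `∃ j ≤ k, δ = k - 2 j`.  Some `k` satisfies `P k δ` (`k = δ.val`, `j = 0`).
  Let `k` be least with `P k δ`; then `δ = k` or `δ = -k`: if `0 < j < k` then
  `δ = (k-2) - 2 (j-1)`, `j - 1 ≤ k - 2`, contradicting minimality; `j = 0` and `j = k` give `δ = k`, `δ = -k`.
  By `h0` the same `k` is least for `ε`, so `ε = ± k`, hence `δ = ε` or `δ = -ε`.  In the same way `h1`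
  gives `δ - 1 = ε - 1` or `δ - 1 = -(ε - 1)`.  If `δ ≠ ε` then `δ + ε = 0` and `δ + ε = 2`, so `2 = 0` in
  `ZMod m`, impossible for `m ≥ 3`.
-/

namespace PCA38

theorem cyc_T {V : Type} {G : SimpleGraph V} {m : ℕ} (c : V → ZMod m)
    (hs : Function.Surjective c) (ht : ∀ x y, c x = c y ↔ Twin G x y)
    (hS : ∀ x y, S G x y ↔ (c y = c x + 1 ∨ c y = c x - 1)) (k : ℕ) (x y : V) :
    T G k x y ↔ ∃ j : ℕ, j ≤ k ∧ c y - c x = (k : ZMod m) - 2 * (j : ZMod m) := by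
  induction k generalizing y with
  | zero =>
    constructor
    · intro h
      have h1 : c x = c y := (ht x y).2 h
      exact ⟨0, le_rfl, by rw [h1]; simp⟩
    · rintro ⟨j, hj, h⟩
      have hj0 : j = 0 := by omega
      rw [hj0] at h
      refine (ht x y).1 ?_
      have h1 : c y - c x = 0 := by rw [h]; simp
      exact (sub_eq_zero.1 h1).symm
  | succ k ih =>
    constructor
    · rintro ⟨z, hz, hzy⟩
      obtain ⟨j, hj, h⟩ := (ih z).1 hz
      rcases (hS z y).1 hzy with h1 | h1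
      · refine ⟨j, by omega, ?_⟩
        rw [h1, Nat.cast_succ]
        linear_combination h
      · refine ⟨j + 1, by omega, ?_⟩
        rw [h1, Nat.cast_succ, Nat.cast_succ]
        linear_combination h
    · rintro ⟨j, hj, h⟩
      rw [Nat.cast_succ] at h
      rcases Nat.lt_or_ge k j with h1 | h1
      · have hj1 : j = k + 1 := by omega
        rw [hj1, Nat.cast_succ] at h
        obtain ⟨z, hz⟩ := hs (c x + (k : ZMod m) - 2 * (k : ZMod m))
        refine ⟨z, (ih z).2 ⟨k, le_rfl, by rw [hz]; ring⟩, (hS z y).2 (Or.inr ?_)⟩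
        rw [hz]
        linear_combination h
      · obtain ⟨z, hz⟩ := hs (c x + (k : ZMod m) - 2 * (j : ZMod m))
        refine ⟨z, (ih z).2 ⟨j, h1, by rw [hz]; ring⟩, (hS z y).2 (Or.inl ?_)⟩
        rw [hz]
        linear_combination h

private theorem cyc_least {m : ℕ} [NeZero m] (δ : ZMod m) :
    ∃ k : ℕ, (∃ j : ℕ, j ≤ k ∧ δ = (k : ZMod m) - 2 * (j : ZMod m)) ∧
      ∀ i < k, ¬ ∃ j : ℕ, j ≤ i ∧ δ = (i : ZMod m) - 2 * (j : ZMod m) := by
  classical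
  have hex : ∃ k : ℕ, ∃ j : ℕ, j ≤ k ∧ δ = (k : ZMod m) - 2 * (j : ZMod m) := by
    refine ⟨δ.val, 0, Nat.zero_le _, ?_⟩
    rw [ZMod.natCast_zmod_val]
    simp
  exact ⟨Nat.find hex, Nat.find_spec hex, fun i hi => Nat.find_min hex hi⟩

private theorem cyc_pm {m : ℕ} {δ : ZMod m} {k : ℕ}
    (h : ∃ j : ℕ, j ≤ k ∧ δ = (k : ZMod m) - 2 * (j : ZMod m))
    (hmin : ∀ i < k, ¬ ∃ j : ℕ, j ≤ i ∧ δ = (i : ZMod m) - 2 * (j : ZMod m)) :
    δ = k ∨ δ = -(k : ZMod m) := by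
  obtain ⟨j, hj, h⟩ := h
  rcases Nat.eq_zero_or_pos j with h0 | h0
  · left
    rw [h, h0]
    simp
  · rcases Nat.lt_or_ge j k with h1 | h1
    · exfalso
      obtain ⟨i, rfl⟩ : ∃ i, k = i + 2 := ⟨k - 2, by omega⟩
      obtain ⟨l, rfl⟩ : ∃ l, j = l + 1 := ⟨j - 1, by omega⟩
      refine hmin i (by omega) ⟨l, by omega, ?_⟩
      rw [h]
      push_cast
      ring
    · right
      have hjk : j = k := by omega
      rw [h, hjk]
      ring

private theorem cyc_eq {m : ℕ} [NeZero m] (δ ε : ZMod m)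
    (h0 : ∀ k : ℕ, (∃ j : ℕ, j ≤ k ∧ δ = (k : ZMod m) - 2 * (j : ZMod m)) ↔
      (∃ j : ℕ, j ≤ k ∧ ε = (k : ZMod m) - 2 * (j : ZMod m))) : δ = ε ∨ δ = -ε := by
  obtain ⟨k, h1, h2⟩ := cyc_least δ
  have h3 := cyc_pm h1 h2
  have h4 := cyc_pm ((h0 k).1 h1) (fun i hi h5 => h2 i hi ((h0 i).2 h5))
  rcases h3 with h3 | h3 <;> rcases h4 with h4 | h4
  · left; rw [h3, h4]
  · right; rw [h3, h4, neg_neg]
  · right; rw [h3, h4]
  · left; rw [h3, h4]

theorem cyc_arith {m : ℕ} (hm : 3 ≤ m) (δ ε : ZMod m)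
    (h0 : ∀ k : ℕ, (∃ j : ℕ, j ≤ k ∧ δ = (k : ZMod m) - 2 * (j : ZMod m)) ↔
      (∃ j : ℕ, j ≤ k ∧ ε = (k : ZMod m) - 2 * (j : ZMod m)))
    (h1 : ∀ k : ℕ, (∃ j : ℕ, j ≤ k ∧ δ - 1 = (k : ZMod m) - 2 * (j : ZMod m)) ↔
      (∃ j : ℕ, j ≤ k ∧ ε - 1 = (k : ZMod m) - 2 * (j : ZMod m))) :
    δ = ε := by
  have : NeZero m := ⟨by omega⟩
  by_contra hne
  rcases cyc_eq δ ε h0 with h2 | h2
  · exact hne h2
  rcases cyc_eq _ _ h1 with h3 | h3
  · exact hne (sub_left_inj.1 h3)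
  have h4 : ((2 : ℕ) : ZMod m) = 0 := by
    push_cast
    linear_combination h2 - h3
  rw [ZMod.natCast_eq_zero_iff] at h4
  have := Nat.le_of_dvd (by norm_num) h4
  omega

end PCA38
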