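import Pool.Agent.Work.MP_38bec5_lc.P.Defs

set_option autoImplicit false

/-!
# TRel (size S-M): formal properties of `S`, `T`, `Reach`.

* `S_symm`: all conditions are symmetric (`symmDiff_comm`; the last one: apply it to `w` with the two
  summands exchanged).
* `S_twin`: everything except adjacency depends only on `nb`.  Adjacency: `y ∈ nb x = nb x₂`, so
  `y = x₂` (excluded: then `x₂ ∈ nb y₂`... see below) or `Adj x₂ y`; in both cases `x₂ ∈ nb y = nb y₂`,
  so `x₂ = y₂` or `Adj y₂ x₂`; `x₂ = y₂` is impossible since then `nb x = nb x₂ = nb y₂ = nb y`, i.e.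
  `Twin x y`.
* `T_twin`: induction on `k` (for `k+1` only the last step changes: `S z y → S z y₂`, and the
  induction hypothesis for `x`).
* `T_cons` (`S y z → T k z x → T (k+1) y x`) by induction on `k`; then `T_symm` by induction.
* `T_add` by induction on `b`.
* `reach_equiv` from these (`T 0 x x`).
-/

namespace PCA38

variable {V : Type} {G : SimpleGraph V}

private theorem nb_comm {x y : V} (h : y ∈ nb G x) : x ∈ nb G y := by
  rcases h with h | h
  · exact Or.inl h.symm
  · exact Or.inr h.symm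

private theorem dd_comm (x y : V) : dd G x y = dd G y x := by
  unfold dd
  rw [symmDiff_comm]

private theorem dd_congr {x y x₂ y₂ : V} (hx : Twin G x x₂) (hy : Twin G y y₂) :
    dd G x y = dd G x₂ y₂ := by
  unfold dd
  rw [show nb G x = nb G x₂ from hx, show nb G y = nb G y₂ from hy]

theorem S_symm {x y : V} (h : S G x y) : S G y x := by
  obtain ⟨h1, ⟨z, hz1, hz2⟩, h3, h4⟩ := h
  refine ⟨h1.symm, ⟨z, hz2, hz1⟩, fun h => h3 (Eq.symm h), fun w hw => ?_⟩
  rcases h4 w (by rw [dd_comm x w, dd_comm w y, add_comm, hw, dd_comm y x]) with h5 | h5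
  · exact Or.inr (Eq.symm h5)
  · exact Or.inl (Eq.symm h5)

theorem S_twin {x y x₂ y₂ : V} (h : S G x y) (hx : Twin G x x₂) (hy : Twin G y y₂) :
    S G x₂ y₂ := by
  obtain ⟨h1, ⟨z, hz1, hz2⟩, h3, h4⟩ := h
  have ex : nb G x = nb G x₂ := hx
  have ey : nb G y = nb G y₂ := hy
  have a1 : y ∈ nb G x₂ := by
    rw [← ex]
    exact Or.inr h1
  have a2 : x₂ ∈ nb G y₂ := by
    rw [← ey]
    exact nb_comm a1
  refine ⟨?_, ⟨z, by rw [← ex]; exact hz1, by rw [← ey]; exact hz2⟩, fun h5 => h3 ?_, fun w hw => ?_⟩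
  · rcases a2 with h5 | h5
    · exfalso
      apply h3
      show nb G x = nb G y
      rw [ex, ey, h5]
    · exact h5.symm
  · exact (ex.trans h5).trans ey.symm
  · rcases h4 w (by
      rw [dd_congr hx (rfl : Twin G w w), dd_congr (rfl : Twin G w w) hy, hw, dd_congr hx hy]) with
      h5 | h5
    · exact Or.inl (hx.symm.trans h5)
    · exact Or.inr (Eq.trans h5 hy)

theorem T_twin {k : ℕ} {x y x₂ y₂ : V} (h : T G k x y) (hx : Twin G x x₂) (hy : Twin G y y₂) :
    T G k x₂ y₂ := by
  induction k generalizing y y₂ with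
  | zero => exact (Eq.trans (Eq.symm hx) (Eq.trans h hy) : nb G x₂ = nb G y₂)
  | succ k ih =>
    obtain ⟨z, hz, hzy⟩ := h
    exact ⟨z, ih hz rfl, S_twin hzy rfl hy⟩

private theorem T_cons {k : ℕ} {x y z : V} (h : S G y z) (h' : T G k z x) : T G (k + 1) y x := by
  induction k generalizing x with
  | zero => exact ⟨y, rfl, S_twin h rfl h'⟩
  | succ k ih =>
    obtain ⟨u, hu, hux⟩ := h'
    exact ⟨u, ih hu, hux⟩

theorem T_symm {k : ℕ} {x y : V} (h : T G k x y) : T G k y x := by
  induction k generalizing y with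
  | zero => exact Eq.symm h
  | succ k ih =>
    obtain ⟨z, hz, hzy⟩ := h
    exact T_cons (S_symm hzy) (ih hz)

theorem T_add {a b : ℕ} {x y z : V} (h : T G a x y) (h' : T G b y z) : T G (a + b) x z := by
  induction b generalizing z with
  | zero => exact T_twin h rfl h'
  | succ b ih =>
    obtain ⟨u, hu, huz⟩ := h'
    exact ⟨u, ih hu, huz⟩

theorem reach_equiv : Equivalence (Reach G) := by
  refine ⟨fun x => ⟨0, rfl⟩, fun h => ?_, fun h h' => ?_⟩
  · obtain ⟨k, hk⟩ := h
    exact ⟨k, T_symm hk⟩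
  · obtain ⟨a, ha⟩ := h
    obtain ⟨b, hb⟩ := h'
    exact ⟨a + b, T_add ha hb⟩

end PCA38
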