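import Pool.Agent.Work.MP_38bec5_lc.P.Inv
import Pool.Agent.Work.MP_38bec5_lc.P.TRel

set_option autoImplicit false

/-!
# CycC (size M): transfer of the cycle property, and the number of classes.

* `cyc_transfer`.  `Reach H`: for `a, b` choose `x, y` with `E x y a b` (`bis_surj`), `Reach G x y`, `bis_T`.
  Two non-twin neighbours of `a`: choose `x` with `E x x a a` (`bis_surj`, `bis_diag`); `¬ IsEnd x` gives
  `y, z` with `S x y`, `S x z`, `¬ Twin y z`; `ext` for `E x x a a` gives `y'` with `E x y a y'`; `ext` for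
  `E x y a y'` gives `z'` with `E x z a z'` and `E z y z' y'`; so `S a y'`, `S a z'`, `¬ Twin y' z'`.
  `AtMostTwo H`: let `S a b₁`, `S a b₂`, `S a b₃` be given in `H`, suppose `¬ Twin b₁ b₂`.  Choose `x, y₁`
  with `E x y₁ a b₁`, and (`bis_tri'`) `y₂` with `E x y₂ a b₂`, `E y₂ y₁ b₂ b₁`.  Then `S x y₁`, `S x y₂`,
  `¬ Twin y₁ y₂`, and `AtMostTwo G` gives `{z | S x z} = {z | Twin y₁ z} ∪ {z | Twin y₂ z}`, a disjoint
  union (`S_twin` for the inclusion `⊇`).  In `H`: `{z | S a z} ⊇ {z | Twin b₁ z} ∪ {z | Twin b₂ z}`, a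
  disjoint union.  The cardinalities agree (`bis_S_card` for `E x x a a`, `bis_twin_card` for
  `E y₁ y₁ b₁ b₁`, `E y₂ y₂ b₂ b₂`), so the inclusion in `H` is an equality (finite sets), and `b₃` is a
  twin of `b₁` or of `b₂`.
* `class_count`: with `f` from `start`, `{z | Twin G x z}.ncard = {z | Twin H (f x) z}.ncard` for all `x`
  (`bis_twin_card`).  Sum `1 / ncard` over all vertices (rationals): over `V` it is the number of
  classes, i.e. `m` (group the sum by the value of `c`; the fibre of `c` over `c x` is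
  `{z | Twin G x z}`; `c` is surjective onto `ZMod m`, which has `m` elements), and over `W` it is `m'`.
-/

namespace PCA38

variable {V W : Type} {G : SimpleGraph V} {H : SimpleGraph W} {E : V → V → W → W → Prop}

private theorem cc_twin_symm {V : Type} {G : SimpleGraph V} {x y : V} (h : Twin G x y) :
    Twin G y x := Eq.symm h

private theorem cc_S_twin {V : Type} {G : SimpleGraph V} {x y z : V} (h : S G x y)
    (h' : Twin G y z) : S G x z := S_twin h rfl h'

theorem cyc_transfer [Finite V] [Finite W] (hE : Bis G H E) (h2 : AtMostTwo G)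
    (hr : ∀ x y, Reach G x y) (h3 : ∀ x, ¬ IsEnd G x) :
    AtMostTwo H ∧ (∀ x y, Reach H x y) ∧ ∀ x, ¬ IsEnd H x := by
  refine ⟨?_, ?_, ?_⟩
  · intro a b₁ b₂ b₃ s1 s2 s3
    by_contra hcon
    push Not at hcon
    obtain ⟨n12, n13, n23⟩ := hcon
    obtain ⟨x, y₁, h1⟩ := bis_surj hE a b₁
    obtain ⟨y₂, h4, h5⟩ := bis_tri' hE h1 b₂
    obtain ⟨hxx, hyy1⟩ := bis_diag hE h1
    obtain ⟨hyy2, -⟩ := bis_diag hE h5
    have t1 : S G x y₁ := (bis_S hE h1).2 s1
    have t2 : S G x y₂ := (bis_S hE h4).2 s2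
    have m12 : ¬ Twin G y₁ y₂ := fun h => n12 (cc_twin_symm ((bis_twin hE h5).1 (cc_twin_symm h)))
    have hG : {z | S G x z} = {z | Twin G y₁ z} ∪ {z | Twin G y₂ z} := by
      ext z
      constructor
      · intro hz
        rcases h2 x y₁ y₂ z t1 t2 hz with h | h | h
        · exact absurd h m12
        · exact Or.inl h
        · exact Or.inr h
      · rintro (h | h)
        · exact cc_S_twin t1 h
        · exact cc_S_twin t2 h
    have hGd : Disjoint {z | Twin G y₁ z} {z | Twin G y₂ z} := by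
      rw [Set.disjoint_left]
      intro z hz1 hz2
      exact m12 (Eq.trans hz1 (Eq.symm hz2))
    have hHd : Disjoint {z | Twin H b₁ z} {z | Twin H b₂ z} := by
      rw [Set.disjoint_left]
      intro z hz1 hz2
      exact n12 (Eq.trans hz1 (Eq.symm hz2))
    have c1 : {z | S G x z}.ncard = {z | Twin G y₁ z}.ncard + {z | Twin G y₂ z}.ncard := by
      rw [hG, Set.ncard_union_eq hGd (Set.toFinite _) (Set.toFinite _)]
    have c2 : ({z | Twin H b₁ z} ∪ {z | Twin H b₂ z}).ncard =
        {z | Twin H b₁ z}.ncard + {z | Twin H b₂ z}.ncard :=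
      Set.ncard_union_eq hHd (Set.toFinite _) (Set.toFinite _)
    have c3 : ({z | Twin H b₁ z} ∪ {z | Twin H b₂ z}).ncard < {z | S H a z}.ncard := by
      refine Set.ncard_lt_ncard ⟨?_, ?_⟩ (Set.toFinite _)
      · rintro z (h | h)
        · exact cc_S_twin s1 h
        · exact cc_S_twin s2 h
      · intro hsub
        rcases hsub (show b₃ ∈ {z | S H a z} from s3) with h | h
        · exact n13 h
        · exact n23 h
    rw [c2, ← bis_S_card hE hxx, c1, bis_twin_card hE hyy1, bis_twin_card hE hyy2] at c3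
    exact lt_irrefl _ c3
  · intro a b
    obtain ⟨x, y, h⟩ := bis_surj hE a b
    obtain ⟨k, hk⟩ := hr x y
    exact ⟨k, (bis_T hE k h).1 hk⟩
  · intro a hend
    obtain ⟨x, y0, h0⟩ := bis_surj hE a a
    obtain ⟨hxx, -⟩ := bis_diag hE h0
    refine h3 x fun y z hy hz => ?_
    obtain ⟨f, hf⟩ := hE.ext _ _ _ _ hxx
    obtain ⟨g, hg⟩ := hE.ext _ _ _ _ (hf y).1
    have e1 : S H a (f y) := (bis_S hE (hf y).1).1 hy
    have e2 : S H a (g z) := (bis_S hE (hg z).1).1 hz
    exact cc_twin_symm ((bis_twin hE (hg z).2).2 (hend _ _ e2 e1))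

private theorem cc_sum {V : Type} [Fintype V] {m : ℕ} [NeZero m] (c : V → ZMod m)
    (hs : Function.Surjective c) :
    ∑ x : V, (1 / (({z | c x = c z} : Set V).ncard : ℚ)) = (m : ℚ) := by
  classical
  rw [← Finset.sum_fiberwise Finset.univ c]
  have h1 : ∀ j : ZMod m, ∑ x ∈ Finset.univ.filter (fun x => c x = j),
      (1 / (({z | c x = c z} : Set V).ncard : ℚ)) = 1 := by
    intro j
    have h2 : ∀ x ∈ Finset.univ.filter (fun x => c x = j),
        (1 / (({z | c x = c z} : Set V).ncard : ℚ)) =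
          1 / ((Finset.univ.filter (fun x => c x = j)).card : ℚ) := by
      intro x hx
      have hx2 : c x = j := (Finset.mem_filter.1 hx).2
      have h3 : ({z | c x = c z} : Set V) = ((Finset.univ.filter (fun x => c x = j) : Finset V) : Set V) := by
        ext z
        rw [Finset.mem_coe, Finset.mem_filter, Set.mem_setOf_eq, hx2]
        exact ⟨fun h => ⟨Finset.mem_univ _, h.symm⟩, fun h => h.2.symm⟩
      rw [h3, Set.ncard_coe_finset]
    rw [Finset.sum_congr rfl h2, Finset.sum_const, nsmul_eq_mul]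
    have h4 : ((Finset.univ.filter (fun x => c x = j)).card : ℚ) ≠ 0 := by
      obtain ⟨x, hx⟩ := hs j
      have : 0 < (Finset.univ.filter (fun x => c x = j)).card :=
        Finset.card_pos.2 ⟨x, Finset.mem_filter.2 ⟨Finset.mem_univ _, hx⟩⟩
      positivity
    exact mul_one_div_cancel h4
  rw [Finset.sum_congr rfl (fun j _ => h1 j), Finset.sum_const, Finset.card_univ, ZMod.card,
    nsmul_eq_mul, mul_one]

theorem class_count [Finite V] [Finite W] (hE : Bis G H E) {m m' : ℕ} (hm : 3 ≤ m) (hm' : 3 ≤ m')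
    (c : V → ZMod m) (c' : W → ZMod m') (hs : Function.Surjective c)
    (hs' : Function.Surjective c') (ht : ∀ x y, c x = c y ↔ Twin G x y)
    (ht' : ∀ x y, c' x = c' y ↔ Twin H x y) : m = m' := by
  classical
  have : NeZero m := ⟨by omega⟩
  have : NeZero m' := ⟨by omega⟩
  have : Fintype V := Fintype.ofFinite V
  have : Fintype W := Fintype.ofFinite W
  obtain ⟨f, hf⟩ := hE.start
  have h1 := cc_sum c hs
  have h2 := cc_sum c' hs'
  rw [← Equiv.sum_comp f] at h2
  have h3 : ∀ x : V, ({z | c x = c z} : Set V).ncard = ({z | c' (f x) = c' z} : Set W).ncard := by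
    intro x
    have e1 : ({z | c x = c z} : Set V) = {z | Twin G x z} := Set.ext fun z => ht x z
    have e2 : ({z | c' (f x) = c' z} : Set W) = {z | Twin H (f x) z} := Set.ext fun z => ht' _ z
    rw [e1, e2]
    exact bis_twin_card hE (hf x)
  have h4 : ((m : ℕ) : ℚ) = (m' : ℕ) := by
    rw [← h1, ← h2]
    exact Finset.sum_congr rfl fun x _ => by rw [h3 x]
  exact_mod_cast h4

end PCA38
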