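import Pool.Agent.Work.MP_38bec5_lc.P.Defs

set_option autoImplicit false

/-!
# UniB (size M): two assembly lemmas.

(a) `iso_of_components`: if a bijection `f : V ≃ W` maps every vertex `x` to a vertex whose connected
component is isomorphic to the component of `x`, then `G ≃g H`.
PROOF.  For components `c` of `G` and `c'` of `H` write `c ~ c'` if `G.induce c.supp ≃g H.induce c'.supp`
(and similarly for two components of `G`, or of `H`).  For a component `c₀` (of `G` or `H`) with `m > 0`
vertices, the number of vertices `x` of `G` with `comp x ~ c₀` equals `m` times the number of components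
`c` of `G` with `c ~ c₀`; the same for `H`; and `f` maps the former vertices bijectively onto the
latter.  So `G` and `H` have the same number of components of every isomorphism type, and there is a
bijection `g` from the components of `G` to those of `H` with `c ~ g c` (e.g. as in the classification of
finite sets with a map to a type of isomorphism classes: bijections between fibres of equal cardinality).
Choose isomorphisms `c → g c` and glue: `V ≃ Σ c, c.supp` (e.g. through
`SimpleGraph.connectedComponentMk`, `Equiv.sigmaFiberEquiv`), edges only inside components.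

(b) `iso_of_labels`: labels `c : V → I`, `c' : W → I` with fibres of equal size, and adjacency depending
only on the labels.
PROOF.  For each `i` choose a bijection between the fibres `c⁻¹ i` and `c'⁻¹ i` (finite sets of equal
cardinality: `Set.ncard`, `Nat.card` of subtypes), glue them to `f : V ≃ W` with `c' (f x) = c x`
(`Equiv.sigmaFiberEquiv`), then `hadj` gives `G.Adj x y ↔ H.Adj (f x) (f y)` for `x ≠ y`
(and both sides are false for `x = y`).
-/

namespace PCA38

private theorem equiv_of_fib {A B I : Type} [Finite A] [Finite B] (p : A → I) (q : B → I)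
    (h : ∀ i, {a | p a = i}.ncard = {b | q b = i}.ncard) : ∃ f : A ≃ B, ∀ a, q (f a) = p a := by
  have h1 : ∀ i, Nonempty ({a // p a = i} ≃ {b // q b = i}) := by
    intro i
    refine Finite.card_eq.1 ?_
    exact h i
  obtain ⟨e⟩ : Nonempty (∀ i, ({a // p a = i} ≃ {b // q b = i})) :=
    ⟨fun i => Classical.choice (h1 i)⟩
  refine ⟨(Equiv.sigmaFiberEquiv p).symm.trans ((Equiv.sigmaCongrRight e).trans
    (Equiv.sigmaFiberEquiv q)), fun a => ?_⟩
  exact (e (p a) ⟨a, rfl⟩).2

private theorem comp_count {V I : Type} [Finite V] (G : SimpleGraph V)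
    (L : G.ConnectedComponent → I) (i : I) (m : ℕ) (hm : ∀ c, L c = i → c.supp.ncard = m) :
    {x : V | L (G.connectedComponentMk x) = i}.ncard = {c | L c = i}.ncard * m := by
  classical
  have : Fintype V := Fintype.ofFinite V
  have : Fintype G.ConnectedComponent := Fintype.ofFinite _
  have e1 : {x : V | L (G.connectedComponentMk x) = i} =
      ((Finset.univ.filter (fun x => L (G.connectedComponentMk x) = i) : Finset V) : Set V) := by
    ext x
    simp
  have e2 : {c | L c = i} =
      ((Finset.univ.filter (fun c => L c = i) : Finset G.ConnectedComponent) :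
        Set G.ConnectedComponent) := by
    ext x
    simp
  rw [e1, e2, Set.ncard_coe_finset, Set.ncard_coe_finset]
  rw [Finset.card_eq_sum_card_fiberwise (f := fun x => G.connectedComponentMk x)
    (t := Finset.univ.filter (fun c => L c = i))]
  · have h1 : ∀ c ∈ Finset.univ.filter (fun c => L c = i),
        ((Finset.univ.filter (fun x => L (G.connectedComponentMk x) = i)).filter
          (fun x => G.connectedComponentMk x = c)).card = m := by
      intro c hc
      have hc2 : L c = i := (Finset.mem_filter.1 hc).2
      rw [← hm c hc2, ← Set.ncard_coe_finset]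
      congr 1
      ext x
      rw [Finset.mem_coe, Finset.mem_filter, Finset.mem_filter,
        SimpleGraph.ConnectedComponent.mem_supp_iff]
      constructor
      · exact fun h => h.2
      · intro h
        exact ⟨⟨Finset.mem_univ _, by rw [h]; exact hc2⟩, h⟩
    rw [Finset.sum_congr rfl h1, Finset.sum_const, smul_eq_mul]
  · intro x hx
    have h1 := Finset.mem_coe.1 hx
    rw [Finset.mem_filter] at h1
    exact Finset.mem_coe.2 (Finset.mem_filter.2 ⟨Finset.mem_univ _, h1.2⟩)

private theorem glue {V W : Type} (G : SimpleGraph V) (H : SimpleGraph W)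
    (g : G.ConnectedComponent ≃ H.ConnectedComponent)
    (hg : ∀ c, Nonempty (G.induce c.supp ≃g H.induce (g c).supp)) : Nonempty (G ≃g H) := by
  obtain ⟨φ⟩ : Nonempty (∀ c, (G.induce c.supp ≃g H.induce (g c).supp)) :=
    ⟨fun c => Classical.choice (hg c)⟩
  let F : V → W := fun x => (φ (G.connectedComponentMk x) ⟨x, rfl⟩).1
  have hF : ∀ c (x : V) (hx : x ∈ c.supp), F x = (φ c ⟨x, hx⟩).1 := by
    intro c x hx
    have hx' : G.connectedComponentMk x = c := hx
    subst hx'
    rfl
  have hc : ∀ x, H.connectedComponentMk (F x) = g (G.connectedComponentMk x) := fun x =>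
    (φ (G.connectedComponentMk x) ⟨x, rfl⟩).2
  have hinj : Function.Injective F := by
    intro x y hxy
    have h1 : g (G.connectedComponentMk x) = g (G.connectedComponentMk y) := by
      rw [← hc, ← hc, hxy]
    have h2 := g.injective h1
    have h3 : y ∈ (G.connectedComponentMk x).supp := h2.symm
    rw [hF _ x rfl, hF _ y h3] at hxy
    exact congrArg Subtype.val ((φ _).injective (Subtype.ext hxy))
  have hsurj : Function.Surjective F := by
    intro y
    have hy : y ∈ (g (g.symm (H.connectedComponentMk y))).supp := by
      show H.connectedComponentMk y = _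
      rw [g.apply_symm_apply]
    refine ⟨((φ (g.symm (H.connectedComponentMk y))).symm ⟨y, hy⟩).1, ?_⟩
    rw [hF _ _ ((φ (g.symm (H.connectedComponentMk y))).symm ⟨y, hy⟩).2, Subtype.coe_eta,
      RelIso.apply_symm_apply]
  refine ⟨⟨Equiv.ofBijective F ⟨hinj, hsurj⟩, fun {x y} => ?_⟩⟩
  show H.Adj (F x) (F y) ↔ G.Adj x y
  by_cases h1 : G.connectedComponentMk x = G.connectedComponentMk y
  · have h3 : y ∈ (G.connectedComponentMk x).supp := h1.symm
    rw [hF _ x rfl, hF _ y h3]
    exact (φ (G.connectedComponentMk x)).map_rel_iff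
  · constructor
    · intro h2
      exfalso
      apply h1
      apply g.injective
      rw [← hc, ← hc]
      exact SimpleGraph.ConnectedComponent.connectedComponentMk_eq_of_adj h2
    · intro h2
      exact absurd (SimpleGraph.ConnectedComponent.connectedComponentMk_eq_of_adj h2) h1

private theorem card_iso {V W : Type} {G : SimpleGraph V} {H : SimpleGraph W}
    {c : G.ConnectedComponent} {c' : H.ConnectedComponent}
    (h : Nonempty (G.induce c.supp ≃g H.induce c'.supp)) : c.supp.ncard = c'.supp.ncard := by
  obtain ⟨φ⟩ := h
  exact Nat.card_congr φ.toEquiv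

theorem iso_of_components {V W : Type} [Finite V] [Finite W] (G : SimpleGraph V)
    (H : SimpleGraph W) (f : V ≃ W)
    (hf : ∀ x, Nonempty (G.induce (G.connectedComponentMk x).supp ≃g
      H.induce (H.connectedComponentMk (f x)).supp)) :
    Nonempty (G ≃g H) := by
  classical
  let L : G.ConnectedComponent → Set G.ConnectedComponent × Set H.ConnectedComponent := fun c =>
    ({d | Nonempty (G.induce d.supp ≃g G.induce c.supp)},
      {d | Nonempty (H.induce d.supp ≃g G.induce c.supp)})
  let L' : H.ConnectedComponent → Set G.ConnectedComponent × Set H.ConnectedComponent := fun c =>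
    ({d | Nonempty (G.induce d.supp ≃g H.induce c.supp)},
      {d | Nonempty (H.induce d.supp ≃g H.induce c.supp)})
  have hLL : ∀ c d, L c = L d → Nonempty (G.induce c.supp ≃g G.induce d.supp) := by
    intro c d h
    have h1 : c ∈ (L c).1 := ⟨RelIso.refl _⟩
    rw [h] at h1
    exact h1
  have hLL' : ∀ c c', L c = L' c' → Nonempty (G.induce c.supp ≃g H.induce c'.supp) := by
    intro c d h
    have h1 : c ∈ (L c).1 := ⟨RelIso.refl _⟩
    rw [h] at h1
    exact h1
  have hiso : ∀ c c', Nonempty (G.induce c.supp ≃g H.induce c'.supp) → L c = L' c' := by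
    rintro c c' ⟨φ⟩
    refine Prod.ext ?_ ?_
    · ext d
      exact ⟨fun ⟨ψ⟩ => ⟨ψ.trans φ⟩, fun ⟨ψ⟩ => ⟨ψ.trans φ.symm⟩⟩
    · ext d
      exact ⟨fun ⟨ψ⟩ => ⟨ψ.trans φ⟩, fun ⟨ψ⟩ => ⟨ψ.trans φ.symm⟩⟩
  have hlab : ∀ x, L (G.connectedComponentMk x) = L' (H.connectedComponentMk (f x)) := fun x =>
    hiso _ _ (hf x)
  have hcount : ∀ i, {x : V | L (G.connectedComponentMk x) = i}.ncard =
      {y : W | L' (H.connectedComponentMk y) = i}.ncard := by
    intro i
    have h1 : {y : W | L' (H.connectedComponentMk y) = i} =
        f '' {x : V | L (G.connectedComponentMk x) = i} := by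
      ext y
      rw [Set.mem_image]
      constructor
      · intro hy
        refine ⟨f.symm y, ?_, f.apply_symm_apply y⟩
        show L _ = i
        rw [hlab, f.apply_symm_apply]
        exact hy
      · rintro ⟨x, hx, rfl⟩
        show L' _ = i
        rw [← hlab]
        exact hx
    rw [h1, Set.ncard_image_of_injective _ f.injective]
  have hcomp : ∀ i, {c | L c = i}.ncard = {c' | L' c' = i}.ncard := by
    intro i
    by_cases hex : ∃ c, L c = i
    · obtain ⟨c0, hc0⟩ := hex
      have m1 : ∀ c, L c = i → c.supp.ncard = c0.supp.ncard := fun c hc =>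
        card_iso (hLL c c0 (by rw [hc, hc0]))
      have m2 : ∀ c', L' c' = i → c'.supp.ncard = c0.supp.ncard := fun c' hc' =>
        (card_iso (hLL' c0 c' (by rw [hc', hc0]))).symm
      have h1 := comp_count G L i _ m1
      have h2 := comp_count H L' i _ m2
      rw [hcount i, h2] at h1
      have hpos : 0 < c0.supp.ncard := by
        rw [Set.ncard_pos]
        exact c0.nonempty_supp
      exact (Nat.eq_of_mul_eq_mul_right hpos h1).symm
    · have e1 : {c | L c = i} = ∅ := Set.eq_empty_of_forall_notMem fun c hc => hex ⟨c, hc⟩
      have e2 : {c' | L' c' = i} = ∅ := by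
        refine Set.eq_empty_of_forall_notMem fun c' hc' => hex ?_
        obtain ⟨y, hy⟩ := c'.nonempty_supp
        have hy' : H.connectedComponentMk y = c' := hy
        refine ⟨G.connectedComponentMk (f.symm y), ?_⟩
        rw [hlab, f.apply_symm_apply, hy']
        exact hc'
      rw [e1, e2, Set.ncard_empty, Set.ncard_empty]
  obtain ⟨g, hg⟩ := equiv_of_fib L L' hcomp
  exact glue G H g fun c => hLL' _ _ (hg c).symm

theorem iso_of_labels {V W I : Type} [Finite V] [Finite W] (G : SimpleGraph V)
    (H : SimpleGraph W) (c : V → I) (c' : W → I)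
    (hcard : ∀ i, {x | c x = i}.ncard = {x | c' x = i}.ncard)
    (hadj : ∀ x y x' y', x ≠ y → x' ≠ y' → c x = c' x' → c y = c' y' →
      (G.Adj x y ↔ H.Adj x' y')) :
    Nonempty (G ≃g H) := by
  obtain ⟨f, hf⟩ := equiv_of_fib c c' hcard
  refine ⟨⟨f, fun {a b} => ?_⟩⟩
  by_cases hab : a = b
  · rw [hab]
    exact ⟨fun h4 => (H.irrefl h4).elim, fun h4 => (G.irrefl h4).elim⟩
  · exact (hadj a b (f a) (f b) hab (f.injective.ne hab) (hf a).symm (hf b).symm).symm

end PCA38
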