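import Pool.Agent.Work.MP_38bec5_lc.P.CycA
import Pool.Agent.Work.MP_38bec5_lc.P.CycB
import Pool.Agent.Work.MP_38bec5_lc.P.CycC
import Pool.Agent.Work.MP_38bec5_lc.P.UniB

set_option autoImplicit false

/-!
# CycD (size M-L): the S-graph is a cycle (two moving anchors).

PROOF.  Let `Bis G H E`.  `W` is nonempty.  `cyc_transfer` and `cyc_label` (for `G` and `H`) give labels
`c : V → ZMod m`, `c' : W → ZMod m'`, and `m = m'` by `class_count` (`subst`).  Choose `x₀, x₁` with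
`c x₀ = 0`, `c x₁ = 1`, so `S x₀ x₁`; choose `x₀', x₁'` with `E x₀ x₁ x₀' x₁'` (`bis_surj'`), so `S x₀' x₁'`
and `c' x₁' = c' x₀' ± 1`.  Replace `c'` by `c' - c' x₀'` or by `c' x₀' - c'` (both keep all properties
of a label function): we may assume `c' x₀' = 0`, `c' x₁' = 1`.

(D) If `E a b a' b'` with `c b = c a + 1`, `c' b' = c' a' + 1`, and `f` is from `ext`
(`E a z a' (f z)`, `E z b (f z) b'`), then `c' (f z) - c' a' = c z - c a` for all `z`.
Proof: by `bis_T` for `E a z a' (f z)` and `cyc_T`: for all `k`: `(∃ j ≤ k, c z - c a = k - 2 j) ↔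
(∃ j ≤ k, c' (f z) - c' a' = k - 2 j)`; by `bis_T` for `E b z b' (f z)` (`symm`) the same for
`c z - c b = (c z - c a) - 1` and `c' (f z) - c' b' = (c' (f z) - c' a') - 1`.  `cyc_arith`.

(Q) For every `t : ℕ` there are `a, b, a', b'` with `c a = t`, `c b = t + 1`, `c' a' = t`, `c' b' = t + 1` and
`E a b a' b'`.  Induction: `t = 0` is `x₀, x₁, x₀', x₁'`.  Step: choose `z` with `c z = t + 2`; by (D)
`c' (f z) = t + 2`; and `E z b (f z) b'`, so `E b z b' (f z)` by `symm`.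
Hence (casts of naturals are everything in `ZMod m`) for every `i : ZMod m` there are
`a, b, a', b'` with `c a = i = c' a'`, `c b = i + 1 = c' b'`, `E a b a' b'`, and by (D)
`c' (f z) = c z` for all `z`.

(R) Fibre sizes: with `f` from (Q) (any `i`): `c' (f z) = c z`, so `f` maps `{x | c x = j}` bijectively onto
`{y | c' y = j}`.  Adjacency: let `x ≠ y`, `x' ≠ y'`, `c x = c' x'`, `c y = c' y'`.  Take `a, a', f` from (Q)
with `i = c x`.  `c a = c x` gives `Twin a x`, `c' a' = c' x'` gives `Twin a' x'`, and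
`c' (f y) = c y = c' y'` gives `Twin (f y) y'`.  So `y ∈ nb x ↔ y ∈ nb a ↔ f y ∈ nb a'` (`bis_nb` for
`E a y a' (f y)`) `↔ a' ∈ nb (f y) = nb y' ↔ y' ∈ nb a' = nb x'`, and `x ≠ y`, `x' ≠ y'` turn this into
`G.Adj x y ↔ H.Adj x' y'`.  (Symmetry `y ∈ nb x ↔ x ∈ nb y` is immediate.)  Conclude by
`iso_of_labels`.
-/

namespace PCA38

/-- a label function of the cycle. -/
private structure Lab {V : Type} (G : SimpleGraph V) (m : ℕ) (c : V → ZMod m) : Prop where
  s : Function.Surjective c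
  t : ∀ x y, c x = c y ↔ Twin G x y
  S : ∀ x y, PCA38.S G x y ↔ (c y = c x + 1 ∨ c y = c x - 1)

private theorem lab_sub {V : Type} {G : SimpleGraph V} {m : ℕ} {c : V → ZMod m} (h : Lab G m c)
    (a : ZMod m) : Lab G m (fun x => c x - a) := by
  refine ⟨fun i => ?_, fun x y => ?_, fun x y => ?_⟩
  · obtain ⟨x, hx⟩ := h.s (i + a)
    exact ⟨x, by show c x - a = i; rw [hx, add_sub_cancel_right]⟩
  · rw [← h.t]
    exact sub_left_inj
  · rw [h.S]
    show _ ↔ (c y - a = c x - a + 1 ∨ c y - a = c x - a - 1)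
    constructor
    · rintro (h1 | h1)
      · left; rw [h1]; ring
      · right; rw [h1]; ring
    · rintro (h1 | h1)
      · left; linear_combination h1
      · right; linear_combination h1

private theorem lab_neg {V : Type} {G : SimpleGraph V} {m : ℕ} {c : V → ZMod m} (h : Lab G m c)
    (a : ZMod m) : Lab G m (fun x => a - c x) := by
  refine ⟨fun i => ?_, fun x y => ?_, fun x y => ?_⟩
  · obtain ⟨x, hx⟩ := h.s (a - i)
    exact ⟨x, by show a - c x = i; rw [hx, sub_sub_cancel]⟩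
  · rw [← h.t]
    exact sub_right_inj
  · rw [h.S]
    show _ ↔ (a - c y = a - c x + 1 ∨ a - c y = a - c x - 1)
    constructor
    · rintro (h1 | h1)
      · right; rw [h1]; ring
      · left; rw [h1]; ring
    · rintro (h1 | h1)
      · right; linear_combination -h1
      · left; linear_combination -h1

section
variable {V W : Type} {G : SimpleGraph V} {H : SimpleGraph W} {E : V → V → W → W → Prop}
  {m : ℕ} {c : V → ZMod m} {c' : W → ZMod m}

private theorem lab_T (hE : Bis G H E) (hc : Lab G m c) (hc' : Lab H m c') {a z : V} {a' z' : W}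
    (h : E a z a' z') (k : ℕ) :
    (∃ j : ℕ, j ≤ k ∧ c z - c a = (k : ZMod m) - 2 * (j : ZMod m)) ↔
      (∃ j : ℕ, j ≤ k ∧ c' z' - c' a' = (k : ZMod m) - 2 * (j : ZMod m)) := by
  rw [← cyc_T c hc.s hc.t hc.S k a z, ← cyc_T c' hc'.s hc'.t hc'.S k a' z']
  exact bis_T hE k h

private theorem lab_D (hE : Bis G H E) (hm : 3 ≤ m) (hc : Lab G m c) (hc' : Lab H m c') {a b : V}
    {a' b' : W} (hab : c b = c a + 1) (hab' : c' b' = c' a' + 1) (f : V ≃ W)
    (hf : ∀ z, E a z a' (f z) ∧ E z b (f z) b') (z : V) : c' (f z) - c' a' = c z - c a := by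
  refine (cyc_arith hm (c z - c a) (c' (f z) - c' a') (lab_T hE hc hc' (hf z).1) ?_).symm
  intro k
  have h1 := lab_T hE hc hc' (hE.symm _ _ _ _ (hf z).2) k
  have e1 : c z - c b = c z - c a - 1 := by rw [hab]; ring
  have e2 : c' (f z) - c' b' = c' (f z) - c' a' - 1 := by rw [hab']; ring
  rw [e1, e2] at h1
  exact h1

private theorem lab_Q (hE : Bis G H E) (hm : 3 ≤ m) (hc : Lab G m c) (hc' : Lab H m c') {x₀ x₁ : V}
    {x₀' x₁' : W} (h : E x₀ x₁ x₀' x₁') (h0 : c x₀ = 0) (h1 : c x₁ = 1) (h0' : c' x₀' = 0)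
    (h1' : c' x₁' = 1) (t : ℕ) :
    ∃ (a b : V) (a' b' : W), c a = (t : ZMod m) ∧ c b = (t : ZMod m) + 1 ∧ c' a' = (t : ZMod m) ∧
      c' b' = (t : ZMod m) + 1 ∧ E a b a' b' := by
  induction t with
  | zero =>
    refine ⟨x₀, x₁, x₀', x₁', ?_, ?_, ?_, ?_, h⟩
    · rw [h0, Nat.cast_zero]
    · rw [h1, Nat.cast_zero, zero_add]
    · rw [h0', Nat.cast_zero]
    · rw [h1', Nat.cast_zero, zero_add]
  | succ t ih =>
    obtain ⟨a, b, a', b', ha, hb, ha', hb', hab⟩ := ih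
    obtain ⟨f, hf⟩ := hE.ext _ _ _ _ hab
    obtain ⟨z, hz⟩ := hc.s ((t : ZMod m) + 1 + 1)
    have hD := lab_D hE hm hc hc' (by rw [hb, ha]) (by rw [hb', ha']) f hf z
    refine ⟨b, z, b', f z, ?_, ?_, ?_, ?_, hE.symm _ _ _ _ (hf z).2⟩
    · rw [hb, Nat.cast_succ]
    · rw [hz, Nat.cast_succ]
    · rw [hb', Nat.cast_succ]
    · rw [ha', hz, ha] at hD
      rw [Nat.cast_succ]
      linear_combination hD

private theorem lab_Qi (hE : Bis G H E) (hm : 3 ≤ m) (hc : Lab G m c) (hc' : Lab H m c') {x₀ x₁ : V}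
    {x₀' x₁' : W} (h : E x₀ x₁ x₀' x₁') (h0 : c x₀ = 0) (h1 : c x₁ = 1) (h0' : c' x₀' = 0)
    (h1' : c' x₁' = 1) (i : ZMod m) :
    ∃ (a : V) (a' : W) (f : V ≃ W), c a = i ∧ c' a' = i ∧ (∀ z, E a z a' (f z)) ∧
      ∀ z, c' (f z) = c z := by
  have : NeZero m := ⟨by omega⟩
  obtain ⟨a, b, a', b', ha, hb, ha', hb', hab⟩ := lab_Q hE hm hc hc' h h0 h1 h0' h1' i.val
  rw [ZMod.natCast_zmod_val] at ha hb ha' hb'
  obtain ⟨f, hf⟩ := hE.ext _ _ _ _ hab
  refine ⟨a, a', f, ha, ha', fun z => (hf z).1, fun z => ?_⟩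
  have hD := lab_D hE hm hc hc' (by rw [hb, ha]) (by rw [hb', ha']) f hf z
  rw [ha, ha'] at hD
  exact sub_left_inj.1 hD

private theorem nb_symm {x y : V} : y ∈ nb G x ↔ x ∈ nb G y := by
  constructor
  · rintro (h | h)
    · exact Or.inl h.symm
    · exact Or.inr h.symm
  · rintro (h | h)
    · exact Or.inl h.symm
    · exact Or.inr h.symm

private theorem nb_ne {x y : V} (h : x ≠ y) : y ∈ nb G x ↔ G.Adj x y := by
  constructor
  · rintro (h1 | h1)
    · exact absurd h1.symm h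
    · exact h1
  · exact fun h1 => Or.inr h1

private theorem lab_iso [Finite V] [Finite W] (hE : Bis G H E) (hm : 3 ≤ m) (hc : Lab G m c)
    (hc' : Lab H m c') {x₀ x₁ : V}
    {x₀' x₁' : W} (h : E x₀ x₁ x₀' x₁') (h0 : c x₀ = 0) (h1 : c x₁ = 1) (h0' : c' x₀' = 0)
    (h1' : c' x₁' = 1) : Nonempty (G ≃g H) := by
  have Q := lab_Qi hE hm hc hc' h h0 h1 h0' h1'
  refine iso_of_labels G H c c' (fun i => ?_) (fun x y x' y' hxy hxy' hx hy => ?_)
  · obtain ⟨a, a', f, -, -, -, hf⟩ := Q 0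
    have h2 : {y | c' y = i} = f '' {x | c x = i} := by
      ext y
      rw [Set.mem_image]
      constructor
      · intro hy
        refine ⟨f.symm y, ?_, f.apply_symm_apply y⟩
        show c (f.symm y) = i
        rw [← hf, f.apply_symm_apply]
        exact hy
      · rintro ⟨x, hx, rfl⟩
        show c' (f x) = i
        rw [hf]
        exact hx
    rw [h2, Set.ncard_image_of_injective _ f.injective]
  · obtain ⟨a, a', f, ha, ha', hfE, hf⟩ := Q (c x)
    have t1 : nb G a = nb G x := (hc.t a x).1 ha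
    have t2 : nb H a' = nb H x' := (hc'.t a' x').1 (by rw [ha', hx])
    have t3 : nb H (f y) = nb H y' := (hc'.t (f y) y').1 (by rw [hf, hy])
    rw [← nb_ne hxy, ← nb_ne hxy', ← t1, bis_nb hE (hfE y), nb_symm, t3, nb_symm, t2]

end

theorem idf_of_cycle {V : Type} [Finite V] [Nonempty V] (G : SimpleGraph V) (h2 : AtMostTwo G)
    (hr : ∀ x y, Reach G x y) (h3 : ∀ x, ¬ IsEnd G x) : Idf G := by
  intro W _ H E hE
  obtain ⟨f0, hf0⟩ := hE.start
  have : Nonempty W := (inferInstance : Nonempty V).map f0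
  obtain ⟨h2', hr', h3'⟩ := cyc_transfer hE h2 hr h3
  obtain ⟨m, hm, c, cs, ct, cS⟩ := cyc_label G h2 hr h3
  obtain ⟨m', hm', c', cs', ct', cS'⟩ := cyc_label H h2' hr' h3'
  obtain rfl : m = m' := class_count hE hm hm' c c' cs cs' ct ct'
  have hc : Lab G m c := ⟨cs, ct, cS⟩
  have hc' : Lab H m c' := ⟨cs', ct', cS'⟩
  obtain ⟨x₀, hx0⟩ := cs 0
  obtain ⟨x₁, hx1⟩ := cs 1
  obtain ⟨x₀', x₁', hx⟩ := bis_surj' hE x₀ x₁
  have hS : S G x₀ x₁ := (cS _ _).2 (Or.inl (by rw [hx0, hx1, zero_add]))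
  rcases (cS' _ _).1 ((bis_S hE hx).1 hS) with h4 | h4
  · refine lab_iso hE hm hc (lab_sub hc' (c' x₀')) hx hx0 hx1 ?_ ?_
    · exact sub_self _
    · show c' x₁' - c' x₀' = 1
      rw [h4]; ring
  · refine lab_iso hE hm hc (lab_neg hc' (c' x₀')) hx hx0 hx1 ?_ ?_
    · exact sub_self _
    · show c' x₀' - c' x₁' = 1
      rw [h4]; ring

end PCA38
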