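import Pool.Agent.Work.MP_38bec5_lc.Base

set_option autoImplicit false

/-!
# Counting width of proper circular-arc graphs: definitions (FIXED, do not edit)

Goal of the board: every proper circular-arc graph `G` satisfies `W^#(G) ≤ 3`
(it is defined by one sentence of `C^3` among all finite graphs), and `3` is optimal.
-/

namespace PCA38

/-- Renaming of the variables by a permutation. -/
def Fml.ren {k : ℕ} (σ : Equiv.Perm (Fin k)) : Fml k → Fml k
  | .adj i j => .adj (σ i) (σ j)
  | .eq i j => .eq (σ i) (σ j)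
  | .neg φ => .neg (φ.ren σ)
  | .and φ ψ => .and (φ.ren σ) (ψ.ren σ)
  | .ex m i φ => .ex m (σ i) (φ.ren σ)

/-- Round enumeration: `v` enumerates the vertices periodically (period `n`), and the closed
neighbourhood of `v i` is the set of all `v j` with `i ≤ j ≤ r i`, together with all `v j` with
`j ≤ i ≤ r j`. -/
structure Round {V : Type} (G : SimpleGraph V) (n : ℕ) (v : ℤ → V) (r : ℤ → ℤ) : Prop where
  pos : 0 < n
  inj : ∀ i j, v i = v j ↔ (n : ℤ) ∣ j - i
  surj : Function.Surjective v
  mono : Monotone r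
  per : ∀ i, r (i + n) = r i + n
  le : ∀ i, i ≤ r i
  adj : ∀ i j, i < j → j < i + n → (G.Adj (v i) (v j) ↔ j ≤ r i ∨ i + n ≤ r j)

/-! ## The three pebble game -/

/-- A back-and-forth system for the bijective 3-pebble game (equivalence for `C^3`). -/
structure Bis {V W : Type} (G : SimpleGraph V) (H : SimpleGraph W)
    (E : V → V → W → W → Prop) : Prop where
  start : ∃ f : V ≃ W, ∀ z, E z z (f z) (f z)
  eq : ∀ x y x' y', E x y x' y' → (x = y ↔ x' = y')
  adj : ∀ x y x' y', E x y x' y' → (G.Adj x y ↔ H.Adj x' y')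
  symm : ∀ x y x' y', E x y x' y' → E y x y' x'
  ext : ∀ x y x' y', E x y x' y' → ∃ f : V ≃ W, ∀ z, E x z x' (f z) ∧ E z y (f z) y'

/-- `G` is identified by the 3-pebble game. -/
def Idf {V : Type} (G : SimpleGraph V) : Prop :=
  ∀ (W : Type) [Finite W] (H : SimpleGraph W) (E : V → V → W → W → Prop),
    Bis G H E → Nonempty (G ≃g H)

/-! ## The combinatorial relations (all invariant under the game) -/

section
variable {V : Type} (G : SimpleGraph V)

/-- (Closed) twins, including the case `x = y`. -/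
def Twin (x y : V) : Prop := nb G x = nb G y

/-- The distance `|N[x] Δ N[y]|`. -/
noncomputable def dd (x y : V) : ℕ := (symmDiff (nb G x) (nb G y)).ncard

/-- `x, y` are adjacent, do not dominate the graph, are not twins, and nothing lies strictly
between them for the metric `dd`. -/
def S (x y : V) : Prop :=
  G.Adj x y ∧ (∃ z, z ∉ nb G x ∧ z ∉ nb G y) ∧ ¬ Twin G x y ∧
    ∀ w, dd G x w + dd G w y = dd G x y → Twin G x w ∨ Twin G w y

/-- `T k x y`: there is an `S`-walk of length `k` from `x` to `y`, up to twins. -/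
def T : ℕ → V → V → Prop
  | 0, x, y => Twin G x y
  | (k + 1), x, y => ∃ z, T k x z ∧ S G z y

/-- Reachability for `S` (up to twins). -/
def Reach (x y : V) : Prop := ∃ k, T G k x y

/-- Among three `S`-neighbours of a vertex two are twins. -/
def AtMostTwo : Prop :=
  ∀ x y₁ y₂ y₃, S G x y₁ → S G x y₂ → S G x y₃ →
    Twin G y₁ y₂ ∨ Twin G y₁ y₃ ∨ Twin G y₂ y₃

/-- All `S`-neighbours of `x` are twins. -/
def IsEnd (x : V) : Prop := ∀ y z, S G x y → S G x z → Twin G y z

end

/-- Round data of a graph without universal vertices: `N[v i]` is the image of the interval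
`[l i, r i]`, which is a proper interval modulo `n`. -/
structure RD {V : Type} (G : SimpleGraph V) (n : ℕ) (v : ℤ → V) (l r : ℤ → ℤ) : Prop where
  pos : 0 < n
  inj : ∀ i j, v i = v j ↔ (n : ℤ) ∣ j - i
  surj : Function.Surjective v
  rmono : Monotone r
  lmono : Monotone l
  rper : ∀ i, r (i + n) = r i + n
  lper : ∀ i, l (i + n) = l i + n
  gal : ∀ i j, j ≤ r i ↔ l j ≤ i
  le : ∀ i, i ≤ r i
  ll : ∀ i, l i ≤ i
  lt : ∀ i, r i + 2 ≤ l i + n
  mem : ∀ i k, v k ∈ nb G (v i) ↔ ∃ m : ℤ, l i ≤ k + m * n ∧ k + m * n ≤ r i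

end PCA38
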