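import Pool.Agent.Work.MP_38bec5_lc.P.Defs

set_option autoImplicit false

/-!
# Geo (size M-L): a proper circular-arc graph has a round enumeration.

PROOF.  Let `s, l` be as in `IsPCA`, `n = Nat.card V > 0`.

CASE 1: some arc has length `l u ≥ 1`.  Then `arc (s u) (l u)` is the whole circle, every arc is
contained in it, hence equal to it, so `G` is complete.  Take any periodic enumeration
(`v i` = the element of `V ≃ Fin n` with index `i mod n`) and `r i = i + n - 1`: `Round` holds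
(`i < j < i + n → j ≤ r i`).

CASE 2: all `l u < 1`.  Replacing `s u` by its fractional part (`Int.fract`) does not change the arcs
(`arc (s + k) l = arc s l` for integers `k`), so assume `0 ≤ s u < 1`.  Enumerate
`V = {w 0, ..., w (n-1)}` with `s (w 0) ≤ ... ≤ s (w (n-1))` (e.g. `Tuple.sort`).  For `i : ℤ` with
`i = q n + t`, `0 ≤ t < n` put `v i = w t`, `X i = s (w t) + q` (start point), `L i = l (w t)`,
`Y i = X i + L i` (end point).  Facts: `X` is monotone, `X (i + n) = X i + 1`,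
`Y (i + n) = Y i + 1`, `X i ≤ Y i < X i + 1`, `X i ≤ X j ≤ X i + 1` for `i ≤ j ≤ i + n`.

(A) For `i < j < i + n`: the arcs of `v i` and `v j` meet iff `X j ≤ Y i` or `X i + 1 ≤ Y j`.
[`X i + a = X j + b + k`, `k` an integer, `0 ≤ a ≤ L i`, `0 ≤ b ≤ L j`.  `k = 0`: `X j ≤ X j + b = X i + a ≤ Y i`.
`k = -1`: `X i + 1 ≤ X i + a + 1 = X j + b ≤ Y j`.  `k ≥ 1`: `X i + a ≥ X j + 1 ≥ X i + 1`, impossible as
`a ≤ L i < 1`.  `k ≤ -2`: `X j + b ≥ X i + 2`, but `X j + b < X j + 1 ≤ X i + 2`, impossible.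
Conversely `X j ≤ Y i` gives the common point `X j` (`X i ≤ X j ≤ Y i`), and `X i + 1 ≤ Y j` gives the
common point `X i + 1` (`X j ≤ X i + 1`).]

(B) `Y` is monotone: let `i ≤ j` and suppose `Y j < Y i`.  Then `X i ≤ X j ≤ Y j < Y i`, so the arc of
`v j` is contained in the arc of `v i`, hence equal to it.  Two closed arcs `[X, Y]`, `[X', Y']` of
lengths `< 1` with `X ≤ X' ≤ Y' < Y` are different as sets: a point slightly larger than
`max(Y', Y - (1 - ...))`, precisely the point `Y` (image of `Y` in the circle) lies in the second arc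
only if `Y = X' + b + k` with `0 ≤ b ≤ Y' - X'`, `k ≥ 1` (as `Y > Y'`), so `Y ≥ X' + 1 ≥ X + 1`,
contradicting `Y < X + 1`.  (If `j ≥ i + n` then `Y j ≥ X j ≥ X i + 1 > Y i` anyway; this is not even
needed.)

(C) `r i` = the largest `j` with `X j ≤ Y i` (exists: `X i ≤ Y i`, and `X (i + n) = X i + 1 > Y i`, so
`i ≤ r i < i + n`).  By monotonicity of `X`: `j ≤ r i ↔ X j ≤ Y i`.  So `r` is monotone by (B),
`r (i + n) = r i + n`, and by (A), for `i < j < i + n`: adjacent iff `j ≤ r i` or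
`i + n ≤ r j` (`X (i + n) = X i + 1 ≤ Y j`).  Note that `v i ≠ v j` here.
-/

namespace PCA38

private theorem coe_iff (b c : ℝ) :
    (b : AddCircle (1 : ℝ)) = (c : AddCircle (1 : ℝ)) ↔ ∃ k : ℤ, b = c + k := by
  rw [← sub_eq_zero, ← AddCircle.coe_sub, AddCircle.coe_eq_zero_iff]
  constructor
  · rintro ⟨k, hk⟩
    refine ⟨k, ?_⟩
    rw [zsmul_eq_mul, mul_one] at hk
    linarith
  · rintro ⟨k, hk⟩
    refine ⟨k, ?_⟩
    rw [zsmul_eq_mul, mul_one, hk]
    ring

private theorem mem_arc {s l X : ℝ} (hX : ∃ k : ℤ, X = s + k) (x : AddCircle (1 : ℝ)) :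
    x ∈ arc s l ↔ ∃ b : ℝ, X ≤ b ∧ b ≤ X + l ∧ (b : AddCircle (1 : ℝ)) = x := by
  obtain ⟨k, hk⟩ := hX
  constructor
  · rintro ⟨a, h1, h2, h3⟩
    refine ⟨X + a, by linarith, by linarith, ?_⟩
    rw [← h3, coe_iff]
    exact ⟨k, by rw [hk]; ring⟩
  · rintro ⟨b, h1, h2, h3⟩
    refine ⟨b - X, by linarith, by linarith, ?_⟩
    rw [← h3, coe_iff]
    exact ⟨-k, by rw [hk]; push_cast; ring⟩

private theorem enum {V : Type} [Finite V] [Nonempty V] (g : V → ℝ)
    (hg : ∀ u, 0 ≤ g u ∧ g u < 1) :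
    ∃ (n : ℕ) (v : ℤ → V) (X : ℤ → ℝ), 0 < n ∧ (∀ i j, v i = v j ↔ (n : ℤ) ∣ j - i) ∧
      Function.Surjective v ∧ Monotone X ∧ (∀ i, X (i + n) = X i + 1) ∧
      ∀ i, ∃ k : ℤ, X i = g (v i) + k := by
  obtain ⟨n, hn⟩ : ∃ n, n = Nat.card V := ⟨_, rfl⟩
  have hpos : 0 < n := by
    rw [hn]
    exact Nat.card_pos
  have e : Fin n ≃ V := by
    rw [hn]
    exact (Finite.equivFin V).symm
  obtain ⟨w, hw⟩ : ∃ w : Fin n ≃ V, w = (Tuple.sort (g ∘ e)).trans e := ⟨_, rfl⟩
  have hmono : Monotone fun t => g (w t) := by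
    rw [hw]
    exact Tuple.monotone_sort (g ∘ e)
  have hnz : (0 : ℤ) < n := by exact_mod_cast hpos
  have h0 : ∀ i : ℤ, 0 ≤ i % n := fun i => Int.emod_nonneg i hnz.ne'
  have h1 : ∀ i : ℤ, i % n < n := fun i => Int.emod_lt_of_pos i hnz
  have h2 : ∀ i : ℤ, (i % n).toNat < n := by
    intro i
    have := h0 i
    have := h1 i
    omega
  obtain ⟨v, hv⟩ : ∃ v : ℤ → V, ∀ i, v i = w ⟨(i % n).toNat, h2 i⟩ := ⟨_, fun i => rfl⟩
  have hvv : ∀ i j, v i = v j ↔ (n : ℤ) ∣ j - i := by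
    intro i j
    rw [hv, hv, w.injective.eq_iff, Fin.mk.injEq, ← Int.modEq_iff_dvd]
    unfold Int.ModEq
    have := h0 i
    have := h0 j
    omega
  have hdiv : ∀ i : ℤ, (i + n) / n = i / n + 1 := by
    intro i
    rw [Int.add_ediv_of_dvd_right (dvd_refl _), Int.ediv_self hnz.ne']
  refine ⟨n, v, fun i => g (v i) + ((i / n : ℤ) : ℝ), hpos, hvv, ?_, ?_, ?_, ?_⟩
  · intro u
    refine ⟨((w.symm u : Fin n) : ℕ), ?_⟩
    rw [hv]
    have h3 : (((w.symm u : Fin n) : ℕ) : ℤ) % n = ((w.symm u : Fin n) : ℕ) :=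
      Int.emod_eq_of_lt (by positivity) (by exact_mod_cast (w.symm u).2)
    have h4 : (⟨((((w.symm u : Fin n) : ℕ) : ℤ) % n).toNat, h2 _⟩ : Fin n) = w.symm u := by
      apply Fin.ext
      change ((((w.symm u : Fin n) : ℕ) : ℤ) % n).toNat = ((w.symm u : Fin n) : ℕ)
      rw [h3]
      exact Int.toNat_natCast _
    rw [h4, w.apply_symm_apply]
  · intro i j hij
    change g (v i) + ((i / n : ℤ) : ℝ) ≤ g (v j) + ((j / n : ℤ) : ℝ)
    have h3 : i / n ≤ j / n := Int.ediv_le_ediv hnz hij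
    rcases lt_or_eq_of_le h3 with h4 | h4
    · have h5 : ((i / n : ℤ) : ℝ) + 1 ≤ ((j / n : ℤ) : ℝ) := by exact_mod_cast h4
      have := (hg (v i)).2
      have := (hg (v j)).1
      linarith
    · rw [h4, hv, hv]
      have h5 := Int.emod_add_mul_ediv i n
      have h6 := Int.emod_add_mul_ediv j n
      have h7 : (⟨(i % n).toNat, h2 i⟩ : Fin n) ≤ ⟨(j % n).toNat, h2 j⟩ := by
        rw [Fin.mk_le_mk]
        rw [h4] at h5
        have := h0 i
        have := h0 j
        omega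
      have h8 := hmono h7
      linarith
  · intro i
    change g (v (i + n)) + (((i + n) / n : ℤ) : ℝ) = g (v i) + ((i / n : ℤ) : ℝ) + 1
    have h3 : v (i + n) = v i := (hvv _ _).2 ⟨-1, by ring⟩
    rw [h3, hdiv]
    push_cast
    ring
  · intro i
    exact ⟨i / n, rfl⟩

theorem round_of_pca {V : Type} [Finite V] [Nonempty V] (G : SimpleGraph V) (h : IsPCA G) :
    ∃ (n : ℕ) (v : ℤ → V) (r : ℤ → ℤ), Round G n v r := by
  obtain ⟨s, l, hl, hprop, hadj⟩ := h
  by_cases hbig : ∃ u, 1 ≤ l u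
  · obtain ⟨u, hu⟩ := hbig
    have huniv : ∀ x, x ∈ arc (s u) (l u) := by
      intro x
      obtain ⟨b, rfl⟩ : ∃ b : ℝ, (b : AddCircle (1 : ℝ)) = x := QuotientAddGroup.mk_surjective x
      refine ⟨Int.fract (b - s u), Int.fract_nonneg _, (Int.fract_lt_one _).le.trans hu, ?_⟩
      rw [coe_iff]
      refine ⟨-⌊b - s u⌋, ?_⟩
      have := Int.self_sub_floor (b - s u)
      push_cast
      linarith
    have hall : ∀ a x, x ∈ arc (s a) (l a) := by
      intro a x
      rw [hprop a u fun y _ => huniv y]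
      exact huniv x
    obtain ⟨n, v, X, hpos, hv, hsurj, -, -, -⟩ := enum (fun _ : V => (0 : ℝ))
      (fun _ => ⟨le_refl _, zero_lt_one⟩)
    refine ⟨n, v, fun i => i + n - 1, hpos, hv, hsurj, ?_, ?_, ?_, ?_⟩
    · intro i j hij
      change i + n - 1 ≤ j + n - 1
      omega
    · intro i
      change i + n + n - 1 = i + n - 1 + n
      omega
    · intro i
      change i ≤ i + n - 1
      omega
    · intro i j hij hji
      change G.Adj (v i) (v j) ↔ (j : ℤ) ≤ i + n - 1 ∨ (i : ℤ) + n ≤ j + n - 1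
      constructor
      · intro _
        left
        omega
      · intro _
        rw [hadj]
        refine ⟨?_, ⟨0, hall _ _, hall _ _⟩⟩
        rw [Ne, hv]
        intro h3
        have h4 := Int.le_of_dvd (by omega) h3
        omega
  have hsm : ∀ u, l u < 1 := by
    intro u
    by_contra hcon
    exact hbig ⟨u, not_lt.1 hcon⟩
  obtain ⟨n, v, X, hpos, hv, hsurj, hX, hXp, hXk⟩ := enum (fun u => Int.fract (s u))
    (fun u => ⟨Int.fract_nonneg _, Int.fract_lt_one _⟩)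
  have hXs : ∀ i, ∃ k : ℤ, X i = s (v i) + k := by
    intro i
    obtain ⟨k, hk⟩ := hXk i
    refine ⟨k - ⌊s (v i)⌋, ?_⟩
    rw [hk]
    have := Int.self_sub_floor (s (v i))
    push_cast
    linarith
  have hvp : ∀ i, v (i + n) = v i := fun i => (hv _ _).2 ⟨-1, by ring⟩
  obtain ⟨Y, hY⟩ : ∃ Y : ℤ → ℝ, ∀ i, Y i = X i + l (v i) := ⟨_, fun i => rfl⟩
  have hXY : ∀ i, X i ≤ Y i := by
    intro i
    rw [hY]
    linarith [hl (v i)]
  have hYX : ∀ i, Y i < X i + 1 := by
    intro i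
    rw [hY]
    linarith [hsm (v i)]
  have hYp : ∀ i, Y (i + n) = Y i + 1 := by
    intro i
    rw [hY, hY, hXp, hvp]
    ring
  have harc : ∀ i x, x ∈ arc (s (v i)) (l (v i)) ↔
      ∃ b : ℝ, X i ≤ b ∧ b ≤ Y i ∧ (b : AddCircle (1 : ℝ)) = x := by
    intro i x
    rw [hY]
    exact mem_arc (hXs i) x
  have hYm : Monotone Y := by
    intro i j hij
    by_contra hcon
    have h1 : Y j < Y i := not_le.1 hcon
    have h2 := hX hij
    have h3 : arc (s (v j)) (l (v j)) ⊆ arc (s (v i)) (l (v i)) := by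
      intro x hx
      obtain ⟨b, hb1, hb2, hb3⟩ := (harc j x).1 hx
      exact (harc i x).2 ⟨b, by linarith, by linarith, hb3⟩
    have h4 := hprop _ _ h3
    have h5 : ((Y i : ℝ) : AddCircle (1 : ℝ)) ∈ arc (s (v j)) (l (v j)) := by
      rw [h4]
      exact (harc i _).2 ⟨Y i, hXY i, le_refl _, rfl⟩
    obtain ⟨b, hb1, hb2, hb3⟩ := (harc j _).1 h5
    obtain ⟨k, hk⟩ := (coe_iff _ _).1 hb3
    have h6 : k < 0 := by
      have h7 : (k : ℝ) < 0 := by linarith
      exact_mod_cast h7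
    have h8 : (k : ℝ) ≤ -1 := by
      have : k ≤ -1 := by omega
      exact_mod_cast this
    have := hYX i
    linarith
  have hmeet : ∀ i j : ℤ, i < j → j < i + n →
      ((arc (s (v i)) (l (v i)) ∩ arc (s (v j)) (l (v j))).Nonempty ↔
        X j ≤ Y i ∨ X (i + n) ≤ Y j) := by
    intro i j hij hji
    have hx1 := hX hij.le
    have hx2 := hX hji.le
    rw [hXp] at hx2
    rw [hXp]
    constructor
    · rintro ⟨x, hx, hx'⟩
      obtain ⟨b, hb1, hb2, hb3⟩ := (harc i x).1 hx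
      obtain ⟨b', hb1', hb2', hb3'⟩ := (harc j x).1 hx'
      obtain ⟨k, hk⟩ := (coe_iff b b').1 (hb3.trans hb3'.symm)
      have hyi := hYX i
      have hyj := hYX j
      have hk1 : k < 1 := by
        by_contra hcon
        have h7 : (1 : ℝ) ≤ k := by exact_mod_cast (not_lt.1 hcon)
        linarith
      have hk2 : -2 < k := by
        by_contra hcon
        have h7 : (k : ℝ) ≤ -2 := by exact_mod_cast (not_lt.1 hcon)
        linarith
      rcases (show k = 0 ∨ k = -1 by omega) with h8 | h8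
      · left
        rw [h8, Int.cast_zero, add_zero] at hk
        linarith
      · right
        rw [h8] at hk
        push_cast at hk
        linarith
    · rintro (h3 | h3)
      · exact ⟨(X j : AddCircle (1 : ℝ)), (harc i _).2 ⟨X j, hx1, h3, rfl⟩,
          (harc j _).2 ⟨X j, le_refl _, hXY j, rfl⟩⟩
      · refine ⟨(X i : AddCircle (1 : ℝ)), (harc i _).2 ⟨X i, le_refl _, hXY i, rfl⟩,
          (harc j _).2 ⟨X i + 1, hx2, h3, ?_⟩⟩
        rw [coe_iff]
        exact ⟨1, by push_cast; ring⟩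
  have hr : ∀ i, ∃ r : ℤ, X r ≤ Y i ∧ ∀ j, X j ≤ Y i → j ≤ r := by
    intro i
    refine Int.exists_greatest_of_bdd ⟨i + n, fun j hj => ?_⟩ ⟨i, hXY i⟩
    by_contra hcon
    have h1 := hX (not_le.1 hcon).le
    rw [hXp] at h1
    have := hYX i
    linarith
  choose r hr1 hr2 using hr
  have hrr : ∀ i j, j ≤ r i ↔ X j ≤ Y i := fun i j =>
    ⟨fun h => (hX h).trans (hr1 i), fun h => hr2 i j h⟩
  refine ⟨n, v, r, hpos, hv, hsurj, ?_, ?_, ?_, ?_⟩
  · intro i j hij
    exact (hrr j (r i)).2 ((hr1 i).trans (hYm hij))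
  · intro i
    have h1 : ∀ j, j ≤ r (i + n) ↔ j ≤ r i + n := by
      intro j
      have h2 : j ≤ r i + n ↔ j - n ≤ r i := by omega
      rw [h2, hrr, hrr, hYp]
      have h3 := hXp (j - n)
      rw [sub_add_cancel] at h3
      rw [h3]
      constructor <;> intro h4 <;> linarith
    exact le_antisymm ((h1 _).1 le_rfl) ((h1 _).2 le_rfl)
  · intro i
    exact (hrr i i).2 (hXY i)
  · intro i j hij hji
    rw [hadj, hmeet i j (by exact_mod_cast hij) (by exact_mod_cast hji), ← hrr, ← hrr]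
    constructor
    · exact fun h => h.2
    · intro h3
      refine ⟨?_, h3⟩
      rw [Ne, hv]
      intro h4
      have h5 := Int.le_of_dvd (by omega) h4
      omega

end PCA38
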