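import Pool.Agent.Work.MP_38bec5_lc.P.Defs

set_option autoImplicit false

/-!
# Inv (size M): invariance under a back-and-forth system.

Let `hE : Bis G H E`.
* `bis_diag`: from `E x y x' y'` take `f` from `ext`; `E x x x' (f x)`, so `x' = f x` by `eq` (`x = x`),
  hence `E x x x' x'`; similarly `E y y (f y) y'` gives `E y y y' y'`.
* `bis_surj`: given `x', y'`: `start` gives `x` (`= f₀⁻¹ x'`) with `E x x x' x'`, then `ext` gives `f` with
  `E x z x' (f z)` for all `z`; take `y = f⁻¹ y'`.  `bis_surj'` is the mirror statement.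
* `bis_tri'`: `z = f⁻¹ z'`.
* `bis_nb`: `y = x ∨ Adj x y` by `eq`, `adj`.
* `bis_twin`, `bis_dd`: with `f` from `ext` for `E x y x' y'`: `z ∈ nb G x ↔ f z ∈ nb H x'` and
  `z ∈ nb G y ↔ f z ∈ nb H y'` (use `symm` and `bis_nb`), so `f` maps `nb G x Δ nb G y` bijectively onto
  `nb H x' Δ nb H y'` (`Set.ncard_image_of_injective`), and `nb G x = nb G y ↔ nb H x' = nb H y'`.
* `bis_S`: the four conditions of `S` one by one, with `f` from `ext` (for the last one:
  `dd G x w = dd H x' (f w)`, `dd G w y = dd H (f w) y'`, `Twin` likewise).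
* `bis_T`: induction on `k`, with `ext`.
* `bis_twin_card`, `bis_S_card`: the bijection `f` of `ext` applied to `E x x x' x'`.
-/

namespace PCA38

variable {V W : Type} {G : SimpleGraph V} {H : SimpleGraph W} {E : V → V → W → W → Prop}

theorem bis_diag (hE : Bis G H E) {x y : V} {x' y' : W} (h : E x y x' y') :
    E x x x' x' ∧ E y y y' y' := by
  obtain ⟨f, hf⟩ := hE.ext _ _ _ _ h
  constructor
  · have h1 := (hf x).1
    have h2 : x' = f x := (hE.eq _ _ _ _ h1).1 rfl
    rwa [← h2] at h1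
  · have h1 := (hf y).2
    have h2 : f y = y' := (hE.eq _ _ _ _ h1).1 rfl
    rwa [h2] at h1

theorem bis_surj (hE : Bis G H E) (x' y' : W) : ∃ x y : V, E x y x' y' := by
  obtain ⟨f₀, h0⟩ := hE.start
  have h1 := h0 (f₀.symm x')
  rw [f₀.apply_symm_apply] at h1
  obtain ⟨f, hf⟩ := hE.ext _ _ _ _ h1
  have h2 := (hf (f.symm y')).1
  rw [f.apply_symm_apply] at h2
  exact ⟨_, _, h2⟩

theorem bis_surj' (hE : Bis G H E) (x y : V) : ∃ x' y' : W, E x y x' y' := by
  obtain ⟨f₀, h0⟩ := hE.start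
  obtain ⟨f, hf⟩ := hE.ext _ _ _ _ (h0 x)
  exact ⟨_, _, (hf y).1⟩

theorem bis_tri' (hE : Bis G H E) {x y : V} {x' y' : W} (h : E x y x' y') (z' : W) :
    ∃ z, E x z x' z' ∧ E z y z' y' := by
  obtain ⟨f, hf⟩ := hE.ext _ _ _ _ h
  have h2 := hf (f.symm z')
  rw [f.apply_symm_apply] at h2
  exact ⟨_, h2⟩

theorem bis_nb (hE : Bis G H E) {x y : V} {x' y' : W} (h : E x y x' y') :
    y ∈ nb G x ↔ y' ∈ nb H x' := by
  have h1 := hE.eq _ _ _ _ h
  have h2 := hE.adj _ _ _ _ h
  constructor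
  · rintro (h3 | h3)
    · exact Or.inl (h1.1 h3.symm).symm
    · exact Or.inr (h2.1 h3)
  · rintro (h3 | h3)
    · exact Or.inl (h1.2 h3.symm).symm
    · exact Or.inr (h2.2 h3)

private theorem ext_nb (hE : Bis G H E) {x y : V} {x' y' : W} (h : E x y x' y') :
    ∃ f : V ≃ W, ∀ z, (E x z x' (f z) ∧ E z y (f z) y') ∧ (z ∈ nb G x ↔ f z ∈ nb H x') ∧
      (z ∈ nb G y ↔ f z ∈ nb H y') := by
  obtain ⟨f, hf⟩ := hE.ext _ _ _ _ h
  exact ⟨f, fun z => ⟨hf z, bis_nb hE (hf z).1, bis_nb hE (hE.symm _ _ _ _ (hf z).2)⟩⟩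

theorem bis_twin (hE : Bis G H E) {x y : V} {x' y' : W} (h : E x y x' y') :
    Twin G x y ↔ Twin H x' y' := by
  obtain ⟨f, hf⟩ := ext_nb hE h
  unfold Twin
  constructor
  · intro h1
    ext z'
    have h2 := hf (f.symm z')
    rw [f.apply_symm_apply] at h2
    rw [← h2.2.1, ← h2.2.2, h1]
  · intro h1
    ext z
    rw [(hf z).2.1, (hf z).2.2, h1]

theorem bis_dd (hE : Bis G H E) {x y : V} {x' y' : W} (h : E x y x' y') :
    dd G x y = dd H x' y' := by
  obtain ⟨f, hf⟩ := ext_nb hE h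
  unfold dd
  have h1 : symmDiff (nb H x') (nb H y') = f '' symmDiff (nb G x) (nb G y) := by
    ext z'
    rw [Set.mem_image]
    constructor
    · intro hz
      refine ⟨f.symm z', ?_, f.apply_symm_apply z'⟩
      have h2 := hf (f.symm z')
      rw [f.apply_symm_apply] at h2
      rw [Set.mem_symmDiff, h2.2.1, h2.2.2]
      exact hz
    · rintro ⟨z, hz, rfl⟩
      rw [Set.mem_symmDiff, (hf z).2.1, (hf z).2.2] at hz
      exact hz
  rw [h1, Set.ncard_image_of_injective _ f.injective]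

theorem bis_S (hE : Bis G H E) {x y : V} {x' y' : W} (h : E x y x' y') :
    S G x y ↔ S H x' y' := by
  obtain ⟨f, hf⟩ := ext_nb hE h
  unfold S
  rw [hE.adj _ _ _ _ h, bis_twin hE h, bis_dd hE h]
  refine and_congr_right fun _ => and_congr ?_ (and_congr_right fun _ => ?_)
  · constructor
    · rintro ⟨z, h1, h2⟩
      exact ⟨f z, fun h3 => h1 ((hf z).2.1.2 h3), fun h3 => h2 ((hf z).2.2.2 h3)⟩
    · rintro ⟨z', h1, h2⟩
      have h3 := hf (f.symm z')
      rw [f.apply_symm_apply] at h3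
      exact ⟨f.symm z', fun h4 => h1 (h3.2.1.1 h4), fun h4 => h2 (h3.2.2.1 h4)⟩
  · constructor
    · intro h1 w' hw'
      have h3 := hf (f.symm w')
      rw [f.apply_symm_apply] at h3
      have h4 := h1 (f.symm w') (by rw [bis_dd hE h3.1.1, bis_dd hE h3.1.2, hw'])
      rw [bis_twin hE h3.1.1, bis_twin hE h3.1.2] at h4
      exact h4
    · intro h1 w hw
      have h3 := hf w
      have h4 := h1 (f w) (by rw [← bis_dd hE h3.1.1, ← bis_dd hE h3.1.2, hw])
      rw [← bis_twin hE h3.1.1, ← bis_twin hE h3.1.2] at h4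
      exact h4

theorem bis_T (hE : Bis G H E) (k : ℕ) {x y : V} {x' y' : W} (h : E x y x' y') :
    T G k x y ↔ T H k x' y' := by
  induction k generalizing y y' with
  | zero => exact bis_twin hE h
  | succ k ih =>
    obtain ⟨f, hf⟩ := hE.ext _ _ _ _ h
    constructor
    · rintro ⟨z, h1, h2⟩
      exact ⟨f z, (ih (hf z).1).1 h1, (bis_S hE (hf z).2).1 h2⟩
    · rintro ⟨z', h1, h2⟩
      have h3 := hf (f.symm z')
      rw [f.apply_symm_apply] at h3
      exact ⟨f.symm z', (ih h3.1).2 h1, (bis_S hE h3.2).2 h2⟩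

private theorem card_of (f : V ≃ W) (A : V → Prop) (B : W → Prop) (h : ∀ z, A z ↔ B (f z)) :
    {z | A z}.ncard = {z | B z}.ncard := by
  have h1 : {z | B z} = f '' {z | A z} := by
    ext z'
    rw [Set.mem_image]
    constructor
    · intro hz
      refine ⟨f.symm z', ?_, f.apply_symm_apply z'⟩
      show A (f.symm z')
      rw [h, f.apply_symm_apply]
      exact hz
    · rintro ⟨z, hz, rfl⟩
      exact (h z).1 hz
  rw [h1, Set.ncard_image_of_injective _ f.injective]

theorem bis_twin_card (hE : Bis G H E) {x : V} {x' : W} (h : E x x x' x') :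
    {z | Twin G x z}.ncard = {z | Twin H x' z}.ncard := by
  obtain ⟨f, hf⟩ := hE.ext _ _ _ _ h
  exact card_of f _ _ fun z => bis_twin hE (hf z).1

theorem bis_S_card (hE : Bis G H E) {x : V} {x' : W} (h : E x x x' x') :
    {z | S G x z}.ncard = {z | S H x' z}.ncard := by
  obtain ⟨f, hf⟩ := hE.ext _ _ _ _ h
  exact card_of f _ _ fun z => bis_S hE (hf z).1

end PCA38
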