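import Pool.Agent.Work.MP_38bec5_lc.P.LRen

set_option autoImplicit false

/-!
# LTyp (size M): two finite graphs satisfying the same sentences of `C^3` have a `Bis`.
-/

namespace PCA38

private theorem lty_sep {X Φ : Type} [Nonempty Φ] (P : X → Φ → Prop) (neg : Φ → Φ)
    (and : Φ → Φ → Φ) (hneg : ∀ a φ, P a (neg φ) ↔ ¬ P a φ)
    (hand : ∀ a φ ψ, P a (and φ ψ) ↔ P a φ ∧ P a ψ) (c : X) (S : Finset X) :
    ∃ χ, P c χ ∧ ∀ d ∈ S, P d χ → ∀ φ, P c φ ↔ P d φ := by
  classical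
  induction S using Finset.induction_on with
  | empty =>
    obtain ⟨φ⟩ := (inferInstance : Nonempty Φ)
    by_cases h : P c φ
    · exact ⟨φ, h, by simp⟩
    · exact ⟨neg φ, (hneg c φ).2 h, by simp⟩
  | insert d S hd ih =>
    obtain ⟨χ, hχ, hS⟩ := ih
    by_cases hcd : ∀ φ, P c φ ↔ P d φ
    · refine ⟨χ, hχ, fun e he hPe => ?_⟩
      rcases Finset.mem_insert.1 he with rfl | he
      · exact hcd
      · exact hS e he hPe
    · obtain ⟨φ, h1, h2⟩ : ∃ φ, P c φ ∧ ¬ P d φ := by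
        push Not at hcd
        obtain ⟨φ, ⟨h1, h2⟩ | ⟨h1, h2⟩⟩ := hcd
        · exact ⟨φ, h1, h2⟩
        · exact ⟨neg φ, (hneg c φ).2 h1, fun h => (hneg d φ).1 h h2⟩
      refine ⟨and χ φ, (hand c χ φ).2 ⟨hχ, h1⟩, fun e he hPe => ?_⟩
      rcases Finset.mem_insert.1 he with rfl | he
      · exact absurd ((hand e χ φ).1 hPe).2 h2
      · exact hS e he ((hand e χ φ).1 hPe).1

private theorem lty_type {V W Φ : Type} [Finite V] [Finite W] [Nonempty Φ] (p : V → Φ → Prop)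
    (p' : W → Φ → Prop) (neg : Φ → Φ) (and : Φ → Φ → Φ)
    (hneg : ∀ a φ, p a (neg φ) ↔ ¬ p a φ) (hneg' : ∀ a φ, p' a (neg φ) ↔ ¬ p' a φ)
    (hand : ∀ a φ ψ, p a (and φ ψ) ↔ p a φ ∧ p a ψ)
    (hand' : ∀ a φ ψ, p' a (and φ ψ) ↔ p' a φ ∧ p' a ψ)
    (hcnt : ∀ φ, {a | p a φ}.ncard = {b | p' b φ}.ncard) :
    ∃ f : V ≃ W, ∀ a φ, p a φ ↔ p' (f a) φ := by
  classical
  have _ := Fintype.ofFinite V
  have _ := Fintype.ofFinite W
  obtain ⟨P, hPl, hPr⟩ : ∃ P : V ⊕ W → Φ → Prop, (∀ a, P (Sum.inl a) = p a) ∧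
      ∀ b, P (Sum.inr b) = p' b := ⟨Sum.elim p p', fun _ => rfl, fun _ => rfl⟩
  have hN : ∀ c φ, P c (neg φ) ↔ ¬ P c φ := by
    rintro (a | b) φ
    · rw [hPl]; exact hneg a φ
    · rw [hPr]; exact hneg' b φ
  have hA : ∀ c φ ψ, P c (and φ ψ) ↔ P c φ ∧ P c ψ := by
    rintro (a | b) φ ψ
    · rw [hPl]; exact hand a φ ψ
    · rw [hPr]; exact hand' b φ ψ
  obtain ⟨tV, htV⟩ : ∃ t : V → Set Φ, ∀ a, t a = {φ | p a φ} := ⟨fun a => {φ | p a φ}, fun _ => rfl⟩
  obtain ⟨tW, htW⟩ : ∃ t : W → Set Φ, ∀ b, t b = {φ | p' b φ} :=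
    ⟨fun b => {φ | p' b φ}, fun _ => rfl⟩
  have hK : ∀ K : Set Φ, Nonempty ({a // tV a = K} ≃ {b // tW b = K}) := by
    intro K
    have key : ∀ c : V ⊕ W, K = {φ | P c φ} → Nonempty ({a // tV a = K} ≃ {b // tW b = K}) := by
      intro c hc
      obtain ⟨χ, h1, h2⟩ := lty_sep P neg and hN hA c Finset.univ
      have e1 : ∀ a, tV a = K ↔ a ∈ {a | p a χ} := by
        intro a
        constructor
        · intro h
          have h3 : χ ∈ tV a := by rw [h, hc]; exact h1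
          rw [htV] at h3
          exact h3
        · intro h
          have h3 := h2 (Sum.inl a) (Finset.mem_univ _) (by rw [hPl]; exact h)
          rw [htV, hc]
          ext φ
          have h4 := h3 φ
          rw [hPl] at h4
          exact h4.symm
      have e2 : ∀ b, tW b = K ↔ b ∈ {b | p' b χ} := by
        intro b
        constructor
        · intro h
          have h3 : χ ∈ tW b := by rw [h, hc]; exact h1
          rw [htW] at h3
          exact h3
        · intro h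
          have h3 := h2 (Sum.inr b) (Finset.mem_univ _) (by rw [hPr]; exact h)
          rw [htW, hc]
          ext φ
          have h4 := h3 φ
          rw [hPr] at h4
          exact h4.symm
      have e3 : Nat.card {a | p a χ} = Nat.card {b | p' b χ} := hcnt χ
      obtain ⟨e4⟩ := Finite.card_eq.1 e3
      exact ⟨(Equiv.subtypeEquivRight e1).trans
        (e4.trans (Equiv.subtypeEquivRight e2).symm)⟩
    by_cases h1 : ∃ a, tV a = K
    · obtain ⟨a, ha⟩ := h1
      refine key (Sum.inl a) ?_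
      rw [hPl, ← ha, htV]
    by_cases h2 : ∃ b, tW b = K
    · obtain ⟨b, hb⟩ := h2
      refine key (Sum.inr b) ?_
      rw [hPr, ← hb, htW]
    have i1 : IsEmpty {a // tV a = K} := ⟨fun a => h1 ⟨a.1, a.2⟩⟩
    have i2 : IsEmpty {b // tW b = K} := ⟨fun b => h2 ⟨b.1, b.2⟩⟩
    exact ⟨Equiv.equivOfIsEmpty _ _⟩
  obtain ⟨e⟩ : Nonempty (∀ K : Set Φ, {a // tV a = K} ≃ {b // tW b = K}) :=
    ⟨fun K => (hK K).some⟩
  refine ⟨(Equiv.sigmaFiberEquiv tV).symm.trans
    ((Equiv.sigmaCongrRight e).trans (Equiv.sigmaFiberEquiv tW)), fun a φ => ?_⟩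
  have h1 : ((Equiv.sigmaFiberEquiv tV).symm.trans
    ((Equiv.sigmaCongrRight e).trans (Equiv.sigmaFiberEquiv tW))) a =
      ((e (tV a)) ⟨a, rfl⟩).1 := rfl
  rw [h1]
  have h2 := ((e (tV a)) ⟨a, rfl⟩).2
  generalize ((e (tV a)) ⟨a, rfl⟩).1 = b at h2 ⊢
  have h3 : φ ∈ tW b ↔ φ ∈ tV a := by rw [h2]
  rw [htW, htV] at h3
  exact h3.symm

private theorem lty_cnt_le {V W : Type} [Finite V] [Finite W] {q : V → Prop} {q' : W → Prop}
    (h : ∀ m : ℕ, (∃ A : Finset V, m + 1 ≤ A.card ∧ ∀ a ∈ A, q a) →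
      ∃ A : Finset W, m + 1 ≤ A.card ∧ ∀ a ∈ A, q' a) : {a | q a}.ncard ≤ {b | q' b}.ncard := by
  classical
  have _ := Fintype.ofFinite V
  have _ := Fintype.ofFinite W
  rcases hn : {a | q a}.ncard with _ | m
  · exact Nat.zero_le _
  · obtain ⟨B, hB, hB'⟩ := h m ⟨Finset.univ.filter q, by
      rw [Set.ncard_eq_toFinset_card'] at hn
      have : Finset.univ.filter q = {a | q a}.toFinset := by ext; simp
      rw [this, hn], by simp⟩
    refine hB.trans ?_
    have h1 : (B : Set W) ⊆ {b | q' b} := fun b hb => hB' b hb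
    have h2 := Set.ncard_le_ncard h1 (Set.toFinite _)
    rwa [Set.ncard_coe_finset] at h2

private theorem lty_cnt {V W : Type} [Finite V] [Finite W] {q : V → Prop} {q' : W → Prop}
    (h : ∀ m : ℕ, (∃ A : Finset V, m + 1 ≤ A.card ∧ ∀ a ∈ A, q a) ↔
      ∃ A : Finset W, m + 1 ≤ A.card ∧ ∀ a ∈ A, q' a) : {a | q a}.ncard = {b | q' b}.ncard :=
  le_antisymm (lty_cnt_le fun m => (h m).1) (lty_cnt_le fun m => (h m).2)

private theorem lty_models {V : Type} [Nonempty V] (G : SimpleGraph V) {φ : Fml 3}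
    (hφ : φ.IsSentence) (s : Fin 3 → V) : Models G φ ↔ Sat G φ s := by
  constructor
  · intro h
    exact h s
  · intro h t
    rw [sat_congr G φ t s (fun i hi => by
      have h0 : φ.free = ∅ := hφ
      rw [h0] at hi
      exact absurd hi (Set.notMem_empty i))]
    exact h

/-- the game relation -/
private def ltyE {V W : Type} (G : SimpleGraph V) (H : SimpleGraph W) (x y : V) (x' y' : W) :
    Prop :=
  ∀ φ : Fml 3, φ.free ⊆ {0, 1} → (Sat G φ ![x, y, x] ↔ Sat H φ ![x', y', x'])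

private theorem lty_upd {V : Type} (x y z w : V) :
    Function.update ![x, y, w] 2 z = ![x, y, z] := by
  funext i
  fin_cases i <;> rfl

private theorem lty_ext {V W : Type} [Finite V] [Finite W] (G : SimpleGraph V)
    (H : SimpleGraph W) {x y : V} {x' y' : W} (hE : ltyE G H x y x' y') :
    ∃ f : V ≃ W, ∀ z, ltyE G H x z x' (f z) ∧ ltyE G H z y (f z) y' := by
  have hne : Nonempty (Fml 3) := ⟨.eq 0 0⟩
  obtain ⟨f, hf⟩ := lty_type (Φ := Fml 3) (fun z φ => Sat G φ ![x, y, z])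
    (fun z φ => Sat H φ ![x', y', z]) Fml.neg Fml.and (fun _ _ => Iff.rfl) (fun _ _ => Iff.rfl)
    (fun _ _ _ => Iff.rfl) (fun _ _ _ => Iff.rfl) (fun φ => by
      refine lty_cnt fun m => ?_
      have h1 := hE (Fml.ex m 2 φ) (by
        intro i hi
        have h2 : i ≠ 2 := fun h => hi.2 h
        fin_cases i
        · exact Or.inl rfl
        · exact Or.inr rfl
        · exact absurd rfl h2)
      simp only [Sat, lty_upd] at h1
      exact h1)
  refine ⟨f, fun z => ⟨fun φ hφ => ?_, fun φ hφ => ?_⟩⟩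
  · have h1 := hf z (φ.ren (Equiv.swap 1 2))
    simp only [sat_ren] at h1
    have e1 : ∀ {X : Type} (G' : SimpleGraph X) (a b c : X),
        Sat G' φ (![a, b, c] ∘ (Equiv.swap (1 : Fin 3) 2)) ↔ Sat G' φ ![a, c, a] := by
      intro X G' a b c
      refine sat_congr G' φ _ _ fun i hi => ?_
      rcases hφ hi with h | h
      · rw [h]; rfl
      · rw [h]; rfl
    rw [e1, e1] at h1
    exact h1
  · have h1 := hf z (φ.ren (Equiv.swap 0 2))
    simp only [sat_ren] at h1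
    have e1 : ∀ {X : Type} (G' : SimpleGraph X) (a b c : X),
        Sat G' φ (![a, b, c] ∘ (Equiv.swap (0 : Fin 3) 2)) ↔ Sat G' φ ![c, b, c] := by
      intro X G' a b c
      refine sat_congr G' φ _ _ fun i hi => ?_
      rcases hφ hi with h | h
      · rw [h]; rfl
      · rw [h]; rfl
    rw [e1, e1] at h1
    exact h1

private theorem lty_diag {V : Type} (G : SimpleGraph V) (φ : Fml 3) (z : V) :
    Sat G (Fml.ex 0 1 (Fml.and (Fml.eq 0 1) φ)) ![z, z, z] ↔ Sat G φ ![z, z, z] := by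
  have e : ∀ a : V, Function.update ![z, z, z] 1 a = ![z, a, z] := by
    intro a
    funext i
    fin_cases i <;> rfl
  simp only [Sat, e]
  constructor
  · rintro ⟨A, hA, hA'⟩
    obtain ⟨a, ha⟩ := Finset.card_pos.1 (by omega : 0 < A.card)
    obtain ⟨h1, h2⟩ := hA' a ha
    have h3 : z = a := h1
    rw [← h3] at h2
    exact h2
  · intro h
    refine ⟨{z}, by simp, fun a ha => ?_⟩
    rw [Finset.mem_singleton] at ha
    rw [ha]
    exact ⟨rfl, h⟩

private theorem lty_start {V W : Type} [Finite V] [Nonempty V] [Finite W] [Nonempty W]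
    (G : SimpleGraph V) (H : SimpleGraph W)
    (h : ∀ φ : Fml 3, φ.IsSentence → (Models G φ ↔ Models H φ)) :
    ∃ f : V ≃ W, ∀ z, ltyE G H z z (f z) (f z) := by
  have hne : Nonempty {φ : Fml 3 // φ.free ⊆ {0}} := ⟨⟨.eq 0 0, by
    intro i hi
    rcases hi with hi | hi
    · exact hi
    · exact hi⟩⟩
  obtain ⟨v₀⟩ := (inferInstance : Nonempty V)
  obtain ⟨w₀⟩ := (inferInstance : Nonempty W)
  have hsat : ∀ {X : Type} (G' : SimpleGraph X) (φ : Fml 3), φ.free ⊆ {0} → ∀ (s : Fin 3 → X)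
      (a : X), Sat G' φ (Function.update s 0 a) ↔ Sat G' φ ![a, a, a] := by
    intro X G' φ hφ s a
    refine sat_congr G' φ _ _ fun i hi => ?_
    have h1 : i = 0 := hφ hi
    rw [h1, Function.update_self]
    rfl
  obtain ⟨f, hf⟩ := lty_type (Φ := {φ : Fml 3 // φ.free ⊆ {0}})
    (fun z φ => Sat G φ.1 ![z, z, z]) (fun z φ => Sat H φ.1 ![z, z, z])
    (fun φ => ⟨Fml.neg φ.1, φ.2⟩) (fun φ ψ => ⟨Fml.and φ.1 ψ.1, Set.union_subset φ.2 ψ.2⟩)
    (fun _ _ => Iff.rfl) (fun _ _ => Iff.rfl)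
    (fun _ _ _ => Iff.rfl) (fun _ _ _ => Iff.rfl) (fun φ => by
      refine lty_cnt fun m => ?_
      have hs : (Fml.ex m 0 φ.1).IsSentence := by
        change φ.1.free \ {0} = ∅
        exact Set.sdiff_eq_empty.2 φ.2
      have h1 := h _ hs
      rw [lty_models G hs (fun _ => v₀), lty_models H hs (fun _ => w₀)] at h1
      simp only [Sat, hsat _ φ.1 φ.2] at h1
      exact h1)
  refine ⟨f, fun z φ hφ => ?_⟩
  have h1 := hf z ⟨Fml.ex 0 1 (Fml.and (Fml.eq 0 1) φ), by
    intro i hi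
    obtain ⟨hi1, hi2⟩ := hi
    have hi3 : i ≠ 1 := fun h => hi2 h
    have hi4 : i ∈ ({0, 1} : Set (Fin 3)) := by
      rcases hi1 with h5 | h5
      · exact h5
      · exact hφ h5
    rcases hi4 with h5 | h5
    · exact h5
    · exact absurd h5 hi3⟩
  simp only [lty_diag] at h1
  exact h1

theorem bis_of_equiv {V W : Type} [Finite V] [Nonempty V] [Finite W] [Nonempty W]
    (G : SimpleGraph V) (H : SimpleGraph W)
    (h : ∀ φ : Fml 3, φ.IsSentence → (Models G φ ↔ Models H φ)) :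
    ∃ E : V → V → W → W → Prop, Bis G H E := by
  refine ⟨ltyE G H, lty_start G H h, ?_, ?_, ?_, fun x y x' y' hE => lty_ext G H hE⟩
  · intro x y x' y' hE
    exact hE (Fml.eq 0 1) (by intro i hi; exact hi)
  · intro x y x' y' hE
    exact hE (Fml.adj 0 1) (by intro i hi; exact hi)
  · intro x y x' y' hE φ hφ
    have h1 := hE (φ.ren (Equiv.swap 0 1)) (by
      rw [free_ren]
      rintro _ ⟨i, hi, rfl⟩
      rcases hφ hi with h | h
      · rw [h]; exact Or.inr rfl
      · rw [h]; exact Or.inl rfl)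
    rw [sat_ren, sat_ren] at h1
    have e1 : ∀ {X : Type} (G' : SimpleGraph X) (a b : X),
        Sat G' φ (![a, b, a] ∘ (Equiv.swap (0 : Fin 3) 1)) ↔ Sat G' φ ![b, a, b] := by
      intro X G' a b
      refine sat_congr G' φ _ _ fun i hi => ?_
      rcases hφ hi with h | h
      · rw [h]; rfl
      · rw [h]; rfl
    rw [e1, e1] at h1
    exact h1

end PCA38
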