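import Pool.Agent.Work.MP_38bec5_lc.P.LRen
import Pool.Agent.Work.MP_38bec5_lc.P.LTyp

set_option autoImplicit false

/-!
# LDef (size M): identified by the game implies definable in `C^3`.
-/

namespace PCA38

private theorem ldef_models {V : Type} [Nonempty V] (G : SimpleGraph V) {φ : Fml 3}
    (hφ : φ.IsSentence) (s : Fin 3 → V) : Models G φ ↔ Sat G φ s := by
  constructor
  · intro h
    exact h s
  · intro h t
    rw [sat_congr G φ t s (fun i hi => by
      have h0 : φ.free = ∅ := hφ
      rw [h0] at hi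
      exact absurd hi (Set.notMem_empty i))]
    exact h

private theorem ldef_ex {W : Type} [Finite W] (H : SimpleGraph W) (m : ℕ) (s : Fin 3 → W) :
    Sat H (Fml.ex m 0 (Fml.eq 0 0)) s ↔ m + 1 ≤ Nat.card W := by
  have _ := Fintype.ofFinite W
  simp only [Sat]
  constructor
  · rintro ⟨A, hA, -⟩
    refine hA.trans ?_
    rw [Nat.card_eq_fintype_card]
    exact Finset.card_le_univ A
  · intro h
    refine ⟨Finset.univ, ?_, fun a _ => trivial⟩
    rwa [Finset.card_univ, ← Nat.card_eq_fintype_card]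

private theorem ldef_free : (Fml.eq 0 0 : Fml 3).free \ {0} = ∅ := by
  change ({0, 0} : Set (Fin 3)) \ {0} = ∅
  simp

/-- the sentence which says that there are `n` elements -/
private def ldefC (n : ℕ) : Fml 3 :=
  Fml.and (Fml.ex (n - 1) 0 (Fml.eq 0 0)) (Fml.neg (Fml.ex n 0 (Fml.eq 0 0)))

private theorem ldefC_sent (n : ℕ) : (ldefC n).IsSentence := by
  change (Fml.eq 0 0 : Fml 3).free \ {0} ∪ (Fml.eq 0 0 : Fml 3).free \ {0} = ∅
  rw [ldef_free, Set.union_empty]

private theorem ldefC_models {W : Type} [Finite W] [Nonempty W] (H : SimpleGraph W) {n : ℕ}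
    (hn : 0 < n) : Models H (ldefC n) ↔ Nat.card W = n := by
  obtain ⟨w⟩ := (inferInstance : Nonempty W)
  rw [ldef_models H (ldefC_sent n) (fun _ => w)]
  change (Sat H (Fml.ex (n - 1) 0 (Fml.eq 0 0)) _ ∧ ¬ Sat H (Fml.ex n 0 (Fml.eq 0 0)) _) ↔ _
  rw [ldef_ex, ldef_ex]
  omega

private theorem ldef_sep {V : Type} [Finite V] [Nonempty V] (G : SimpleGraph V) (h : Idf G)
    {n : ℕ} (hn : 0 < n) (S : Finset (SimpleGraph (Fin n))) :
    ∃ Φ : Fml 3, Φ.IsSentence ∧ Models G Φ ∧ ∀ K ∈ S, Models K Φ → Nonempty (G ≃g K) := by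
  classical
  have hne : Nonempty (Fin n) := ⟨⟨0, hn⟩⟩
  induction S using Finset.induction_on with
  | empty =>
    have h1 : 0 < Nat.card V := Nat.card_pos
    exact ⟨ldefC (Nat.card V), ldefC_sent _, (ldefC_models G h1).2 rfl, by simp⟩
  | insert K S hK ih =>
    obtain ⟨Φ, h1, h2, h3⟩ := ih
    by_cases hiso : Nonempty (G ≃g K)
    · refine ⟨Φ, h1, h2, fun L hL hM => ?_⟩
      rcases Finset.mem_insert.1 hL with rfl | hL
      · exact hiso
      · exact h3 L hL hM
    · obtain ⟨φ, h4, h5, h6⟩ : ∃ φ : Fml 3, φ.IsSentence ∧ Models G φ ∧ ¬ Models K φ := by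
        by_contra hcon
        push Not at hcon
        obtain ⟨v⟩ := (inferInstance : Nonempty V)
        obtain ⟨w⟩ := hne
        have hne : Nonempty (Fin n) := ⟨w⟩
        obtain ⟨E, hE⟩ := bis_of_equiv G K (fun φ hφ => ⟨hcon φ hφ, fun hK => by
          by_contra hG
          have hs : (Fml.neg φ).IsSentence := hφ
          have h7 : Models G (Fml.neg φ) := by
            rw [ldef_models G hs (fun _ => v)]
            rw [ldef_models G hφ (fun _ => v)] at hG
            exact hG
          have h8 := hcon _ hs h7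
          rw [ldef_models K hs (fun _ => w)] at h8
          rw [ldef_models K hφ (fun _ => w)] at hK
          exact h8 hK⟩)
        exact hiso (h (Fin n) K E hE)
      refine ⟨Fml.and Φ φ, ?_, fun s => ⟨h2 s, h5 s⟩, fun L hL hM => ?_⟩
      · change Φ.free ∪ φ.free = ∅
        have e1 : Φ.free = ∅ := h1
        have e2 : φ.free = ∅ := h4
        rw [e1, e2, Set.union_empty]
      rcases Finset.mem_insert.1 hL with rfl | hL
      · exact absurd (fun s => (hM s).2) h6
      · exact h3 L hL fun s => (hM s).1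

theorem definable_of_idf {V : Type} [Finite V] [Nonempty V] (G : SimpleGraph V) (h : Idf G) :
    DefinableIn 3 G := by
  classical
  have hn : 0 < Nat.card V := Nat.card_pos
  have _ := Fintype.ofFinite (SimpleGraph (Fin (Nat.card V)))
  obtain ⟨Φ, h1, h2, h3⟩ := ldef_sep G h hn Finset.univ
  refine ⟨Fml.and (ldefC (Nat.card V)) Φ, ?_, fun s => ⟨(ldefC_models G hn).2 rfl s, h2 s⟩, ?_⟩
  · change (ldefC (Nat.card V)).free ∪ Φ.free = ∅
    have e1 : (ldefC (Nat.card V)).free = ∅ := ldefC_sent _
    have e2 : Φ.free = ∅ := h1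
    rw [e1, e2, Set.union_empty]
  · intro W _ _ H hM
    have hc : Nat.card W = Nat.card V := (ldefC_models H hn).1 fun s => (hM s).1
    obtain ⟨e⟩ : Nonempty (W ≃ Fin (Nat.card V)) := Finite.card_eq.1 (by simpa using hc)
    have iso : H ≃g H.comap e.symm :=
      { toEquiv := e
        map_rel_iff' := by
          intro a b
          simp [SimpleGraph.comap_adj] }
    obtain ⟨f⟩ := h3 (H.comap e.symm) (Finset.mem_univ _) (fun t => by
      have h4 := (sat_iso iso Φ (iso.symm ∘ t)).1 ((hM (iso.symm ∘ t)).2)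
      have h5 : iso ∘ (iso.symm ∘ t) = t := by
        funext i
        simp
      rw [h5] at h4
      exact h4)
    exact ⟨f.trans iso.symm⟩

end PCA38
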