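import Pool.Agent.Work.MP_38bec5_lc.P.Defs

set_option autoImplicit false

/-!
# LLow (size M): the hexagon is a proper circular-arc graph not definable in `C^k`, `k ≤ 2`.

PROOF.  `G = C_6` on `Fin 6`: `Adj i j` iff `j = i + 1 ∨ i = j + 1` (in `Fin 6`, e.g.
`SimpleGraph.cycleGraph 6` or `SimpleGraph.fromRel`).  Arcs: `s i = i / 6`, `l i = 1 / 6`.

(a) `IsPCA G`.  All arcs have the same length `1/6 < 1`; if `arc (s u) (1/6) ⊆ arc (s v) (1/6)` then
`s u ≡ s v + a`, `s u + 1/6 ≡ s v + b` with `0 ≤ a, b ≤ 1/6`; with `s u, s v` multiples of `1/6` in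
`[0, 1)` this forces `u = v` (from the two congruences modulo 1: `s u - s v = a + integer` and
`s u - s v = b - 1/6 + integer`, so `a - (b - 1/6)` is an integer in `[0, 1/3]`, hence `a = b - 1/6`,
so `a = 0`, `b = 1/6` and `s u = s v`).  Two arcs `u ≠ v` meet iff `s u + a = s v + b + integer`,
`0 ≤ a, b ≤ 1/6`, i.e. iff `(u - v) / 6` is within `1/6` of an integer iff `u - v ≡ ± 1 (mod 6)`
(both directions; the arcs are closed).  Equality in `AddCircle (1:ℝ)` is
`QuotientAddGroup.eq_iff_sub_mem` / `AddCircle.coe_eq_coe_iff_of_mem_Ico` /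
`(a : AddCircle 1) = b ↔ ∃ k : ℤ, a - b = k` (see `AddCircle.coe_eq_zero_iff`).

(b) Let `K` on `Fin 6` be two triangles (`Adj i j` iff `i ≠ j` and `i.val % 2 = j.val % 2`).  `K` is
not isomorphic to `G` (`K` contains a triangle, `G` does not: `decide` on the small type).
CLAIM: for every `k ≤ 2`, every `φ : Fml k` and all assignments `s, t : Fin k → Fin 6` with the same
atomic type (`∀ i j, (s i = s j ↔ t i = t j) ∧ (G.Adj (s i) (s j) ↔ K.Adj (t i) (t j))`) one has
`Sat G φ s ↔ Sat K φ t`.  Induction on `φ`; the case `ex m i φ`: it suffices to have a bijection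
`f : Fin 6 ≃ Fin 6` such that `update s i a` and `update t i (f a)` have the same atomic type for all
`a` (then transport the finset by `f`, resp. `f.symm`).  If `k = 1` (or `k = 0`, no formulas exist
because there is no variable) any bijection works (`s i = s i`, no loops).  If `k = 2` let `j` be the
other index and `x = s j`, `x' = t j`; we need `a = x ↔ f a = x'` and `G.Adj a x ↔ K.Adj (f a) x'`:
both graphs are 2-regular on 6 vertices, so such `f` exists (by `decide`:
`∀ x x' : Fin 6, ∃ f : Equiv.Perm (Fin 6), ...` is too big, so better: classes of sizes 1, 2, 3 on both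
sides; or exhibit `f` using the vertex-transitivity: `f a = g (a - x) + x'`-like formulas, with a
fixed table `g` for `x = 0`; for `K` translation by any element is an automorphism, also for `G`).
So `Models G φ ↔ Models K φ` for sentences (take constant assignments `s = t = const 0`), and `G` is
not definable in `C^k`: the defining sentence would hold in `K`.
-/

namespace PCA38

private def hexG : SimpleGraph (Fin 6) where
  Adj i j := j = i + 1 ∨ i = j + 1
  symm := ⟨fun _ _ h => h.symm⟩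
  loopless := ⟨by decide⟩

private def twoT : SimpleGraph (Fin 6) where
  Adj i j := i ≠ j ∧ i.val % 2 = j.val % 2
  symm := ⟨fun _ _ h => ⟨h.1.symm, h.2.symm⟩⟩
  loopless := ⟨fun i h => h.1 rfl⟩

private theorem circ_eq (x y : ℝ) :
    ((x : ℝ) : AddCircle (1 : ℝ)) = (y : AddCircle (1 : ℝ)) ↔ ∃ k : ℤ, y = x + k := by
  rw [QuotientAddGroup.eq, AddSubgroup.mem_zmultiples_iff]
  constructor
  · rintro ⟨k, hk⟩
    refine ⟨k, ?_⟩
    rw [zsmul_eq_mul, mul_one] at hk
    linarith
  · rintro ⟨k, hk⟩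
    refine ⟨k, ?_⟩
    rw [zsmul_eq_mul, mul_one, hk]
    ring

private theorem hex_sub {u v : Fin 6}
    (h : arc ((u.val : ℝ) / 6) (1 / 6) ⊆ arc ((v.val : ℝ) / 6) (1 / 6)) : u = v := by
  obtain ⟨a, ha0, ha1, ha⟩ := h ⟨0, le_rfl, by norm_num, rfl⟩
  obtain ⟨b, hb0, hb1, hb⟩ := h ⟨1 / 6, by norm_num, le_rfl, rfl⟩
  rw [circ_eq] at ha hb
  obtain ⟨k, hk⟩ := ha
  obtain ⟨m, hm⟩ := hb
  have h1 : (b - a) + ((m - k : ℤ) : ℝ) = 1 / 6 := by
    push_cast
    linarith
  have h2 : (m - k : ℤ) = 0 := by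
    have h3 : ((m - k : ℤ) : ℝ) < 1 := by linarith
    have h4 : (-1 : ℝ) < ((m - k : ℤ) : ℝ) := by linarith
    have h5 : (m - k : ℤ) < 1 := by exact_mod_cast h3
    have h6 : (-1 : ℤ) < m - k := by exact_mod_cast h4
    omega
  rw [h2] at h1
  push_cast at h1
  have ha' : a = 0 := by linarith
  rw [ha', add_zero, add_zero] at hk
  have h3 : ((u.val : ℤ) : ℝ) = (((v.val : ℤ) + 6 * k : ℤ) : ℝ) := by
    push_cast
    linarith
  have h4 : (u.val : ℤ) = (v.val : ℤ) + 6 * k := by exact_mod_cast h3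
  have h5 := u.isLt
  have h6 := v.isLt
  apply Fin.ext
  omega

private theorem hex_pca : IsPCA hexG := by
  refine ⟨fun v => (v.val : ℝ) / 6, fun _ => 1 / 6, fun _ => by norm_num, fun u v h => ?_,
    fun u v => ?_⟩
  · rw [hex_sub h]
  · have hu := u.isLt
    have hv := v.isLt
    constructor
    · intro h
      refine ⟨h.ne, ?_⟩
      rcases h with h | h
      · have h1 : v.val = (u.val + 1) % 6 := by rw [h, Fin.val_add]; rfl
        refine ⟨(((v.val : ℝ) / 6 + 0 : ℝ) : AddCircle (1 : ℝ)), ⟨1 / 6, by norm_num, le_rfl, ?_⟩,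
          ⟨0, le_rfl, by norm_num, rfl⟩⟩
        rw [circ_eq]
        obtain ⟨m, h2⟩ : ∃ m : ℕ, v.val + 6 * m = u.val + 1 := ⟨(u.val + 1) / 6, by omega⟩
        refine ⟨-(m : ℤ), ?_⟩
        have h3 : ((v.val + 6 * m : ℕ) : ℝ) = ((u.val + 1 : ℕ) : ℝ) := by rw [h2]
        push_cast at h3 ⊢
        linarith
      · have h1 : u.val = (v.val + 1) % 6 := by rw [h, Fin.val_add]; rfl
        refine ⟨(((u.val : ℝ) / 6 + 0 : ℝ) : AddCircle (1 : ℝ)), ⟨0, le_rfl, by norm_num, rfl⟩,
          ⟨1 / 6, by norm_num, le_rfl, ?_⟩⟩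
        rw [circ_eq]
        obtain ⟨m, h2⟩ : ∃ m : ℕ, u.val + 6 * m = v.val + 1 := ⟨(v.val + 1) / 6, by omega⟩
        refine ⟨-(m : ℤ), ?_⟩
        have h3 : ((u.val + 6 * m : ℕ) : ℝ) = ((v.val + 1 : ℕ) : ℝ) := by rw [h2]
        push_cast at h3 ⊢
        linarith
    · rintro ⟨hne, x, ⟨a, ha0, ha1, ha⟩, ⟨b, hb0, hb1, hb⟩⟩
      rw [← hb, circ_eq] at ha
      obtain ⟨k, hk⟩ := ha
      have h1 : (((u.val : ℤ) - v.val + 6 * k : ℤ) : ℝ) ≤ 1 := by
        push_cast
        linarith
      have h2 : (-1 : ℝ) ≤ (((u.val : ℤ) - v.val + 6 * k : ℤ) : ℝ) := by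
        push_cast
        linarith
      have h3 : (u.val : ℤ) - v.val + 6 * k ≤ 1 := by exact_mod_cast h1
      have h4 : -1 ≤ (u.val : ℤ) - v.val + 6 * k := by exact_mod_cast h2
      have h5 : u.val ≠ v.val := fun h => hne (Fin.ext h)
      have h6 : v.val = (u.val + 1) % 6 ∨ u.val = (v.val + 1) % 6 := by omega
      rcases h6 with h6 | h6
      · left
        apply Fin.ext
        rw [h6, Fin.val_add]
        rfl
      · right
        apply Fin.ext
        rw [h6, Fin.val_add]
        rfl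

private def gPerm : Equiv.Perm (Fin 6) := Equiv.swap 1 2 * Equiv.swap 4 5

private theorem key_dec : ∀ x x' a : Fin 6, (a = x ↔ gPerm (a - x) + x' = x') ∧
    ((x = a + 1 ∨ a = x + 1) ↔
      (gPerm (a - x) + x' ≠ x' ∧ (gPerm (a - x) + x').val % 2 = x'.val % 2)) := by
  decide

private theorem key_bij (x x' : Fin 6) : ∃ f : Fin 6 ≃ Fin 6, ∀ a, (a = x ↔ f a = x') ∧
    (hexG.Adj a x ↔ twoT.Adj (f a) x') :=
  ⟨(Equiv.subRight x).trans (gPerm.trans (Equiv.addRight x')), fun a => key_dec x x' a⟩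

/-- the same atomic type -/
private def SameT {k : ℕ} (s t : Fin k → Fin 6) : Prop :=
  ∀ p q, (s p = s q ↔ t p = t q) ∧ (hexG.Adj (s p) (s q) ↔ twoT.Adj (t p) (t q))

private theorem ext_bij {k : ℕ} (hk : k ≤ 2) (i : Fin k) {s t : Fin k → Fin 6} (h : SameT s t) :
    ∃ f : Fin 6 ≃ Fin 6, ∀ a, SameT (Function.update s i a) (Function.update t i (f a)) := by
  have h0 : ∃ f : Fin 6 ≃ Fin 6, ∀ j, j ≠ i → ∀ a, (a = s j ↔ f a = t j) ∧
      (hexG.Adj a (s j) ↔ twoT.Adj (f a) (t j)) := by
    by_cases hj : ∃ j, j ≠ i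
    · obtain ⟨j, hj⟩ := hj
      obtain ⟨f, hf⟩ := key_bij (s j) (t j)
      refine ⟨f, fun j' hj' a => ?_⟩
      have h1 : j' = j := by
        have h2 := j.isLt
        have h3 := j'.isLt
        have h4 := i.isLt
        have h5 : j.val ≠ i.val := fun h => hj (Fin.ext h)
        have h6 : j'.val ≠ i.val := fun h => hj' (Fin.ext h)
        apply Fin.ext
        omega
      rw [h1]
      exact hf a
    · push Not at hj
      exact ⟨Equiv.refl _, fun j hj' => absurd (hj j) hj'⟩
  obtain ⟨f, hf⟩ := h0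
  refine ⟨f, fun a p q => ?_⟩
  by_cases hp : p = i
  · by_cases hq : q = i
    · subst hp
      subst hq
      simp
    · subst hp
      rw [Function.update_self, Function.update_self, Function.update_of_ne hq,
        Function.update_of_ne hq]
      exact hf q hq a
  · by_cases hq : q = i
    · subst hq
      rw [Function.update_self, Function.update_self, Function.update_of_ne hp,
        Function.update_of_ne hp]
      obtain ⟨h1, h2⟩ := hf p hp a
      refine ⟨?_, ?_⟩
      · rw [eq_comm, h1, eq_comm]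
      · rw [SimpleGraph.adj_comm, h2, SimpleGraph.adj_comm]
    · rw [Function.update_of_ne hp, Function.update_of_ne hp, Function.update_of_ne hq,
        Function.update_of_ne hq]
      exact h p q

private theorem sat_same {k : ℕ} (hk : k ≤ 2) (φ : Fml k) :
    ∀ s t : Fin k → Fin 6, SameT s t → (Sat hexG φ s ↔ Sat twoT φ t) := by
  induction φ with
  | adj i j => exact fun s t h => (h i j).2
  | eq i j => exact fun s t h => (h i j).1
  | neg φ ih => exact fun s t h => not_congr (ih s t h)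
  | and φ ψ ih1 ih2 => exact fun s t h => and_congr (ih1 s t h) (ih2 s t h)
  | ex m i φ ih =>
    intro s t h
    obtain ⟨f, hf⟩ := ext_bij hk i h
    constructor
    · rintro ⟨A, hA, hs⟩
      refine ⟨A.map f.toEmbedding, by rwa [Finset.card_map], fun b hb => ?_⟩
      obtain ⟨a, ha, rfl⟩ := Finset.mem_map.1 hb
      exact (ih _ _ (hf a)).1 (hs a ha)
    · rintro ⟨A, hA, hs⟩
      refine ⟨A.map f.symm.toEmbedding, by rwa [Finset.card_map], fun b hb => ?_⟩
      obtain ⟨a, ha, rfl⟩ := Finset.mem_map.1 hb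
      refine (ih _ _ (hf _)).2 ?_
      show Sat twoT φ (Function.update t i (f (f.symm a)))
      rw [Equiv.apply_symm_apply]
      exact hs a ha

private theorem sat_agree {k : ℕ} {V : Type} (G : SimpleGraph V) (φ : Fml k) :
    ∀ s t : Fin k → V, (∀ i ∈ φ.free, s i = t i) → (Sat G φ s ↔ Sat G φ t) := by
  induction φ with
  | adj i j =>
    intro s t h
    show G.Adj (s i) (s j) ↔ G.Adj (t i) (t j)
    rw [h i (Or.inl rfl), h j (Or.inr rfl)]
  | eq i j =>
    intro s t h
    show s i = s j ↔ t i = t j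
    rw [h i (Or.inl rfl), h j (Or.inr rfl)]
  | neg φ ih => exact fun s t h => not_congr (ih s t h)
  | and φ ψ ih1 ih2 =>
    exact fun s t h => and_congr (ih1 s t fun i hi => h i (Or.inl hi))
      (ih2 s t fun i hi => h i (Or.inr hi))
  | ex m i φ ih =>
    intro s t h
    have h1 : ∀ a, Sat G φ (Function.update s i a) ↔ Sat G φ (Function.update t i a) := by
      intro a
      refine ih _ _ fun j hj => ?_
      by_cases hji : j = i
      · subst hji
        rw [Function.update_self, Function.update_self]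
      · rw [Function.update_of_ne hji, Function.update_of_ne hji]
        exact h j ⟨hj, hji⟩
    constructor
    · rintro ⟨A, hA, hs⟩
      exact ⟨A, hA, fun a ha => (h1 a).1 (hs a ha)⟩
    · rintro ⟨A, hA, hs⟩
      exact ⟨A, hA, fun a ha => (h1 a).2 (hs a ha)⟩

private theorem no_tri : ∀ a b c : Fin 6, ¬((b = a + 1 ∨ a = b + 1) ∧ (c = b + 1 ∨ b = c + 1) ∧
    (c = a + 1 ∨ a = c + 1)) := by
  decide

theorem six_low : ∃ G : SimpleGraph (Fin 6), IsPCA G ∧ ∀ k ≤ 2, ¬ DefinableIn k G := by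
  refine ⟨hexG, hex_pca, fun k hk h => ?_⟩
  obtain ⟨φ, hφ, hG, hall⟩ := h
  have h1 : Models twoT φ := by
    intro t
    have h2 : Sat twoT φ (fun _ => 0) := by
      refine (sat_same hk φ (fun _ => 0) (fun _ => 0) fun p q => ?_).1 (hG _)
      simp
    refine (sat_agree twoT φ t (fun _ => 0) fun i hi => ?_).2 h2
    have h3 : φ.free = ∅ := hφ
    rw [h3] at hi
    exact absurd hi (Set.notMem_empty i)
  obtain ⟨e⟩ := hall (Fin 6) twoT h1
  have h02 : hexG.Adj (e.symm 0) (e.symm 2) := e.symm.map_rel_iff.2 (by show twoT.Adj 0 2; exact ⟨by decide, rfl⟩)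
  have h24 : hexG.Adj (e.symm 2) (e.symm 4) := e.symm.map_rel_iff.2 (by show twoT.Adj 2 4; exact ⟨by decide, rfl⟩)
  have h04 : hexG.Adj (e.symm 0) (e.symm 4) := e.symm.map_rel_iff.2 (by show twoT.Adj 0 4; exact ⟨by decide, rfl⟩)
  exact no_tri _ _ _ ⟨h02, h24, h04⟩

end PCA38
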