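import Pool.Agent.Work.MP_38bec5_lc.P.Defs

set_option autoImplicit false

/-!
# LRen (size S): coincidence lemma, renaming, isomorphism invariance.

All four are inductions on `φ`.
* `sat_congr`: in the case `ex m i φ` apply the induction hypothesis to `Function.update s i a` and
  `Function.update t i a`, which agree on `φ.free` (on `i` both are `a`, elsewhere use that
  `j ∈ φ.free`, `j ≠ i` gives `j ∈ (ex m i φ).free`).
* `sat_ren`: key identity `Function.update s (σ i) a ∘ σ = Function.update (s ∘ σ) i a`.
* `free_ren`: image of a difference under a bijection.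
* `sat_iso`: transport the finset `A` along `e` (`A.map e.toEquiv.toEmbedding`) and back;
  `e ∘ Function.update s i a = Function.update (e ∘ s) i (e a)`.
-/

namespace PCA38

theorem sat_congr {k : ℕ} {V : Type} (G : SimpleGraph V) (φ : Fml k) (s t : Fin k → V)
    (h : ∀ i ∈ φ.free, s i = t i) : Sat G φ s ↔ Sat G φ t := by
  induction φ generalizing s t with
  | adj i j =>
    simp only [Sat]
    rw [h i (Or.inl rfl), h j (Or.inr rfl)]
  | eq i j =>
    simp only [Sat]
    rw [h i (Or.inl rfl), h j (Or.inr rfl)]
  | neg φ ih =>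
    simp only [Sat]
    rw [ih s t h]
  | and φ ψ ih1 ih2 =>
    simp only [Sat]
    rw [ih1 s t fun i hi => h i (Or.inl hi), ih2 s t fun i hi => h i (Or.inr hi)]
  | ex m i φ ih =>
    simp only [Sat]
    have key : ∀ a, Sat G φ (Function.update s i a) ↔ Sat G φ (Function.update t i a) := by
      intro a
      apply ih
      intro j hj
      by_cases hji : j = i
      · rw [hji, Function.update_self, Function.update_self]
      · rw [Function.update_of_ne hji, Function.update_of_ne hji]
        exact h j ⟨hj, hji⟩
    constructor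
    · rintro ⟨A, hA, hA'⟩
      exact ⟨A, hA, fun a ha => (key a).1 (hA' a ha)⟩
    · rintro ⟨A, hA, hA'⟩
      exact ⟨A, hA, fun a ha => (key a).2 (hA' a ha)⟩

theorem sat_ren {k : ℕ} {V : Type} (G : SimpleGraph V) (σ : Equiv.Perm (Fin k)) (φ : Fml k)
    (s : Fin k → V) : Sat G (φ.ren σ) s ↔ Sat G φ (s ∘ σ) := by
  induction φ generalizing s with
  | adj i j => rfl
  | eq i j => rfl
  | neg φ ih =>
    simp only [Fml.ren, Sat]
    rw [ih s]
  | and φ ψ ih1 ih2 =>
    simp only [Fml.ren, Sat]
    rw [ih1 s, ih2 s]
  | ex m i φ ih =>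
    simp only [Fml.ren, Sat]
    have key : ∀ a, Function.update s (σ i) a ∘ σ = Function.update (s ∘ σ) i a := by
      intro a
      funext j
      by_cases hji : j = i
      · rw [hji]
        simp
      · have h2 : σ j ≠ σ i := fun h => hji (σ.injective h)
        rw [Function.comp_apply, Function.update_of_ne h2, Function.update_of_ne hji]
        rfl
    constructor
    · rintro ⟨A, hA, hA'⟩
      refine ⟨A, hA, fun a ha => ?_⟩
      have := (ih _).1 (hA' a ha)
      rwa [key] at this
    · rintro ⟨A, hA, hA'⟩
      refine ⟨A, hA, fun a ha => ?_⟩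
      rw [ih, key]
      exact hA' a ha

theorem free_ren {k : ℕ} (σ : Equiv.Perm (Fin k)) (φ : Fml k) :
    (φ.ren σ).free = σ '' φ.free := by
  induction φ with
  | adj i j =>
    simp only [Fml.ren, Fml.free]
    rw [Set.image_pair]
  | eq i j =>
    simp only [Fml.ren, Fml.free]
    rw [Set.image_pair]
  | neg φ ih =>
    simp only [Fml.ren, Fml.free]
    exact ih
  | and φ ψ ih1 ih2 =>
    simp only [Fml.ren, Fml.free]
    rw [ih1, ih2, Set.image_union]
  | ex m i φ ih =>
    simp only [Fml.ren, Fml.free]
    rw [ih, Set.image_diff σ.injective, Set.image_singleton]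

private theorem sat_iso_aux {k : ℕ} {V W : Type} (e : V ≃ W) (s : Fin k → V) (i : Fin k) (a : V) :
    e ∘ Function.update s i a = Function.update (e ∘ s) i (e a) := by
  funext j
  by_cases hji : j = i
  · rw [hji]
    simp
  · rw [Function.comp_apply, Function.update_of_ne hji, Function.update_of_ne hji]
    rfl

theorem sat_iso {k : ℕ} {V W : Type} {G : SimpleGraph V} {H : SimpleGraph W} (e : G ≃g H)
    (φ : Fml k) (s : Fin k → V) : Sat G φ s ↔ Sat H φ (e ∘ s) := by
  induction φ generalizing s with
  | adj i j =>
    simp only [Sat, Function.comp_apply]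
    exact (e.map_adj_iff).symm
  | eq i j =>
    simp only [Sat, Function.comp_apply]
    exact (e.injective.eq_iff).symm
  | neg φ ih =>
    simp only [Sat]
    rw [ih s]
  | and φ ψ ih1 ih2 =>
    simp only [Sat]
    rw [ih1 s, ih2 s]
  | ex m i φ ih =>
    simp only [Sat]
    constructor
    · rintro ⟨A, hA, hA'⟩
      refine ⟨A.map e.toEquiv.toEmbedding, by rwa [Finset.card_map], fun b hb => ?_⟩
      obtain ⟨a, ha, rfl⟩ := Finset.mem_map.1 hb
      have h1 := (ih _).1 (hA' a ha)
      have h2 := sat_iso_aux e.toEquiv s i a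
      change (e : V → W) ∘ Function.update s i a = _ at h2
      rw [h2] at h1
      exact h1
    · rintro ⟨B, hB, hB'⟩
      refine ⟨B.map e.toEquiv.symm.toEmbedding, by rwa [Finset.card_map], fun a ha => ?_⟩
      obtain ⟨b, hb, rfl⟩ := Finset.mem_map.1 ha
      rw [ih]
      have h2 := sat_iso_aux e.toEquiv s i (e.toEquiv.symm b)
      change (e : V → W) ∘ Function.update s i (e.toEquiv.symm b) = _ at h2
      have h3 : (e : V → W) ∘ Function.update s i (e.toEquiv.symm.toEmbedding b) =
          Function.update (e ∘ s) i b := by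
        refine h2.trans ?_
        rw [Equiv.apply_symm_apply]
        rfl
      rw [h3]
      exact hB' b hb

end PCA38
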