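import Pool.Agent.Work.MP_38bec5_lc.P.UniA
import Pool.Agent.Work.MP_38bec5_lc.P.UniB

set_option autoImplicit false

/-!
# Uni (size S): `Idf` for disjoint unions and complements; hereditary property of `IsPCA`.

* `idf_of_components`: let `Bis G H E` and let `f` be the bijection of `start`.  For every `x`,
  `E x x (f x) (f x)`, so `bis_component` and the hypothesis give an isomorphism of the components of
  `x` and `f x`.  Conclude by `iso_of_components`.
* `idf_compl`: `Bis G H E → Bis Gᶜ Hᶜ E` (adjacency in the complement is `x ≠ y ∧ ¬ Adj x y`, use the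
  fields `eq` and `adj`), and an isomorphism `Gᶜ ≃g Hᶜ` is also an isomorphism `G ≃g H`.
* `pca_induce`: restrict the arcs to the subset.
* `idf_subsingleton`: if `V` has at most one element, the bijection of `start` is an isomorphism
  (there are no edges in `G`; `W` also has at most one element, so none in `H`).
-/

namespace PCA38

theorem idf_of_components {V : Type} [Finite V] (G : SimpleGraph V)
    (h : ∀ c : G.ConnectedComponent, Idf (G.induce c.supp)) : Idf G := by
  intro W _ H E hE
  obtain ⟨f, hf⟩ := hE.start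
  refine iso_of_components G H f fun x => ?_
  obtain ⟨E', hE'⟩ := bis_component hE (hf x)
  exact h _ _ _ E' hE'

theorem idf_compl {V : Type} (G : SimpleGraph V) (h : Idf Gᶜ) : Idf G := by
  intro W _ H E hE
  obtain ⟨φ⟩ := h W Hᶜ E ⟨hE.start, hE.eq, fun x y x' y' h1 => by
    rw [SimpleGraph.compl_adj, SimpleGraph.compl_adj, hE.adj _ _ _ _ h1]
    have h2 := hE.eq _ _ _ _ h1
    constructor
    · rintro ⟨h3, h4⟩
      exact ⟨fun h5 => h3 (h2.2 h5), h4⟩
    · rintro ⟨h3, h4⟩
      exact ⟨fun h5 => h3 (h2.1 h5), h4⟩, hE.symm, hE.ext⟩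
  refine ⟨⟨φ.toEquiv, fun {a b} => ?_⟩⟩
  have h3 : Hᶜ.Adj (φ a) (φ b) ↔ Gᶜ.Adj a b := φ.map_rel_iff
  rw [SimpleGraph.compl_adj, SimpleGraph.compl_adj] at h3
  show H.Adj (φ a) (φ b) ↔ G.Adj a b
  by_cases hab : a = b
  · rw [hab]
    exact ⟨fun h4 => (H.irrefl h4).elim, fun h4 => (G.irrefl h4).elim⟩
  · have hab' : φ a ≠ φ b := fun h4 => hab (φ.injective h4)
    constructor
    · intro h4
      by_contra h5
      exact (h3.2 ⟨hab, h5⟩).2 h4
    · intro h4
      by_contra h5
      exact (h3.1 ⟨hab', h5⟩).2 h4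

theorem pca_induce {V : Type} (G : SimpleGraph V) (h : IsPCA G) (A : Set V) :
    IsPCA (G.induce A) := by
  obtain ⟨s, l, h1, h2, h3⟩ := h
  refine ⟨fun v => s v, fun v => l v, fun v => h1 v, fun u v => h2 u v, fun u v => ?_⟩
  rw [SimpleGraph.comap_adj]
  have h4 := h3 u v
  rw [Ne, Subtype.ext_iff]
  exact h4

theorem idf_subsingleton {V : Type} [Subsingleton V] (G : SimpleGraph V) : Idf G := by
  intro W _ H E hE
  obtain ⟨f, hf⟩ := hE.start
  refine ⟨⟨f, fun {a b} => ?_⟩⟩
  rw [Subsingleton.elim a b]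
  exact ⟨fun h4 => (H.irrefl h4).elim, fun h4 => (G.irrefl h4).elim⟩

end PCA38
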