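import Pool.Agent.Work.MP_38bec5_lc.P.MainCC
import Pool.Agent.Work.MP_38bec5_lc.P.Uni
import Pool.Agent.Work.MP_38bec5_lc.P.Geo
import Pool.Agent.Work.MP_38bec5_lc.P.LDef
import Pool.Agent.Work.MP_38bec5_lc.P.LLow

set_option autoImplicit false

/-!
# Main (size S-M): every proper circular-arc graph is definable in `C^3`.

PROOF of `idf_pca` by strong induction on `Nat.card V`.  If `V` is a subsingleton: `idf_subsingleton`.
Let `V` be nontrivial.  If `G` is not connected then every connected component `c` has
`c.supp ≠ univ` (otherwise `G` is connected), so `Nat.card c.supp < Nat.card V`, `pca_induce` and the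
induction hypothesis apply; conclude by `idf_of_components`.  If `Gᶜ` is not connected: for a component
`c` of `Gᶜ`, `Idf (G.induce c.supp)` by induction, and `Gᶜ.induce c.supp = (G.induce c.supp)ᶜ`, so
`Idf (Gᶜ.induce c.supp)` by `idf_compl` (applied to the complement; double complement), so `Idf Gᶜ`
by `idf_of_components`, and `Idf G` by `idf_compl`.  If both are connected: `round_of_pca` and
`idf_round_cc`.
`main`: `idf_pca`, `definable_of_idf`, `six_low`.
-/

namespace PCA38

private theorem card_supp_lt {V : Type} [Finite V] [Nonempty V] (G : SimpleGraph V)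
    (h : ¬ G.Connected) (c : G.ConnectedComponent) : Nat.card c.supp < Nat.card V := by
  obtain ⟨x, hx⟩ : ∃ x, x ∉ c.supp := by
    by_contra hcon
    push Not at hcon
    refine h ⟨fun u v => ?_⟩
    have hu : G.connectedComponentMk u = c := (SimpleGraph.ConnectedComponent.mem_supp_iff c u).mp
      (hcon u)
    have hv : G.connectedComponentMk v = c := (SimpleGraph.ConnectedComponent.mem_supp_iff c v).mp
      (hcon v)
    exact SimpleGraph.ConnectedComponent.exact (hu.trans hv.symm)
  exact Finite.card_subtype_lt (p := fun x => x ∈ c.supp) hx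

private theorem induce_compl' {V : Type} (G : SimpleGraph V) (A : Set V) :
    Gᶜ.induce A = (G.induce A)ᶜ := by
  ext x y
  rw [SimpleGraph.compl_adj, SimpleGraph.comap_adj, SimpleGraph.compl_adj, SimpleGraph.comap_adj]
  constructor
  · rintro ⟨h1, h2⟩
    exact ⟨fun he => h1 (congrArg _ he), h2⟩
  · rintro ⟨h1, h2⟩
    exact ⟨fun he => h1 (Subtype.ext he), h2⟩

theorem idf_pca : ∀ (V : Type) [Finite V] (G : SimpleGraph V), IsPCA G → Idf G := by
  have key : ∀ k : ℕ, ∀ (V : Type) [Finite V] (G : SimpleGraph V), Nat.card V = k →
      IsPCA G → Idf G := by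
    intro k
    induction k using Nat.strong_induction_on with
    | _ k ih =>
      intro V _ G hk hP
      rcases subsingleton_or_nontrivial V with hs | hn
      · exact idf_subsingleton G
      · by_cases hc : G.Connected
        · by_cases hcc : Gᶜ.Connected
          · obtain ⟨n, v, r, R⟩ := round_of_pca G hP
            exact idf_round_cc R hc hcc
          · refine idf_compl G (idf_of_components Gᶜ fun c => ?_)
            rw [induce_compl']
            refine idf_compl _ ?_
            rw [compl_compl]
            exact ih (Nat.card c.supp) (hk ▸ card_supp_lt Gᶜ hcc c) c.supp _ rfl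
              (pca_induce G hP c.supp)
        · refine idf_of_components G fun c => ?_
          exact ih (Nat.card c.supp) (hk ▸ card_supp_lt G hc c) c.supp _ rfl
            (pca_induce G hP c.supp)
  intro V _ G hP
  exact key (Nat.card V) V G rfl hP

theorem main :
    (∀ (V : Type) [Finite V] [Nonempty V] (G : SimpleGraph V), IsPCA G → DefinableIn 3 G) ∧
      ∃ G : SimpleGraph (Fin 6), IsPCA G ∧ ∀ k ≤ 2, ¬ DefinableIn k G :=
  ⟨fun V _ _ G hP => definable_of_idf G (idf_pca V G hP), six_low⟩

end PCA38
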