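import Pool.Agent.Work.MP_38bec5_lc.P.RdC

set_option autoImplicit false

/-!
# RdD (size M): if consecutive vertices never dominate, everything is S-reachable.

PROOF.  For every `i` with `i + 1 ≤ r i`: `Reach (v i) (v (i + 1))` (twins: `T 0`; otherwise `T 1` by
`S_of_consec`).  Call `i` a gap if `r i < i + 1`, i.e. `r i = i`.
(1) If `i < j < i + n` then `i` and `j` are not both gaps.  Otherwise let
`A = {v k : i < k ≤ j}`, `B = {v k : j < k ≤ i + n}`; `A, B` partition `V` (a complete system of residues), are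
nonempty, and there is no edge between them: for `i < k ≤ j < k' ≤ i + n` an edge means
(`mem`: `k' + m n ∈ [l k, r k]`; or `Round`-like: `k' ≤ r k` or `k + n ≤ r k'`).  `k' ≤ r k ≤ r j = j` is
impossible.  `k + n ≤ r k' ≤ r (i + n) = r i + n = i + n` is impossible.  (From `mem` with
`v k' ∈ nb (v k)`: `l k ≤ k' + m n ≤ r k`; `r k ≤ r j = j < k'`, so `m ≤ -1`; then `l k ≤ k' - n`, i.e.
`l (k + n) ≤ k'`, i.e. `k + n ≤ r k'` by `gal` and `lper`: impossible.)  This contradicts
connectedness (e.g. a walk from `A` to `B` has an edge from `A` to `B`; `Reachable` induction).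
(2) So there is at most one gap modulo `n`.  If there is no gap, all `v i` are reachable from `v 0` by
going up.  If `g` is a gap, then `g + 1, ..., g + n` are linked successively (the numbers
`g + 1, ..., g + n - 1` are not gaps by (1)), and these are all vertices.
`Reach` is an equivalence relation (`reach_equiv`).
-/

namespace PCA38

variable {V : Type} {G : SimpleGraph V} {n : ℕ} {v : ℤ → V} {l r : ℤ → ℤ}

private theorem vper (D : RD G n v l r) (k m : ℤ) : v (k + m * n) = v k :=
  ((D.inj k (k + m * n)).2 ⟨m, by ring⟩).symm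

private theorem rep (D : RD G n v l r) (a : ℤ) (x : V) : ∃ k, a ≤ k ∧ k < a + n ∧ v k = x := by
  obtain ⟨k0, rfl⟩ := D.surj x
  have hn : (0 : ℤ) < n := by exact_mod_cast D.pos
  have e1 := Int.emod_add_mul_ediv (k0 - a) n
  have h0 := Int.emod_nonneg (k0 - a) hn.ne'
  have h1 := Int.emod_lt_of_pos (k0 - a) hn
  refine ⟨a + (k0 - a) % n, by omega, by omega, (D.inj _ _).2 ⟨(k0 - a) / n, ?_⟩⟩
  linarith

private theorem closed_walk {A : Set V} (hA : ∀ x y, x ∈ A → G.Adj x y → y ∈ A) {x y : V}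
    (p : G.Walk x y) (hx : x ∈ A) : y ∈ A := by
  induction p with
  | nil => exact hx
  | cons h _ ih => exact ih (hA _ _ hx h)

private theorem one_gap (D : RD G n v l r) (hc : G.Connected) {i j : ℤ} (hij : i < j)
    (hj : j < i + n) (hi : ¬ (i + 1 ≤ r i)) (hj' : ¬ (j + 1 ≤ r j)) : False := by
  have hn : (0 : ℤ) < n := by exact_mod_cast D.pos
  let A : Set V := {x | ∃ k, i < k ∧ k ≤ j ∧ v k = x}
  have hA : ∀ x y, x ∈ A → G.Adj x y → y ∈ A := by
    rintro x y ⟨k, hk1, hk2, rfl⟩ hxy
    obtain ⟨k0, rfl⟩ := D.surj y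
    obtain ⟨m, h1, h2⟩ := (D.mem k k0).1 (Or.inr hxy)
    have h3 : r k ≤ r j := D.rmono hk2
    refine ⟨k0 + m * n, ?_, by omega, vper D _ _⟩
    by_contra hcon
    have h4 : k ≤ r (k0 + m * n) := (D.gal _ _).2 h1
    have h5 : r (k0 + m * n) ≤ r i := D.rmono (by omega)
    omega
  have h1 : v (i + 1) ∈ A := ⟨i + 1, by omega, by omega, rfl⟩
  obtain ⟨p⟩ := hc.preconnected (v (i + 1)) (v (j + 1))
  obtain ⟨k, hk1, hk2, hk3⟩ := closed_walk hA p h1
  obtain ⟨m, hm⟩ := (D.inj k (j + 1)).1 hk3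
  have h2 : 0 < j + 1 - k := by omega
  have h3 : j + 1 - k < n := by omega
  have h4 : (n : ℤ) ∣ j + 1 - k := ⟨m, hm⟩
  have h5 := Int.le_of_dvd h2 h4
  omega

theorem reach_all [Finite V] (D : RD G n v l r) (hc : G.Connected)
    (hI : ∀ i, r (i + 1) + 2 ≤ l i + n) : ∀ x y, Reach G x y := by
  have step : ∀ i, i + 1 ≤ r i → Reach G (v i) (v (i + 1)) := by
    intro i hi
    by_cases ht : Twin G (v i) (v (i + 1))
    · exact ⟨0, ht⟩
    · exact ⟨1, v i, rfl, S_of_consec D i ht hi (hI i)⟩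
  have hg : ∃ g : ℤ, ∀ i, g < i → i < g + n → i + 1 ≤ r i := by
    by_cases hg : ∃ g, ¬ (g + 1 ≤ r g)
    · obtain ⟨g, hg⟩ := hg
      refine ⟨g, fun i h1 h2 => ?_⟩
      by_contra hc'
      exact one_gap D hc h1 h2 hg hc'
    · push Not at hg
      exact ⟨0, fun i _ _ => hg i⟩
  obtain ⟨g, hg⟩ := hg
  have he := reach_equiv (G := G)
  have key : ∀ i, g + 1 ≤ i → i ≤ g + n → Reach G (v (g + 1)) (v i) := by
    intro i hi
    induction i, hi using Int.leInduction with
    | base => exact fun _ => he.refl _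
    | succ i hi ih =>
      intro hin
      exact he.trans (ih (by omega)) (step i (hg i (by omega) (by omega)))
  have all : ∀ x, Reach G (v (g + 1)) x := by
    intro x
    obtain ⟨k, hk1, hk2, rfl⟩ := rep D (g + 1) x
    exact key k hk1 (by omega)
  intro x y
  exact he.trans (he.symm (all x)) (all y)

end PCA38
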