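import Pool.Agent.Work.MP_38bec5_lc.P.Met
import Pool.Agent.Work.MP_38bec5_lc.P.TRel

set_option autoImplicit false

/-!
# RdC (size M): consecutive non-twins are S-neighbours; twins are runs.

Let `D : RD G n v l r`.

`twin_of_eq`: `l i = l k`, `r i = r k` give equal neighbourhoods by `mem`.

`S_of_consec`: put `a = i`, `b = i + 1 ≤ r a`, so `l a ≤ l b ≤ a`, `r a ≤ r b`, and `hM : r b + 2 ≤ l a + n`.
Adjacency: `v b ∈ nb (v a)` (`mem`, `m = 0`) and `v a ≠ v b` (not twins).  The vertex `v (r b + 1)` is in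
neither neighbourhood: `r b < r b + 1 < l a + n ≤ l b + n`, so `r b + 1 + m n` is never in `[l a, r a]` or in
`[l b, r b]` (`m ≥ 0`: too large; `m ≤ -1`: `< l a`).
Nothing between: let `dd a w + dd w b = dd a b`, i.e. (`dd_between`) `nb a ∩ nb b ⊆ nb w ⊆ nb a ∪ nb b`.
Write `w = v k` with `i + 1 ≤ k ≤ i + n` (all residues).  If `k = i + 1` or `k = i + n` then `w = v b` or
`w = v a` and we are done.  Let `i + 1 < k < i + n`; then `l b ≤ l k ≤ l a + n`, `r b ≤ r k ≤ r a + n`
(monotone, periodic).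
(1) The integer `r b + 1` is not covered: `v (r b + 1) ∉ nb a ∪ nb b` (see above), so no integer
`r b + 1 + m n` lies in `[l k, r k]`.  Since `l k ≤ k ≤ r k`... two cases:
 - `r k ≤ r b` (hence `r k = r b`).  The point `v (l b)` is in `nb b`, and in `nb a` (`l a ≤ l b ≤ a ≤ r a`), so
   in `nb w`: `l b + m n ∈ [l k, r k]`; `m ≥ 1` is impossible (`l b + n > r b + 1 > r k`), `m ≤ -1` is
   impossible (`l b - n < l b ≤ l k`); `m = 0` gives `l k ≤ l b`, so `l k = l b` and `Twin w (v b)`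
   (`twin_of_eq`).
 - `r k > r b`, i.e. `r b + 1 ≤ r k`.  As `r b + 1 ∉ [l k, r k]`, `l k > r b + 1`.  The vertex `v (l k)` is in `nb w`,
   so in `nb a ∪ nb b`, which is the image of `[l a, r b]`: `l k + m n ∈ [l a, r b]` for some `m`.
   `m ≥ 0`: `l k ≤ l k + m n ≤ r b`, contradiction.  `m = -1`: `l k ≥ l a + n`, so `l k = l a + n`.
   `m ≤ -2`: `l k ≥ l a + 2 n > l a + n`, contradiction.  So `l k = l (a + n)`.  The point `v (r a)` is in
   `nb a`, and in `nb b` (`l b ≤ a ≤ r a ≤ r b`), so in `nb w`: `r a + m n ∈ [l k, r k] = [l a + n, r k]`.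
   `m ≤ 0` impossible (`r a < l a + n`), `m ≥ 2` impossible (`r k ≤ r a + n`), `m = 1`: `r a + n ≤ r k`, so
   `r k = r a + n = r (a + n)`, and `w = v k` is a twin of `v (a + n) = v a` (`twin_of_eq`; `v (a+n) = v a` by
   `inj`).
-/

namespace PCA38

variable {V : Type} {G : SimpleGraph V} {n : ℕ} {v : ℤ → V} {l r : ℤ → ℤ}

private theorem vper (D : RD G n v l r) (k m : ℤ) : v (k + m * n) = v k :=
  ((D.inj k (k + m * n)).2 ⟨m, by ring⟩).symm

private theorem rep (D : RD G n v l r) (a : ℤ) (x : V) : ∃ k, a ≤ k ∧ k < a + n ∧ v k = x := by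
  obtain ⟨k0, rfl⟩ := D.surj x
  have hn : (0 : ℤ) < n := by exact_mod_cast D.pos
  have e1 := Int.emod_add_mul_ediv (k0 - a) n
  have h0 := Int.emod_nonneg (k0 - a) hn.ne'
  have h1 := Int.emod_lt_of_pos (k0 - a) hn
  refine ⟨a + (k0 - a) % n, by omega, by omega, (D.inj _ _).2 ⟨(k0 - a) / n, ?_⟩⟩
  linarith

private theorem five {n : ℤ} (hn : 0 < n) (m : ℤ) :
    m * n = 0 ∨ m * n = n ∨ m * n = -n ∨ 2 * n ≤ m * n ∨ m * n ≤ -2 * n := by
  rcases (by omega : m = 0 ∨ m = 1 ∨ m = -1 ∨ 2 ≤ m ∨ m ≤ -2) with h | h | h | h | h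
  · left; rw [h]; ring
  · right; left; rw [h]; ring
  · right; right; left; rw [h]; ring
  · right; right; right; left
    exact mul_le_mul_of_nonneg_right h hn.le
  · right; right; right; right
    exact mul_le_mul_of_nonneg_right h hn.le

theorem twin_of_eq (D : RD G n v l r) {i k : ℤ} (hl : l i = l k) (hr : r i = r k) :
    Twin G (v i) (v k) := by
  unfold Twin
  ext x
  obtain ⟨a, rfl⟩ := D.surj x
  rw [D.mem, D.mem, hl, hr]

theorem S_of_consec [Finite V] (D : RD G n v l r) (i : ℤ)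
    (hnt : ¬ Twin G (v i) (v (i + 1))) (hadj : i + 1 ≤ r i) (hM : r (i + 1) + 2 ≤ l i + n) :
    S G (v i) (v (i + 1)) := by
  have hn : (0 : ℤ) < n := by exact_mod_cast D.pos
  have a1 : l i ≤ l (i + 1) := D.lmono (by omega)
  have a2 : l (i + 1) ≤ i := (D.gal _ _).1 hadj
  have a3 : r i ≤ r (i + 1) := D.rmono (by omega)
  have a4 : i ≤ r i := D.le i
  have a5 : l i ≤ i := D.ll i
  have hz1 : v (r (i + 1) + 1) ∉ nb G (v i) := by
    rw [D.mem]
    rintro ⟨m, h1, h2⟩
    rcases five hn m with h | h | h | h | h <;> omega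
  have hz2 : v (r (i + 1) + 1) ∉ nb G (v (i + 1)) := by
    rw [D.mem]
    rintro ⟨m, h1, h2⟩
    rcases five hn m with h | h | h | h | h <;> omega
  have hadj' : G.Adj (v i) (v (i + 1)) := by
    have h1 : v (i + 1) ∈ nb G (v i) := (D.mem _ _).2 ⟨0, by omega, by omega⟩
    rcases h1 with h1 | h1
    · exact absurd (by rw [h1]; rfl) hnt
    · exact h1
  refine ⟨hadj', ⟨_, hz1, hz2⟩, hnt, fun w hw => ?_⟩
  obtain ⟨h1, h2⟩ := (dd_between G _ _ _).1 hw
  obtain ⟨k, hk1, hk2, rfl⟩ := rep D (i + 1) w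
  by_cases hkb : k = i + 1
  · right
    rw [hkb]
    rfl
  by_cases hka : k = i + n
  · left
    have e : v (i + n) = v i := by
      have := vper D i 1
      rwa [one_mul] at this
    rw [hka, e]
    rfl
  have b1 : l (i + 1) ≤ l k := D.lmono (by omega)
  have b2 : l k ≤ l (i + n) := D.lmono (by omega)
  have b3 : r (i + 1) ≤ r k := D.rmono (by omega)
  have b4 : r k ≤ r (i + n) := D.rmono (by omega)
  have b5 := D.lper i
  have b6 := D.rper i
  have b7 := D.ll k
  have b8 := D.le k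
  have b9 := D.lt k
  have b10 := D.lt i
  rcases le_or_gt (r k) (r (i + 1)) with hrk | hrk
  · right
    have c1 : v (l (i + 1)) ∈ nb G (v k) := by
      refine h1 ⟨(D.mem _ _).2 ⟨0, by omega, by omega⟩, (D.mem _ _).2 ⟨0, by omega, ?_⟩⟩
      omega
    obtain ⟨m, hm1, hm2⟩ := (D.mem _ _).1 c1
    have c2 : l k = l (i + 1) := by
      rcases five hn m with h | h | h | h | h <;> omega
    exact twin_of_eq D c2 (le_antisymm hrk b3)
  · left
    have c0 : ¬ (l k ≤ r (i + 1) + 1) := by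
      intro hc
      have c1 : v (r (i + 1) + 1) ∈ nb G (v k) := (D.mem _ _).2 ⟨0, by omega, by omega⟩
      rcases h2 c1 with c2 | c2
      · exact hz1 c2
      · exact hz2 c2
    have c1 : v (l k) ∈ nb G (v k) := (D.mem _ _).2 ⟨0, by omega, by omega⟩
    have c2 : l k = l (i + n) := by
      rcases h2 c1 with c2 | c2
      · obtain ⟨m, hm1, hm2⟩ := (D.mem _ _).1 c2
        rcases five hn m with h | h | h | h | h <;> omega
      · obtain ⟨m, hm1, hm2⟩ := (D.mem _ _).1 c2
        rcases five hn m with h | h | h | h | h <;> omega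
    have c3 : v (r i) ∈ nb G (v k) :=
      h1 ⟨(D.mem _ _).2 ⟨0, by omega, by omega⟩, (D.mem _ _).2 ⟨0, by omega, by omega⟩⟩
    obtain ⟨m, hm1, hm2⟩ := (D.mem _ _).1 c3
    have c4 : r k = r (i + n) := by
      rcases five hn m with h | h | h | h | h <;> omega
    have e : v (i + n) = v i := by
      have := vper D i 1
      rwa [one_mul] at this
    have c5 := twin_of_eq D c2 c4
    rw [e] at c5
    exact Eq.symm c5

end PCA38
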