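import Pool.Agent.Work.MP_38bec5_lc.P.RdB
import Pool.Agent.Work.MP_38bec5_lc.P.RdC

set_option autoImplicit false

/-!
# RdE (size M-L): the co-bipartite case.

Let `D : RD G n v l r`.  `parts`: let `i` satisfy `l i + n ≤ r (i + 1) + 1` (negation of
`r (i+1) + 2 ≤ l i + n`) and put `p = l i + n - 1`.  Then `i + 1 ≤ p < i + n` (`l i ≥ r i + 2 - n ≥ i + 2 - n` by
`lt`, `le`; `l i ≤ i`).
(1) `i < k < k' ≤ p` implies `v k' ∈ nb (v k)`: `k' ≤ p ≤ r (i+1) ≤ r k` and `l k ≤ k`.  So the `v k`, `i < k ≤ p`,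
form a clique `A`.
(2) `p < k < k' ≤ i + n` implies `v k' ∈ nb (v k)`: `l (i + n) = l i + n = p + 1 ≤ k`, so `i + n ≤ r k` by `gal`.
So the `v k`, `p < k ≤ i + n`, form a clique; it is the complement of `A`
(`i + 1, ..., i + n` is a complete system of residues).

`two_parts`: let `A` be as above.  For `x` not adjacent to `y`, `x ≠ y` (an edge of `Gᶜ`): `x ∈ A ↔ y ∉ A`.
(3) For every `k` with `v k ∈ A ↔ v (k+1) ∈ A`: `r (k+1) + 2 ≤ l k + n`.  Otherwise (1), (2) for `k`
give another partition `A_k, A_kᶜ` of `V` into two cliques with `v (k+1) ∈ A_k` and `v k ∉ A_k`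
(`v k = v (k + n)`, `p_k < k + n`).  Along an edge `x y` of `Gᶜ`: `x ∈ A ↔ y ∉ A` and `x ∈ A_k ↔ y ∉ A_k`, so
`(x ∈ A ↔ x ∈ A_k) ↔ (y ∈ A ↔ y ∈ A_k)`; `Gᶜ` is connected, so the truth value of `x ∈ A ↔ x ∈ A_k` is the same
for all `x`.  For `x = v k` and `x = v (k+1)` it is different.  Contradiction.
(4) Hence, if `v k, v (k+1)` are in the same part then `Reach (v k) (v (k+1))`: twins or
`S_of_consec` (`k + 1 ≤ r k`: they are equal or adjacent; from `v (k+1) ∈ nb (v k)` and `mem`: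
`k + 1 + m n ∈ [l k, r k]`; `r k < k + n - 1` by `lt`, `ll`, so `m ≤ 0`; if `m ≤ -1` then `l k ≤ k + 1 - n`,
but `l k ≥ r k + 2 - n ≥ k + 2 - n`; so `m = 0`).  So all of `A` is mutually reachable
(indices `i + 1, ..., p`), and all of `Aᶜ` (indices `p + 1, ..., i + n`).
(5) Conversely `S x y` or `Twin x y` implies `x ∈ A ↔ y ∈ A`: for `S` there is `z ∉ nb x ∪ nb y`, and
`x ∈ A ↔ z ∉ A ↔ y ∈ A`.  For `Twin x y` with `x ∈ A`, `y ∉ A`: `nb x ⊇ A`, `nb y ⊇ Aᶜ` (cliques), so `nb x` is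
everything, contradicting `lt` (some vertex, e.g. `v (r t + 1)` for `x = v t`, is not in `nb x`).
By induction on `k`, `T k x y → (x ∈ A ↔ y ∈ A)`.  This proves `Reach x y ↔ (x ∈ A ↔ y ∈ A)`.
(6) Ends: `u = v (i + 1) ∈ A`, `w = v (p + 1) ∉ A`.  Let `S u y`, `S u z`.  Put `a = i + 1`.  Let `y = v j` be an
`S`-neighbour of `v a` with index `a < j < a + n`; as in `atMostTwo_of_rd`, `j ≤ r a` or `a + n ≤ r j`.
CLAIM: the second case is impossible.  `y ∈ A` by (5), so `j ≤ p` (`a < j < a + n = i + n + 1`; if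
`p < j ≤ i + n` then `y ∉ A`).  `S_run` for `j < a + n ≤ r j` (`S (v j) (v (a + n))`) and `k = a + n - 1 = i + n`:
`j ≤ p < i + n`; it says `Twin (v j) (v (i+n))` or `Twin (v (i + n)) (v (a + n))`; but `v (i + n) ∉ A` while
`v j ∈ A`, `v (a+n) = v a ∈ A`, contradiction to (5).
So both `y, z` are in the first case, and `succ_class` gives `Twin y z`.  The same argument for
`w = v (p + 1)` (predecessor index `p`, `v p ∈ A`, while `w` and its `S`-neighbours are not in `A`; indices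
`p + 1 < j < p + 1 + n`, those not in `A` satisfy `j ≤ i + n`).
-/

namespace PCA38

variable {V : Type} {G : SimpleGraph V} {n : ℕ} {v : ℤ → V} {l r : ℤ → ℤ}

private theorem vper (D : RD G n v l r) (k m : ℤ) : v (k + m * n) = v k :=
  ((D.inj k (k + m * n)).2 ⟨m, by ring⟩).symm

private theorem rep (D : RD G n v l r) (a : ℤ) (x : V) : ∃ k, a ≤ k ∧ k < a + n ∧ v k = x := by
  obtain ⟨k0, rfl⟩ := D.surj x
  have hn : (0 : ℤ) < n := by exact_mod_cast D.pos
  have e1 := Int.emod_add_mul_ediv (k0 - a) n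
  have h0 := Int.emod_nonneg (k0 - a) hn.ne'
  have h1 := Int.emod_lt_of_pos (k0 - a) hn
  refine ⟨a + (k0 - a) % n, by omega, by omega, (D.inj _ _).2 ⟨(k0 - a) / n, ?_⟩⟩
  linarith

private theorem uniq (D : RD G n v l r) {a k k' : ℤ} (h1 : a < k) (h2 : k ≤ a + n)
    (h3 : a < k') (h4 : k' ≤ a + n) (h : v k = v k') : k = k' := by
  obtain ⟨m, hm⟩ := (D.inj k k').1 h
  have hn : (0 : ℤ) < n := by exact_mod_cast D.pos
  rcases lt_trichotomy k k' with h5 | h5 | h5
  · have h6 := Int.le_of_dvd (by omega) (⟨m, hm⟩ : (n : ℤ) ∣ k' - k)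
    omega
  · exact h5
  · have h6 := Int.le_of_dvd (by omega)
      (⟨-m, by rw [mul_neg, ← hm]; ring⟩ : (n : ℤ) ∣ k - k')
    omega

/-- the first part -/
private def Pt (n : ℕ) (v : ℤ → V) (l : ℤ → ℤ) (i : ℤ) : Set V :=
  {x | ∃ k, i < k ∧ k ≤ l i + n - 1 ∧ v k = x}

private theorem p_bd (D : RD G n v l r) (i : ℤ) :
    i + 1 ≤ l i + n - 1 ∧ l i + n - 1 < i + n := by
  have h1 := D.lt i
  have h2 := D.le i
  have h3 := D.ll i
  omega

private theorem mem_Pt (D : RD G n v l r) {i k : ℤ} (h1 : i < k) (h2 : k ≤ i + n) :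
    v k ∈ Pt n v l i ↔ k ≤ l i + n - 1 := by
  have hp := p_bd D i
  constructor
  · rintro ⟨k', h3, h4, h5⟩
    have := uniq D h3 (by omega) h1 h2 h5
    omega
  · intro h
    exact ⟨k, h1, h, rfl⟩

private theorem lt_clique (D : RD G n v l r) {i : ℤ} (h : ¬ (r (i + 1) + 2 ≤ l i + n)) {k k' : ℤ}
    (h1 : i < k) (h2 : k < k') (h3 : k' ≤ l i + n - 1) : v k' ∈ nb G (v k) := by
  have h4 : r (i + 1) ≤ r k := D.rmono (by omega)
  have h5 := D.ll k
  exact (D.mem _ _).2 ⟨0, by omega, by omega⟩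

private theorem gt_clique (D : RD G n v l r) {i : ℤ} {k k' : ℤ}
    (h1 : l i + n - 1 < k) (h2 : k < k') (h3 : k' ≤ i + n) : v k' ∈ nb G (v k) := by
  have h4 := D.lper i
  have h5 : i + n ≤ r k := (D.gal _ _).2 (by omega)
  have h6 := D.ll k
  exact (D.mem _ _).2 ⟨0, by omega, by omega⟩

private theorem nb_adj {x y : V} (h : y ∈ nb G x) (hne : x ≠ y) : G.Adj x y := by
  rcases h with h | h
  · exact absurd h.symm hne
  · exact h

private theorem clique_A (D : RD G n v l r) {i : ℤ} (h : ¬ (r (i + 1) + 2 ≤ l i + n)) {x y : V}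
    (hx : x ∈ Pt n v l i) (hy : y ∈ Pt n v l i) (hne : x ≠ y) : G.Adj x y := by
  obtain ⟨k, h1, h2, rfl⟩ := hx
  obtain ⟨k', h3, h4, rfl⟩ := hy
  rcases lt_trichotomy k k' with h5 | h5 | h5
  · exact nb_adj (lt_clique D h h1 h5 h4) hne
  · exact absurd (by rw [h5]) hne
  · exact (nb_adj (lt_clique D h h3 h5 h2) hne.symm).symm

private theorem clique_B (D : RD G n v l r) {i : ℤ} {x y : V}
    (hx : x ∉ Pt n v l i) (hy : y ∉ Pt n v l i) (hne : x ≠ y) : G.Adj x y := by
  obtain ⟨k, h1, h2, rfl⟩ := rep D (i + 1) x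
  obtain ⟨k', h3, h4, rfl⟩ := rep D (i + 1) y
  rw [mem_Pt D (by omega) (by omega)] at hx hy
  rcases lt_trichotomy k k' with h5 | h5 | h5
  · exact nb_adj (gt_clique (i := i) D (by omega) h5 (by omega)) hne
  · exact absurd (by rw [h5]) hne
  · exact (nb_adj (gt_clique (i := i) D (by omega) h5 (by omega)) hne.symm).symm

private theorem walk_iff {P : V → Prop} (hP : ∀ x y, Gᶜ.Adj x y → (P x ↔ P y)) {x y : V}
    (p : Gᶜ.Walk x y) : P x ↔ P y := by
  induction p with
  | nil => exact Iff.rfl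
  | cons h _ ih => exact (hP _ _ h).trans ih

/-- two bipartitions of the complement agree -/
private theorem bip_unique (hcc : Gᶜ.Connected) {A B : Set V}
    (hA : ∀ x y, x ∈ A → y ∈ A → x ≠ y → G.Adj x y)
    (hA' : ∀ x y, x ∉ A → y ∉ A → x ≠ y → G.Adj x y)
    (hB : ∀ x y, x ∈ B → y ∈ B → x ≠ y → G.Adj x y)
    (hB' : ∀ x y, x ∉ B → y ∉ B → x ≠ y → G.Adj x y) (x y : V) :
    (x ∈ A ↔ x ∈ B) ↔ (y ∈ A ↔ y ∈ B) := by
  obtain ⟨p⟩ := hcc.preconnected x y
  refine walk_iff (P := fun x => (x ∈ A ↔ x ∈ B)) ?_ p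
  intro a b hab
  rw [SimpleGraph.compl_adj] at hab
  obtain ⟨hne, hna⟩ := hab
  have h1 : ¬ (a ∈ A ∧ b ∈ A) := fun h => hna (hA _ _ h.1 h.2 hne)
  have h2 : ¬ (a ∉ A ∧ b ∉ A) := fun h => hna (hA' _ _ h.1 h.2 hne)
  have h3 : ¬ (a ∈ B ∧ b ∈ B) := fun h => hna (hB _ _ h.1 h.2 hne)
  have h4 : ¬ (a ∉ B ∧ b ∉ B) := fun h => hna (hB' _ _ h.1 h.2 hne)
  tauto

private theorem outside (D : RD G n v l r) (x : V) : ∃ z, z ∉ nb G x := by
  obtain ⟨i, rfl⟩ := D.surj x
  have hn : (0 : ℤ) < n := by exact_mod_cast D.pos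
  have h1 := D.lt i
  refine ⟨v (r i + 1), ?_⟩
  rw [D.mem]
  rintro ⟨m, h2, h3⟩
  rcases lt_or_ge m 0 with hm | hm
  · have : m * n ≤ -1 * n := mul_le_mul_of_nonneg_right (by omega) hn.le
    omega
  · have : 0 * (n : ℤ) ≤ m * n := mul_le_mul_of_nonneg_right hm hn.le
    omega

/-- walks stay in a part -/
private theorem S_same {A : Set V}
    (hA : ∀ x y, x ∈ A → y ∈ A → x ≠ y → G.Adj x y)
    (hA' : ∀ x y, x ∉ A → y ∉ A → x ≠ y → G.Adj x y) {x y : V} (h : S G x y) :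
    x ∈ A ↔ y ∈ A := by
  obtain ⟨-, ⟨z, hz1, hz2⟩, -, -⟩ := h
  have key : ∀ x, z ∉ nb G x → (x ∈ A ↔ z ∉ A) := by
    intro x hx
    have hne : x ≠ z := fun h => hx (Or.inl h.symm)
    have hna : ¬ G.Adj x z := fun h => hx (Or.inr h)
    constructor
    · intro h1 h2
      exact hna (hA _ _ h1 h2 hne)
    · intro h1
      by_contra h2
      exact hna (hA' _ _ h2 h1 hne)
  rw [key x hz1, key y hz2]

private theorem twin_same (D : RD G n v l r) {A : Set V}
    (hA : ∀ x y, x ∈ A → y ∈ A → x ≠ y → G.Adj x y)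
    (hA' : ∀ x y, x ∉ A → y ∉ A → x ≠ y → G.Adj x y) {x y : V} (h : Twin G x y) :
    x ∈ A ↔ y ∈ A := by
  obtain ⟨z, hz1⟩ := outside D x
  have hz2 : z ∉ nb G y := by
    rw [← show nb G x = nb G y from h]
    exact hz1
  have key : ∀ x, z ∉ nb G x → (x ∈ A ↔ z ∉ A) := by
    intro x hx
    have hne : x ≠ z := fun h => hx (Or.inl h.symm)
    have hna : ¬ G.Adj x z := fun h => hx (Or.inr h)
    constructor
    · intro h1 h2
      exact hna (hA _ _ h1 h2 hne)
    · intro h1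
      by_contra h2
      exact hna (hA' _ _ h2 h1 hne)
  rw [key x hz1, key y hz2]

private theorem T_same (D : RD G n v l r) {A : Set V}
    (hA : ∀ x y, x ∈ A → y ∈ A → x ≠ y → G.Adj x y)
    (hA' : ∀ x y, x ∉ A → y ∉ A → x ≠ y → G.Adj x y) {k : ℕ} {x y : V} (h : T G k x y) :
    x ∈ A ↔ y ∈ A := by
  induction k generalizing y with
  | zero => exact twin_same D hA hA' h
  | succ k ih =>
    obtain ⟨z, hz, hzy⟩ := h
    exact (ih hz).trans (S_same hA hA' hzy)

private theorem end_of_cut [Finite V] (D : RD G n v l r) {A : Set V}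
    (hA : ∀ x y, x ∈ A → y ∈ A → x ≠ y → G.Adj x y)
    (hA' : ∀ x y, x ∉ A → y ∉ A → x ≠ y → G.Adj x y) {c : ℤ}
    (hc : ¬ (v c ∈ A ↔ v (c + 1) ∈ A)) : IsEnd G (v (c + 1)) := by
  have key : ∀ y, S G (v (c + 1)) y → ∃ j, c + 1 < j ∧ j ≤ r (c + 1) ∧ v j = y := by
    intro y hy
    obtain ⟨k, rfl⟩ := D.surj y
    obtain ⟨m, h1, h2⟩ := (D.mem (c + 1) k).1 (Or.inr hy.1)
    have hv := vper D k m
    rcases lt_trichotomy (k + m * n) (c + 1) with h | h | h
    · exfalso
      apply hc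
      rw [← hv] at hy
      have h3 : c + 1 ≤ r (k + m * n) := (D.gal _ _).2 h1
      have h4 := S_same hA hA' hy
      rcases S_run D h h3 (S_symm hy) c (by omega) (by omega) with h5 | h5
      · have h6 := twin_same D hA hA' h5
        tauto
      · exact twin_same D hA hA' h5
    · exfalso
      rw [h] at hv
      have h3 := hy.1
      rw [hv] at h3
      exact G.irrefl h3
    · exact ⟨_, h, h2, hv⟩
  intro y z hy hz
  obtain ⟨j, a1, a2, rfl⟩ := key y hy
  obtain ⟨j', b1, b2, rfl⟩ := key z hz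
  exact succ_class D a1 a2 hy b1 b2 hz

private theorem step [Finite V] (D : RD G n v l r) (hcc : Gᶜ.Connected) {A : Set V}
    (hA : ∀ x y, x ∈ A → y ∈ A → x ≠ y → G.Adj x y)
    (hA' : ∀ x y, x ∉ A → y ∉ A → x ≠ y → G.Adj x y) {k : ℤ}
    (hk : v k ∈ A ↔ v (k + 1) ∈ A) : Reach G (v k) (v (k + 1)) := by
  by_cases ht : Twin G (v k) (v (k + 1))
  · exact ⟨0, ht⟩
  have hn : (0 : ℤ) < n := by exact_mod_cast D.pos
  have hp := p_bd D k
  have hM : r (k + 1) + 2 ≤ l k + n := by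
    by_contra hcon
    have h1 : v (k + 1) ∈ Pt n v l k := (mem_Pt D (by omega) (by omega)).2 (by omega)
    have h2 : v k ∉ Pt n v l k := by
      have e : v (k + n) = v k := by
        have := vper D k 1
        rwa [one_mul] at this
      rw [← e, mem_Pt D (by omega) (by omega)]
      omega
    have h3 := bip_unique hcc hA hA' (fun x y => clique_A D hcon) (fun x y => clique_B D (i := k))
      (v k) (v (k + 1))
    tauto
  have hadj : k + 1 ≤ r k := by
    have h1 : v (k + 1) ∈ nb G (v k) := by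
      by_cases he : v k = v (k + 1)
      · exact Or.inl he.symm
      · right
        by_cases h2 : v k ∈ A
        · exact hA _ _ h2 (hk.1 h2) he
        · exact hA' _ _ h2 (fun h => h2 (hk.2 h)) he
    obtain ⟨m, h2, h3⟩ := (D.mem _ _).1 h1
    have h4 := D.lt k
    have h5 := D.ll k
    have h6 := D.le k
    rcases lt_trichotomy m 0 with hm | hm | hm
    · have : m * n ≤ -1 * n := mul_le_mul_of_nonneg_right (by omega) hn.le
      omega
    · rw [hm, zero_mul, add_zero] at h3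
      exact h3
    · have : 1 * (n : ℤ) ≤ m * n := mul_le_mul_of_nonneg_right (by omega) hn.le
      omega
  exact ⟨1, v k, rfl, S_of_consec D k ht hadj hM⟩

theorem two_parts [Finite V] (D : RD G n v l r) (hcc : Gᶜ.Connected) (i : ℤ)
    (h : ¬ (r (i + 1) + 2 ≤ l i + n)) :
    ∃ (A : Set V) (u w : V), u ∈ A ∧ w ∉ A ∧
      (∀ x y, x ∈ A → y ∈ A → x ≠ y → G.Adj x y) ∧
      (∀ x y, x ∉ A → y ∉ A → x ≠ y → G.Adj x y) ∧
      (∀ x y, Reach G x y ↔ (x ∈ A ↔ y ∈ A)) ∧ IsEnd G u ∧ IsEnd G w := by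
  have hn : (0 : ℤ) < n := by exact_mod_cast D.pos
  have hp := p_bd D i
  have hA : ∀ x y, x ∈ Pt n v l i → y ∈ Pt n v l i → x ≠ y → G.Adj x y :=
    fun x y => clique_A D h
  have hA' : ∀ x y, x ∉ Pt n v l i → y ∉ Pt n v l i → x ≠ y → G.Adj x y :=
    fun x y => clique_B D
  have m1 : v (i + 1) ∈ Pt n v l i := (mem_Pt D (by omega) (by omega)).2 (by omega)
  have m2 : v i ∉ Pt n v l i := by
    have e : v (i + n) = v i := by
      have := vper D i 1
      rwa [one_mul] at this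
    rw [← e, mem_Pt D (by omega) (by omega)]
    omega
  have m3 : v (l i + n - 1) ∈ Pt n v l i := (mem_Pt D (by omega) (by omega)).2 (by omega)
  have m4 : v (l i + n - 1 + 1) ∉ Pt n v l i := by
    rw [mem_Pt D (by omega) (by omega)]
    omega
  have he := reach_equiv (G := G)
  have k1 : ∀ k, i + 1 ≤ k → k ≤ l i + n - 1 → Reach G (v (i + 1)) (v k) := by
    intro k hk
    induction k, hk using Int.leInduction with
    | base => exact fun _ => he.refl _
    | succ k hk ih =>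
      intro hk'
      refine he.trans (ih (by omega)) (step D hcc hA hA' ?_)
      rw [mem_Pt D (by omega) (by omega), mem_Pt D (by omega) (by omega)]
      omega
  have k2 : ∀ k, l i + n ≤ k → k ≤ i + n → Reach G (v (l i + n)) (v k) := by
    intro k hk
    induction k, hk using Int.leInduction with
    | base => exact fun _ => he.refl _
    | succ k hk ih =>
      intro hk'
      refine he.trans (ih (by omega)) (step D hcc hA hA' ?_)
      rw [mem_Pt D (by omega) (by omega), mem_Pt D (by omega) (by omega)]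
      omega
  refine ⟨Pt n v l i, v (i + 1), v (l i + n - 1 + 1), m1, m4, hA, hA', ?_, ?_, ?_⟩
  · intro x y
    constructor
    · rintro ⟨k, hk⟩
      exact T_same D hA hA' hk
    · intro hxy
      obtain ⟨a, ha1, ha2, rfl⟩ := rep D (i + 1) x
      obtain ⟨b, hb1, hb2, rfl⟩ := rep D (i + 1) y
      rw [mem_Pt D (by omega) (by omega), mem_Pt D (by omega) (by omega)] at hxy
      by_cases hc : a ≤ l i + n - 1
      · exact he.trans (he.symm (k1 a ha1 hc)) (k1 b hb1 (hxy.1 hc))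
      · exact he.trans (he.symm (k2 a (by omega) (by omega)))
          (k2 b (by omega) (by omega))
  · exact end_of_cut D hA hA' (by tauto)
  · exact end_of_cut D hA hA' (by tauto)

end PCA38
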