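import Pool.Agent.Work.MP_38bec5_lc.P.RdA
import Pool.Agent.Work.MP_38bec5_lc.P.RdD
import Pool.Agent.Work.MP_38bec5_lc.P.RdE
import Pool.Agent.Work.MP_38bec5_lc.P.Anch
import Pool.Agent.Work.MP_38bec5_lc.P.AnchB
import Pool.Agent.Work.MP_38bec5_lc.P.CycD

set_option autoImplicit false

/-!
# MainCC (size S): connected and co-connected round graphs are identified.

PROOF.  No vertex is universal: `Gᶜ` is connected and `V` is nontrivial, so every `x` has a neighbour in
`Gᶜ`.  `rd_of_round` gives `l` with `RD G n v l r`.  `AtMostTwo G` by `atMostTwo_of_rd`.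
If `r (i + 1) + 2 ≤ l i + n` for all `i`, then everything is reachable (`reach_all`); if some vertex is an
end use `idf_of_end`, otherwise `idf_of_cycle`.  If the inequality fails for some `i` use `two_parts`
and `idf_of_two_ends`.
-/

namespace PCA38

theorem idf_round_cc {V : Type} [Finite V] [Nontrivial V] {G : SimpleGraph V} {n : ℕ}
    {v : ℤ → V} {r : ℤ → ℤ} (R : Round G n v r) (hc : G.Connected) (hcc : Gᶜ.Connected) :
    Idf G := by
  have hu : ∀ x, ∃ y, y ≠ x ∧ ¬ G.Adj x y := by
    intro x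
    obtain ⟨y, hy⟩ := hcc.preconnected.exists_adj_of_nontrivial x
    rw [SimpleGraph.compl_adj] at hy
    exact ⟨y, hy.1.symm, hy.2⟩
  obtain ⟨l, D⟩ := rd_of_round R hu
  have h2 : AtMostTwo G := atMostTwo_of_rd D
  by_cases hI : ∀ i, r (i + 1) + 2 ≤ l i + n
  · have hr := reach_all D hc hI
    by_cases he : ∃ u, IsEnd G u
    · obtain ⟨u, hu'⟩ := he
      exact idf_of_end G h2 hr u hu'
    · have h3 : ∀ x, ¬ IsEnd G x := fun x hx => he ⟨x, hx⟩
      exact idf_of_cycle G h2 hr h3
  · rw [not_forall] at hI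
    obtain ⟨i, hi⟩ := hI
    obtain ⟨A, u, w, huA, hwA, hA, hB, hR, hue, hwe⟩ := two_parts D hcc i hi
    exact idf_of_two_ends G h2 A u w huA hwA hA hB hR hue hwe

end PCA38
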