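import Pool.Agent.Work.MP_38bec5_lc.P.Defs

set_option autoImplicit false

/-!
# Met (size S): the distance `dd`.

* `mem_nb_comm`: symmetry of adjacency.
* `dd_comm`: `symmDiff_comm`.
* `dd_eq_zero`: `ncard = 0` iff empty (finite) iff the sets are equal.
* `dd_between`: for finite sets `A, B, C`: `|A Δ C| + |C Δ B| = |A Δ B|` iff
  `A ∩ B ⊆ C ⊆ A ∪ B`.  Reason: `A Δ B ⊆ (A Δ C) ∪ (C Δ B)`, so
  `|A Δ B| ≤ |(A Δ C) ∪ (C Δ B)| ≤ |A Δ C| + |C Δ B|`, and
  `|A Δ C| + |C Δ B| = |A Δ B| + 2 |(A Δ C) ∩ (C Δ B)|`, where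
  `(A Δ C) ∩ (C Δ B) = (C \ (A ∪ B)) ∪ ((A ∩ B) \ C)` (as `(A Δ C) Δ (C Δ B) = A Δ B`).
  So equality iff `(A Δ C) ∩ (C Δ B) = ∅` iff `C ⊆ A ∪ B` and `A ∩ B ⊆ C`.
-/

namespace PCA38

variable {V : Type} (G : SimpleGraph V)

theorem mem_nb_comm (x y : V) : y ∈ nb G x ↔ x ∈ nb G y := by
  show (y = x ∨ G.Adj x y) ↔ (x = y ∨ G.Adj y x)
  rw [G.adj_comm x y, eq_comm]

theorem dd_comm (x y : V) : dd G x y = dd G y x := by
  unfold dd
  rw [symmDiff_comm]

theorem dd_eq_zero [Finite V] (x y : V) : dd G x y = 0 ↔ Twin G x y := by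
  unfold dd Twin
  rw [Set.ncard_eq_zero (Set.toFinite _), ← Set.bot_eq_empty, symmDiff_eq_bot]

private theorem card_symm [Finite V] (P Q : Set V) :
    P.ncard + Q.ncard = (symmDiff P Q).ncard + 2 * (P ∩ Q).ncard := by
  have h1 := Set.ncard_inter_add_ncard_sdiff_eq_ncard P Q (Set.toFinite _)
  have h2 := Set.ncard_inter_add_ncard_sdiff_eq_ncard Q P (Set.toFinite _)
  have h3 : (symmDiff P Q).ncard = (P \ Q).ncard + (Q \ P).ncard :=
    Set.ncard_union_eq (Set.disjoint_left.2 (fun x hx hx' => hx'.2 hx.1)) (Set.toFinite _)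
      (Set.toFinite _)
  rw [Set.inter_comm Q P] at h2
  omega

theorem dd_between [Finite V] (x w y : V) :
    dd G x w + dd G w y = dd G x y ↔
      (nb G x ∩ nb G y ⊆ nb G w ∧ nb G w ⊆ nb G x ∪ nb G y) := by
  unfold dd
  rw [card_symm]
  have e : symmDiff (symmDiff (nb G x) (nb G w)) (symmDiff (nb G w) (nb G y)) =
      symmDiff (nb G x) (nb G y) := by
    rw [symmDiff_assoc, symmDiff_symmDiff_cancel_left]
  rw [e]
  have h1 : ((symmDiff (nb G x) (nb G y)).ncard +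
      2 * (symmDiff (nb G x) (nb G w) ∩ symmDiff (nb G w) (nb G y)).ncard =
      (symmDiff (nb G x) (nb G y)).ncard) ↔
      (symmDiff (nb G x) (nb G w) ∩ symmDiff (nb G w) (nb G y)).ncard = 0 := by omega
  rw [h1, Set.ncard_eq_zero (Set.toFinite _)]
  constructor
  · intro h
    constructor
    · rintro z ⟨hz1, hz2⟩
      by_contra hz
      have : z ∈ symmDiff (nb G x) (nb G w) ∩ symmDiff (nb G w) (nb G y) :=
        ⟨Or.inl ⟨hz1, hz⟩, Or.inr ⟨hz2, hz⟩⟩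
      rw [h] at this
      exact this
    · intro z hz
      by_contra hzc
      have : z ∈ symmDiff (nb G x) (nb G w) ∩ symmDiff (nb G w) (nb G y) :=
        ⟨Or.inr ⟨hz, fun h' => hzc (Or.inl h')⟩, Or.inl ⟨hz, fun h' => hzc (Or.inr h')⟩⟩
      rw [h] at this
      exact this
  · rintro ⟨h2, h3⟩
    rw [Set.eq_empty_iff_forall_notMem]
    rintro z ⟨hz1 | hz1, hz2 | hz2⟩
    · exact hz1.2 hz2.1
    · exact hz1.2 (h2 ⟨hz1.1, hz2.1⟩)
    · rcases h3 hz1.1 with h | h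
      · exact hz1.2 h
      · exact hz2.2 h
    · exact hz2.2 hz1.1

end PCA38
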