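import Pool.Agent.Work.MP_38bec5_lc.P.Defs

set_option autoImplicit false

/-!
# RdA (size M): round data of a graph without universal vertices.

PROOF.  `n ≥ 2` (otherwise `V` has one element and `hu` fails; not really needed).
(1) No double overlap: there are no `i < j < i + n` with `j ≤ r i` and `i + n ≤ r j`.  Otherwise `v i` is
universal: let `y ≠ v i`, `y = v k` with `i < k < i + n` (surjectivity, periodicity).  If `k < j`: `k ≤ j ≤ r i`,
adjacent.  If `k = j` adjacent.  If `k > j`: `i + n ≤ r j ≤ r k`, adjacent.  Contradiction to `hu`.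
(2) `r i < i + n`: if `i + n ≤ r i` then every `k` with `i < k < i + n` has `k ≤ r i`, `v i` universal.
(3) Put `l j` = the least `i` with `j ≤ r i`.  It exists: `j ≤ r j`, and `j ≤ r i` fails for `i ≤ j - n`
(`r (j - n) = r j - n < j`, monotone).  So `j ≤ r i ↔ l j ≤ i` (`r` monotone): `gal`; `l` monotone,
`l (j + n) = l j + n`, `l j ≤ j`, `j - n < l j`.
(4) `r i < l i + n`: otherwise put `k = l i + n ≤ r i`; `k ≤ i + n`, `k > i`.  If `k = i + n` this contradicts
(2).  Otherwise `i < k < i + n`, `k ≤ r i`, and `i + n ≤ r k` because `l (i + n) = l i + n ≤ k`;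
contradiction to (1).
(5) `mem`.  The elements of `nb (v i)` other than `v i` are the `v k`, `i < k < i + n`, with `k ≤ r i` or
`i + n ≤ r k`, i.e. `k ≤ r i` or `l i + n ≤ k`.  So `nb (v i)` = the `v k` with `k ∈ [i, r i]` or
`k - n ∈ [l i, i)`, i.e. the image of `[l i, r i]`; for a general `k` reduce modulo `n`.
(6) `lt`: `r i + 1 < l i + n`, i.e. `[l i, r i]` has at most `n - 1` elements.  By (4)
`r i + 1 ≤ l i + n`.  If `r i + 1 = l i + n` then `[l i, r i]` has `n` consecutive elements, so by (5)
`nb (v i)` is everything and `v i` is universal, a contradiction.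
-/

namespace PCA38

private theorem rep {V : Type} {G : SimpleGraph V} {n : ℕ} {v : ℤ → V} {r : ℤ → ℤ}
    (R : Round G n v r) (a : ℤ) (x : V) : ∃ k, a ≤ k ∧ k < a + n ∧ v k = x := by
  obtain ⟨k0, rfl⟩ := R.surj x
  have hn : (0 : ℤ) < n := by exact_mod_cast R.pos
  have e1 := Int.emod_add_mul_ediv (k0 - a) n
  have h0 := Int.emod_nonneg (k0 - a) hn.ne'
  have h1 := Int.emod_lt_of_pos (k0 - a) hn
  refine ⟨a + (k0 - a) % n, by omega, by omega, (R.inj _ _).2 ⟨(k0 - a) / n, ?_⟩⟩
  linarith

private theorem rper_mul {V : Type} {G : SimpleGraph V} {n : ℕ} {v : ℤ → V} {r : ℤ → ℤ}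
    (R : Round G n v r) (i : ℤ) (M : ℕ) : r (i + M * n) = r i + M * n := by
  induction M with
  | zero => simp
  | succ M ih =>
    have e : i + ((M + 1 : ℕ) : ℤ) * n = (i + M * n) + n := by
      push_cast
      ring
    rw [e, R.per, ih]
    push_cast
    ring

private theorem adjZ {V : Type} {G : SimpleGraph V} {n : ℕ} {v : ℤ → V} {r : ℤ → ℤ}
    (R : Round G n v r) (i j : ℤ) (hij : i < j) (hj : j < i + n) :
    G.Adj (v i) (v j) ↔ j ≤ r i ∨ i + n ≤ r j := by
  have hn : (1 : ℤ) ≤ n := by exact_mod_cast R.pos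
  have hM : (0 : ℤ) ≤ i + (i.natAbs : ℤ) * n := by
    have h1 : ((i.natAbs : ℤ)) * 1 ≤ (i.natAbs : ℤ) * n :=
      mul_le_mul_of_nonneg_left hn (by omega)
    omega
  have vp : ∀ k : ℤ, v (k + (i.natAbs : ℤ) * n) = v k := fun k =>
    ((R.inj k (k + (i.natAbs : ℤ) * n)).2 ⟨i.natAbs, by ring⟩).symm
  have r1 := rper_mul R i i.natAbs
  have r2 := rper_mul R j i.natAbs
  obtain ⟨a, ha⟩ := Int.eq_ofNat_of_zero_le hM
  obtain ⟨b, hb⟩ := Int.eq_ofNat_of_zero_le (show (0 : ℤ) ≤ j + (i.natAbs : ℤ) * n by omega)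
  have h := R.adj a b (by omega) (by omega)
  rw [← ha, ← hb, vp, vp, r1, r2] at h
  rw [h]
  constructor
  · rintro (h1 | h1)
    · left; omega
    · right; omega
  · rintro (h1 | h1)
    · left; omega
    · right; omega

theorem rd_of_round {V : Type} {G : SimpleGraph V} {n : ℕ} {v : ℤ → V} {r : ℤ → ℤ}
    (R : Round G n v r) (hu : ∀ x, ∃ y, y ≠ x ∧ ¬ G.Adj x y) :
    ∃ l : ℤ → ℤ, RD G n v l r := by
  have hn : (0 : ℤ) < n := by exact_mod_cast R.pos
  have h1 : ∀ i j : ℤ, i < j → j < i + n → j ≤ r i → i + n ≤ r j → False := by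
    intro i j hij hj ha hb
    obtain ⟨y, hy1, hy2⟩ := hu (v i)
    obtain ⟨k, hk1, hk2, rfl⟩ := rep R i y
    have hki : k ≠ i := fun h => hy1 (by rw [h])
    have hik : i < k := lt_of_le_of_ne hk1 (Ne.symm hki)
    apply hy2
    rw [adjZ R i k hik hk2]
    rcases le_total k j with h | h
    · exact Or.inl (h.trans ha)
    · exact Or.inr (hb.trans (R.mono h))
  have h2 : ∀ i, r i < i + n := by
    intro i
    by_contra hc
    obtain ⟨y, hy1, hy2⟩ := hu (v i)
    obtain ⟨k, hk1, hk2, rfl⟩ := rep R i y
    have hki : k ≠ i := fun h => hy1 (by rw [h])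
    have hik : i < k := lt_of_le_of_ne hk1 (Ne.symm hki)
    exact hy2 ((adjZ R i k hik hk2).2 (Or.inl (by omega)))
  have hrper' : ∀ i, r (i - n) = r i - n := by
    intro i
    have := R.per (i - n)
    rw [sub_add_cancel] at this
    omega
  have hex : ∀ j : ℤ, ∃ i : ℤ, j ≤ r i ∧ ∀ z, j ≤ r z → i ≤ z := by
    intro j
    refine Int.exists_least_of_bdd (P := fun i => j ≤ r i) ⟨j - n, fun z hz => ?_⟩ ⟨j, R.le j⟩
    by_contra hc
    have h3 : r z ≤ r (j - n) := R.mono (by omega)
    have h4 := hrper' j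
    have h5 := h2 j
    omega
  choose l hl1 hl2 using hex
  have gal : ∀ i j, j ≤ r i ↔ l j ≤ i := fun i j =>
    ⟨fun h => hl2 j i h, fun h => (hl1 j).trans (R.mono h)⟩
  have lmono : Monotone l := by
    intro a b hab
    rw [← gal]
    exact hab.trans (hl1 b)
  have lper : ∀ i, l (i + n) = l i + n := by
    intro j
    apply le_antisymm
    · rw [← gal, R.per]
      have := hl1 j
      omega
    · have h3 : l j ≤ l (j + n) - n := by
        rw [← gal, hrper']
        have := hl1 (j + n)
        omega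
      omega
  have ll : ∀ i, l i ≤ i := fun i => (gal i i).1 (R.le i)
  have lgt : ∀ i, i - n < l i := by
    intro i
    by_contra hc
    have h3 : i ≤ r (i - n) := (gal _ _).2 (by omega)
    have h4 := hrper' i
    have h5 := h2 i
    omega
  have h4 : ∀ i, r i < l i + n := by
    intro i
    by_contra hc
    have h5 := ll i
    have h6 := lgt i
    have h7 := h2 i
    by_cases hk : l i + n = i + n
    · omega
    · refine h1 i (l i + n) (by omega) (by omega) (by omega) ?_
      rw [gal, lper]
  have vper : ∀ k m : ℤ, v (k + m * n) = v k := fun k m =>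
    ((R.inj k (k + m * n)).2 ⟨m, by ring⟩).symm
  have mem : ∀ i k, v k ∈ nb G (v i) ↔ ∃ m : ℤ, l i ≤ k + m * n ∧ k + m * n ≤ r i := by
    intro i k
    have a1 := ll i
    have a2 := R.le i
    have a3 := h2 i
    have a4 := lgt i
    constructor
    · intro h
      rcases h with h | h
      · obtain ⟨m, hm⟩ := (R.inj k i).1 h
        refine ⟨m, ?_⟩
        have e : k + m * n = i := by
          rw [mul_comm] at hm
          omega
        omega
      · obtain ⟨k', hk1, hk2, hk3⟩ := rep R i (v k)
        obtain ⟨m, hm⟩ := (R.inj k k').1 hk3.symm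
        have e : k + m * n = k' := by
          rw [mul_comm] at hm
          omega
        rw [← hk3] at h
        have hne : k' ≠ i := by
          rintro rfl
          exact G.irrefl h
        rcases (adjZ R i k' (by omega) hk2).1 h with h5 | h5
        · exact ⟨m, by omega, by omega⟩
        · refine ⟨m - 1, ?_⟩
          have e2 : k + (m - 1) * n = k' - n := by
            rw [← e]
            ring
          have h6 : l (i + n) ≤ k' := (gal _ _).1 h5
          rw [lper] at h6
          omega
    · rintro ⟨m, hm1, hm2⟩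
      have hv := vper k m
      rw [← hv]
      rcases lt_trichotomy (k + m * n) i with h | h | h
      · right
        have h5 : v (k + m * n + n) = v (k + m * n) := by
          have := vper (k + m * n) 1
          rwa [one_mul] at this
        rw [← h5, adjZ R i _ (by omega) (by omega), R.per]
        have h6 := (gal (k + m * n) i).2 hm1
        right
        omega
      · left
        rw [h]
      · right
        rw [adjZ R i _ h (by omega)]
        exact Or.inl hm2
  refine ⟨l, R.pos, R.inj, R.surj, R.mono, lmono, R.per, lper, gal, R.le, ll, ?_, mem⟩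
  intro i
  have h5 := h4 i
  by_contra hc
  obtain ⟨y, hy1, hy2⟩ := hu (v i)
  obtain ⟨k, hk1, hk2, rfl⟩ := rep R (l i) y
  rcases (mem i k).2 ⟨0, by omega, by omega⟩ with h6 | h6
  · exact hy1 h6
  · exact hy2 h6

end PCA38
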