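import Pool.Agent.Work.MP_38bec5_lc.P.Met
import Pool.Agent.Work.MP_38bec5_lc.P.TRel

set_option autoImplicit false

/-!
# RdB (size M): every vertex has at most two classes of S-neighbours.

Let `D : RD G n v l r`.  Useful: for `i < j ≤ r i`: `l i ≤ l j ≤ i < j ≤ r i ≤ r j` (`gal`, monotone).

`S_run`: let `i < j ≤ r i`, `S (v i) (v j)`, `i ≤ k ≤ j`.  There is `z = v t` outside `nb (v i)` and
`nb (v j)`.  Choose the index `t` with `r i < t < l i + n` (the `n` consecutive integers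
`l i, ..., l i + n - 1` represent all residues; those in `[l i, r i]` are in `nb (v i)`).
CLAIM `t > r j`, hence (a) `r j + 1 < l i + n`.  Otherwise `t ≤ r j`; and `l j ≤ i ≤ r i < t`, so `t ∈ [l j, r j]`
and `z ∈ nb (v j)`, a contradiction.
(b) `nb (v i) ∩ nb (v j) ⊆ nb (v k)`: let `x = v a` with `a ∈ [l i, r i]`, `a + m n ∈ [l j, r j]`.  If `m = 0`:
`a ∈ [l j, r i] ⊆ [l k, r k]`.  If `m ≥ 1`: `a + n ≤ a + m n ≤ r j < l i + n - 1`, so `a < l i`,
contradiction.  If `m ≤ -1`: `l j ≤ a + m n ≤ a - n ≤ r i - n < l i ≤ l j` (by `lt`), contradiction.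
(c) `nb (v k) ⊆ nb (v i) ∪ nb (v j)`: `[l k, r k] ⊆ [l i, r j] = [l i, r i] ∪ [l j, r j]` as `l j ≤ i ≤ r i`.
By `dd_between`, `dd (v i) (v k) + dd (v k) (v j) = dd (v i) (v j)`, and `S` gives the conclusion.

`succ_class`: WLOG `j ≤ j'`.  `j = j'` trivial.  `S_run` for `(i, j')` with `k = j`: `Twin (v i) (v j)`
(excluded by `S (v i) (v j)`) or `Twin (v j) (v j')`.
`pred_class`: WLOG `i ≤ i'`; note `i < i' < j ≤ r i`.  `S_run` for `(i, j)` with `k = i'`:
`Twin (v i) (v i')` or `Twin (v i') (v j)` (excluded).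

`atMostTwo_of_rd`: let `x = v i`.  For an `S`-neighbour `y` of `x` choose its index `j` with
`i < j < i + n` (`y ≠ x`; surjectivity and periodicity).  Since `y ∈ nb (v i)`, `mem` gives `m` with
`j + m n ∈ [l i, r i]`, and `i - n < l i`, `r i < i + n` force `m = 0` (`j ≤ r i`) or `m = -1`
(`l i ≤ j - n`, i.e. `l (i + n) ≤ j`, i.e. `i + n ≤ r j`).  In the first case `y` is type + at index
`i`; in the second case `S (v j) (v (i + n))` with `j < i + n ≤ r j`: type -.  Among three neighbours two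
have the same type; two of type + are twins by `succ_class`, two of type - by `pred_class` (with common
index `i + n`).
-/

namespace PCA38

variable {V : Type} {G : SimpleGraph V} {n : ℕ} {v : ℤ → V} {l r : ℤ → ℤ}

private theorem vper (D : RD G n v l r) (k m : ℤ) : v (k + m * n) = v k :=
  ((D.inj k (k + m * n)).2 ⟨m, by ring⟩).symm

private theorem mem0 (D : RD G n v l r) {i a : ℤ} (h1 : l i ≤ a) (h2 : a ≤ r i) :
    v a ∈ nb G (v i) := (D.mem i a).2 ⟨0, by simpa using h1, by simpa using h2⟩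

theorem S_run [Finite V] (D : RD G n v l r) {i j : ℤ} (hij : i < j) (hj : j ≤ r i)
    (hS : S G (v i) (v j)) (k : ℤ) (hk : i ≤ k) (hk' : k ≤ j) :
    Twin G (v i) (v k) ∨ Twin G (v k) (v j) := by
  have hn : (0 : ℤ) < n := by exact_mod_cast D.pos
  have hli : l i ≤ l j := D.lmono hij.le
  have hlj : l j ≤ i := (D.gal i j).1 hj
  have hri : i ≤ r i := D.le i
  have hlk : l i ≤ l k := D.lmono hk
  have hlkj : l k ≤ l j := D.lmono hk'
  have hrk : r i ≤ r k := D.rmono hk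
  have hrkj : r k ≤ r j := D.rmono hk'
  have hlt : r i + 2 ≤ l i + n := D.lt i
  have ha : r j + 1 < l i + n := by
    obtain ⟨z, hz1, hz2⟩ := hS.2.1
    obtain ⟨t0, rfl⟩ := D.surj z
    have e1 : l i + (t0 - l i) % n = t0 + (-((t0 - l i) / n)) * n := by
      have := Int.emod_add_mul_ediv (t0 - l i) n
      linarith
    have h0 := Int.emod_nonneg (t0 - l i) hn.ne'
    have h1 := Int.emod_lt_of_pos (t0 - l i) hn
    set t : ℤ := l i + (t0 - l i) % n with ht
    have hv : v t = v t0 := by rw [e1]; exact vper D _ _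
    rw [← hv] at hz1 hz2
    have h2 : r i < t := by
      by_contra hc
      exact hz1 (mem0 D (by omega) (by omega))
    have h3 : r j < t := by
      by_contra hc
      exact hz2 (mem0 D (by omega) (by omega))
    omega
  refine hS.2.2.2 (v k) ((dd_between G (v i) (v k) (v j)).2 ⟨?_, ?_⟩)
  · rintro x ⟨hx1, hx2⟩
    obtain ⟨a0, rfl⟩ := D.surj x
    obtain ⟨m1, h1, h2⟩ := (D.mem i a0).1 hx1
    obtain ⟨m2, h3, h4⟩ := (D.mem j a0).1 hx2
    have e : a0 + m2 * n = (a0 + m1 * n) + (m2 - m1) * n := by ring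
    rw [e] at h3 h4
    rcases lt_trichotomy (m2 - m1) 0 with hm | hm | hm
    · have : (m2 - m1) * n ≤ -1 * n := mul_le_mul_of_nonneg_right (by omega) hn.le
      omega
    · rw [hm, zero_mul, add_zero] at h3 h4
      exact (D.mem k a0).2 ⟨m1, by omega, by omega⟩
    · have : 1 * (n : ℤ) ≤ (m2 - m1) * n := mul_le_mul_of_nonneg_right (by omega) hn.le
      omega
  · intro x hx
    obtain ⟨a0, rfl⟩ := D.surj x
    obtain ⟨m, h1, h2⟩ := (D.mem k a0).1 hx
    by_cases hc : a0 + m * n ≤ r i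
    · exact Or.inl ((D.mem i a0).2 ⟨m, by omega, hc⟩)
    · exact Or.inr ((D.mem j a0).2 ⟨m, by omega, by omega⟩)

theorem succ_class [Finite V] (D : RD G n v l r) {i j j' : ℤ} (hij : i < j) (hj : j ≤ r i)
    (hS : S G (v i) (v j)) (hij' : i < j') (hj' : j' ≤ r i) (hS' : S G (v i) (v j')) :
    Twin G (v j) (v j') := by
  rcases le_total j j' with h | h
  · rcases S_run D hij' hj' hS' j hij.le h with h1 | h1
    · exact absurd h1 hS.2.2.1
    · exact h1
  · rcases S_run D hij hj hS j' hij'.le h with h1 | h1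
    · exact absurd h1 hS'.2.2.1
    · exact Eq.symm h1

theorem pred_class [Finite V] (D : RD G n v l r) {i i' j : ℤ} (hij : i < j) (hj : j ≤ r i)
    (hS : S G (v i) (v j)) (hij' : i' < j) (hj' : j ≤ r i') (hS' : S G (v i') (v j)) :
    Twin G (v i) (v i') := by
  rcases le_total i i' with h | h
  · rcases S_run D hij hj hS i' h hij'.le with h1 | h1
    · exact h1
    · exact absurd h1 hS'.2.2.1
  · rcases S_run D hij' hj' hS' i h hij.le with h1 | h1
    · exact Eq.symm h1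
    · exact absurd h1 hS.2.2.1

theorem atMostTwo_of_rd [Finite V] (D : RD G n v l r) : AtMostTwo G := by
  intro x y₁ y₂ y₃ h₁ h₂ h₃
  obtain ⟨i, rfl⟩ := D.surj x
  have key : ∀ y, S G (v i) y → (∃ j, i < j ∧ j ≤ r i ∧ v j = y) ∨
      ∃ j, j < i ∧ i ≤ r j ∧ v j = y := by
    intro y hy
    obtain ⟨k, rfl⟩ := D.surj y
    obtain ⟨m, h1, h2⟩ := (D.mem i k).1 (Or.inr hy.1)
    have hv := vper D k m
    rcases lt_trichotomy (k + m * n) i with h | h | h
    · exact Or.inr ⟨_, h, (D.gal _ _).2 h1, hv⟩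
    · exfalso
      rw [h] at hv
      have h3 := hy.1
      rw [hv] at h3
      exact G.irrefl h3
    · exact Or.inl ⟨_, h, h2, hv⟩
  have plus : ∀ y z, S G (v i) y → S G (v i) z → (∃ j, i < j ∧ j ≤ r i ∧ v j = y) →
      (∃ j, i < j ∧ j ≤ r i ∧ v j = z) → Twin G y z := by
    rintro y z hy hz ⟨j, a1, a2, rfl⟩ ⟨j', b1, b2, rfl⟩
    exact succ_class D a1 a2 hy b1 b2 hz
  have minus : ∀ y z, S G (v i) y → S G (v i) z → (∃ j, j < i ∧ i ≤ r j ∧ v j = y) →
      (∃ j, j < i ∧ i ≤ r j ∧ v j = z) → Twin G y z := by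
    rintro y z hy hz ⟨j, a1, a2, rfl⟩ ⟨j', b1, b2, rfl⟩
    exact pred_class D a1 a2 (S_symm hy) b1 b2 (S_symm hz)
  rcases key y₁ h₁ with k1 | k1 <;> rcases key y₂ h₂ with k2 | k2 <;>
    rcases key y₃ h₃ with k3 | k3
  · exact Or.inl (plus _ _ h₁ h₂ k1 k2)
  · exact Or.inl (plus _ _ h₁ h₂ k1 k2)
  · exact Or.inr (Or.inl (plus _ _ h₁ h₃ k1 k3))
  · exact Or.inr (Or.inr (minus _ _ h₂ h₃ k2 k3))
  · exact Or.inr (Or.inr (plus _ _ h₂ h₃ k2 k3))
  · exact Or.inr (Or.inl (minus _ _ h₁ h₃ k1 k3))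
  · exact Or.inl (minus _ _ h₁ h₂ k1 k2)
  · exact Or.inl (minus _ _ h₁ h₂ k1 k2)

end PCA38
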