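import Pool.Agent.Work.MP_38bec5_lc.P.Inv

set_option autoImplicit false

/-!
# UniA (size M): a `Bis` restricts to connected components.

PROOF of `bis_component`.  Let `c = G.connectedComponentMk x`, `c' = H.connectedComponentMk x'`.
(1) If `E u v u' v'` then `G.Reachable u v ↔ H.Reachable u' v'`: by symmetry (swap the roles, or use
`ext` with `f.symm`) it is enough to show: `G.Walk u v` of length `k` and `E u v u' v'` imply
`H.Reachable u' v'`.  Induction on the walk: nil: `u = v`, so `u' = v'` by `eq`.  cons: `G.Adj u z`, walk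
from `z` to `v`; `ext` gives `E u z u' (f z)` and `E z v (f z) v'`, so `H.Adj u' (f z)` and, by induction,
`H.Reachable (f z) v'`.  For the converse: `H.Adj u' z'`, put `z = f.symm z'`.
(2) Put `E' u v u' v' = E u v u' v'` (coerced from the subtypes).  `ext`: for `u, v` in `c`, `u', v'` in
`c'` take `f` from `ext`; `z ∈ c ↔ G.Reachable u z ↔ H.Reachable u' (f z) ↔ f z ∈ c'`, so `f` restricts to
a bijection `c.supp ≃ c'.supp` (`Equiv.subtypeEquiv`).  `start`: from `E x x x' x'` and `ext` get `f`
with `E x z x' (f z)`, then `bis_diag` gives `E z z (f z) (f z)`; restrict `f` to `c.supp ≃ c'.supp`.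
`eq`, `adj`, `symm` are immediate.
-/

namespace PCA38

private theorem walk_reach {V W : Type} {G : SimpleGraph V} {H : SimpleGraph W}
    {E : V → V → W → W → Prop} (hE : Bis G H E) {u v : V} (p : G.Walk u v) :
    ∀ {u' v' : W}, E u v u' v' → H.Reachable u' v' := by
  induction p with
  | nil =>
    intro u' v' h
    rw [(hE.eq _ _ _ _ h).1 rfl]
  | cons hadj p ih =>
    intro u' v' h
    obtain ⟨f, hf⟩ := hE.ext _ _ _ _ h
    exact ((hE.adj _ _ _ _ (hf _).1).1 hadj).reachable.trans (ih (hf _).2)

private theorem walk_reach' {V W : Type} {G : SimpleGraph V} {H : SimpleGraph W}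
    {E : V → V → W → W → Prop} (hE : Bis G H E) {u' v' : W} (p : H.Walk u' v') :
    ∀ {u v : V}, E u v u' v' → G.Reachable u v := by
  induction p with
  | nil =>
    intro u v h
    rw [(hE.eq _ _ _ _ h).2 rfl]
  | cons hadj p ih =>
    intro u v h
    obtain ⟨z, hz1, hz2⟩ := bis_tri' hE h _
    exact ((hE.adj _ _ _ _ hz1).2 hadj).reachable.trans (ih hz2)

private theorem bis_reach {V W : Type} {G : SimpleGraph V} {H : SimpleGraph W}
    {E : V → V → W → W → Prop} (hE : Bis G H E) {u v : V} {u' v' : W} (h : E u v u' v') :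
    G.Reachable u v ↔ H.Reachable u' v' :=
  ⟨fun ⟨p⟩ => walk_reach hE p h, fun ⟨p⟩ => walk_reach' hE p h⟩

private theorem mem_c {V : Type} {G : SimpleGraph V} {x z : V} :
    z ∈ (G.connectedComponentMk x).supp ↔ G.Reachable z x := by
  rw [SimpleGraph.ConnectedComponent.mem_supp_iff, SimpleGraph.ConnectedComponent.eq]

theorem bis_component {V W : Type} {G : SimpleGraph V} {H : SimpleGraph W}
    {E : V → V → W → W → Prop} (hE : Bis G H E) {x : V} {x' : W} (h : E x x x' x') :
    ∃ E' : (G.connectedComponentMk x).supp → (G.connectedComponentMk x).supp →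
        (H.connectedComponentMk x').supp → (H.connectedComponentMk x').supp → Prop,
      Bis (G.induce (G.connectedComponentMk x).supp) (H.induce (H.connectedComponentMk x').supp) E' := by
  refine ⟨fun u v u' v' => E u v u' v', ?_, ?_, ?_, ?_, ?_⟩
  · obtain ⟨f, hf⟩ := hE.ext _ _ _ _ h
    refine ⟨f.subtypeEquiv fun z => ?_, fun z => (bis_diag hE (hf z).1).2⟩
    rw [mem_c, mem_c]
    exact bis_reach hE (hf z).2
  · intro u v u' v' h1
    rw [Subtype.ext_iff, Subtype.ext_iff]
    exact hE.eq _ _ _ _ h1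
  · intro u v u' v' h1
    rw [SimpleGraph.comap_adj, SimpleGraph.comap_adj]
    exact hE.adj _ _ _ _ h1
  · intro u v u' v' h1
    exact hE.symm _ _ _ _ h1
  · intro u v u' v' h1
    obtain ⟨f, hf⟩ := hE.ext _ _ _ _ h1
    refine ⟨f.subtypeEquiv fun z => ?_, fun z => hf z⟩
    have hu := mem_c.1 u.2
    have hu' := mem_c.1 u'.2
    have h2 := bis_reach hE (hE.symm _ _ _ _ (hf z).1)
    rw [mem_c, mem_c]
    exact ⟨fun h3 => (h2.1 (h3.trans hu.symm)).trans hu', fun h3 => (h2.2 (h3.trans hu'.symm)).trans hu⟩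

end PCA38
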